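import Mathlib
import Pool.Agent.H44.FM.WGlue

set_option autoImplicit false
open Filter Topology Set

/-! # Closing of the S-property: statements

`h p s j v` : bounded functional, world `p`, walls of the groups in `s` pushed out by one row or column, window
number `j`, interior end of the half row / column at the lattice point `v`. All relations are asked only in the
mean over compact sets (`LA`, `LZ`), so that ends in exceptional rows (corners, marks, parity) do not matter.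
Groups of walls: `fo` floors of the lower arc (heading E), `ce` ceiling (heading E, upper arc), `le` left walls of
the lower arc (heading S), `ri` right walls of the lower arc (heading N).
`Nat4` : natural inputs (mixed differences, translations). `Trk4` : output of the chapters A, B, C for the moved
line. Conclusion (`hol4`): the box averages of `h p ∅` converge to a holomorphic function. -/

namespace Pool.Agent.H44.W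

open Pool.Agent.Q1.M4 (lat)
open Pool.Agent.Q1.M6f.Glue (uu rr)
open Pool.Agent.H44.FM.WG (Sh)

/-- the groups of walls -/
inductive G4 | fo | ce | le | ri
  deriving DecidableEq

open G4

/-- `B - A = o (1 / R)` in the mean over compact sets. -/
def LA (R : ℕ → ℝ) (F : Filter ℕ) (Ω : Set ℂ) (A B : ℕ → ℤ × ℤ → ℂ) : Prop :=
  ∀ K ⊆ Ω, IsCompact K → ∀ ε > 0, ∀ᶠ j in F, ∀ S : Finset (ℤ × ℤ), (∀ v ∈ S, lat v / (R j : ℂ) ∈ K) →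
    ∑ v ∈ S, ‖B j v - A j v‖ ≤ ε * R j

/-- `A = O (1 / R)` in the mean over compact sets. -/
def LO (R : ℕ → ℝ) (F : Filter ℕ) (Ω : Set ℂ) (A : ℕ → ℤ × ℤ → ℂ) : Prop :=
  ∀ K ⊆ Ω, IsCompact K → ∃ C : ℝ, ∀ᶠ j in F, ∀ S : Finset (ℤ × ℤ), (∀ v ∈ S, lat v / (R j : ℂ) ∈ K) →
    ∑ v ∈ S, ‖A j v‖ ≤ C * R j

/-- `A = o (1)` in the mean over compact sets. -/
def LZ (R : ℕ → ℝ) (F : Filter ℕ) (Ω : Set ℂ) (A : ℕ → ℤ × ℤ → ℂ) : Prop :=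
  ∀ K ⊆ Ω, IsCompact K → ∀ ε > 0, ∀ᶠ j in F, ∀ S : Finset (ℤ × ℤ), (∀ v ∈ S, lat v / (R j : ℂ) ∈ K) →
    ∑ v ∈ S, ‖A j v‖ ≤ ε * R j ^ 2

/-- `‖A‖ ≤ M` on compact sets, for large `j`. -/
def Bdd (R : ℕ → ℝ) (F : Filter ℕ) (Ω : Set ℂ) (M : ℝ) (A : ℕ → ℤ × ℤ → ℂ) : Prop :=
  ∀ K ⊆ Ω, IsCompact K → ∀ᶠ j in F, ∀ v : ℤ × ℤ, lat v / (R j : ℂ) ∈ K → ‖A j v‖ ≤ M

/-- the response of the group `g` -/
def X4 (h : Bool → Finset G4 → ℕ → ℤ × ℤ → ℂ) (p : Bool) (g : G4) : ℕ → ℤ × ℤ → ℂ := h p {g} - h p ∅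

/-- **Natural inputs.** -/
structure Nat4 (R : ℕ → ℝ) (F : Filter ℕ) (Ω : Set ℂ) (M : ℝ) (h : Bool → Finset G4 → ℕ → ℤ × ℤ → ℂ) :
    Prop where
  bdd : ∀ p s, Bdd R F Ω M (h p s)
  xb : ∀ p g, LZ R F Ω (X4 h p g)
  mix : ∀ p, ∀ a ∈ ({fo, ce} : Finset G4), ∀ g ∈ ({le, ri} : Finset G4),
    LA R F Ω (X4 h p g) (h p {a, g} - h p {a})
  s1 : ∀ p, LA R F Ω (Sh uu (h p {fo})) (h (!p) {ce})
  s1' : ∀ p, ∀ g ∈ ({le, ri} : Finset G4), LA R F Ω (Sh uu (h p {fo, g})) (h (!p) {ce, g})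
  s2 : ∀ p, LA R F Ω (Sh rr (h p {le})) (h (!p) {ri})
  s2' : ∀ p, ∀ a ∈ ({fo, ce} : Finset G4), LA R F Ω (Sh rr (h p {a, le})) (h (!p) {a, ri})

/-- **Input for the line.** `V j n` is the difference `h_low - h_up` at the rapidity `π / 2 + i log n`, `e` the
same for the natural environments, `A`, `B`, `B'` the responses (low minus up) of the walls passed in direction
E, S, N; `κ = i` for an over-line, `κ = -i` for an under-line. -/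
structure Trk4 (κ : ℂ) (R : ℕ → ℝ) (F : Filter ℕ) (Ω : Set ℂ) (V : ℕ → ℕ → ℤ × ℤ → ℂ)
    (e A B B' : ℕ → ℤ × ℤ → ℂ) : Prop where
  ee : LZ R F Ω e
  ab : ∀ K ⊆ Ω, IsCompact K → ∃ ρ1 > 0, ∀ ρ : ℝ, 0 < ρ → ρ < ρ1 → ∀ ε > 0, ∀ᶠ j in F,
    ∀ S : Finset (ℤ × ℤ), (∀ v ∈ S, lat v / (R j : ℂ) ∈ K) → ∑ v ∈ S, ‖V j ⌊ρ * R j⌋₊ v‖ ≤ ε * R j ^ 2
  cc : ∀ K ⊆ Ω, IsCompact K → ∃ c : ℝ, 0 < c ∧ ∀ ε > 0, ∃ ρ1 > 0, ∀ ρ : ℝ, 0 < ρ → ρ < ρ1 →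
    ∀ᶠ j in F, ∃ g0 gp gm : ℂ, c ≤ ‖g0‖ ∧ ‖gp + κ * g0‖ ≤ ε ∧ ‖gm - κ * g0‖ ≤ ε ∧
    ∀ S : Finset (ℤ × ℤ), (∀ v ∈ S, lat v / (R j : ℂ) ∈ K) →
    ∑ v ∈ S, ‖V j ⌊ρ * R j⌋₊ v - e j v -
      (⌊ρ * R j⌋₊ : ℂ) * (g0 * A j v + gp * B j v + gm * B' j v)‖ ≤ ε * ρ * R j ^ 2
  bB : LO R F Ω B
  bB' : LO R F Ω B'

/-- the mean of `f` over a box of side `m` -/
noncomputable def av (m : ℕ) (f : ℤ × ℤ → ℂ) (v : ℤ × ℤ) : ℂ :=
  (1 / ((m : ℂ) * m)) * ∑ k ∈ Finset.range m, ∑ l ∈ Finset.range m, f (v + ((k : ℤ), (l : ℤ)))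

/-- `g` is the limit of the box averages of `f`, first `R → ∞`, then side of the box `→ 0`. -/
def WLim (R : ℕ → ℝ) (F : Filter ℕ) (Ω : Set ℂ) (f : ℕ → ℤ × ℤ → ℂ) (g : ℂ → ℂ) : Prop :=
  ∀ K ⊆ Ω, IsCompact K → ∀ ε > 0, ∃ δ0 > 0, ∀ δ : ℝ, 0 < δ → δ < δ0 → ∀ᶠ j in F, ∀ v : ℤ × ℤ,
    lat v / (R j : ℂ) ∈ K → ‖av ⌊δ * R j⌋₊ (f j) v - g (lat v / (R j : ℂ))‖ ≤ ε

end Pool.Agent.H44.W
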