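import Mathlib
import Pool.Agent.H44.W.CloseDef

set_option autoImplicit false
set_option linter.unnecessarySeqFocus false
open Filter Topology Set

/-! # Calculus of `LA` and the relation of the responses in averaged form -/

namespace Pool.Agent.H44.W

open Pool.Agent.Q1.M4 (lat)
open Pool.Agent.Q1.M6f.Glue (uu rr)
open Pool.Agent.H44.FM.WG (Sh shift_mem' lat_sub')
open G4

variable {R : ℕ → ℝ} {F : Filter ℕ} {Ω : Set ℂ} {A B C D : ℕ → ℤ × ℤ → ℂ}

lemma LA.symm (h : LA R F Ω A B) : LA R F Ω B A := by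
  intro K hK hKc ε hε
  filter_upwards [h K hK hKc ε hε] with j hj S hS
  refine le_trans (le_of_eq ?_) (hj S hS)
  exact Finset.sum_congr rfl fun v _ => norm_sub_rev _ _

lemma LA.refl (hR : Tendsto R F atTop) (A : ℕ → ℤ × ℤ → ℂ) : LA R F Ω A A := by
  intro K hK hKc ε hε
  filter_upwards [hR.eventually_ge_atTop 0] with j hj S hS
  simp only [sub_self, norm_zero, Finset.sum_const_zero]
  positivity

lemma LA.of_le {A' B' A B : ℕ → ℤ × ℤ → ℂ} (c : ℝ) (hc : 0 ≤ c) (h : LA R F Ω A B)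
    (hle : ∀ j v, ‖B' j v - A' j v‖ ≤ c * ‖B j v - A j v‖) : LA R F Ω A' B' := by
  intro K hK hKc ε hε
  filter_upwards [h K hK hKc (ε / (c + 1)) (by positivity)] with j hj S hS
  have h1 := hj S hS
  have h0 : 0 ≤ ∑ v ∈ S, ‖B j v - A j v‖ := Finset.sum_nonneg fun _ _ => norm_nonneg _
  calc ∑ v ∈ S, ‖B' j v - A' j v‖ ≤ ∑ v ∈ S, c * ‖B j v - A j v‖ := Finset.sum_le_sum fun v _ => hle j v
    _ = c * ∑ v ∈ S, ‖B j v - A j v‖ := by rw [Finset.mul_sum]
    _ ≤ (c + 1) * ∑ v ∈ S, ‖B j v - A j v‖ := by nlinarith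
    _ ≤ (c + 1) * (ε / (c + 1) * R j) := by gcongr
    _ = ε * R j := by field_simp

lemma LA.of_le2 {A' B' A B C D : ℕ → ℤ × ℤ → ℂ} (h1 : LA R F Ω A B) (h2 : LA R F Ω C D)
    (hle : ∀ j v, ‖B' j v - A' j v‖ ≤ ‖B j v - A j v‖ + ‖D j v - C j v‖) : LA R F Ω A' B' := by
  intro K hK hKc ε hε
  filter_upwards [h1 K hK hKc (ε / 2) (by positivity), h2 K hK hKc (ε / 2) (by positivity)] with j a b S hS
  have k1 := a S hS
  have k2 := b S hS
  calc ∑ v ∈ S, ‖B' j v - A' j v‖ ≤ ∑ v ∈ S, (‖B j v - A j v‖ + ‖D j v - C j v‖) :=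
        Finset.sum_le_sum fun v _ => hle j v
    _ = ∑ v ∈ S, ‖B j v - A j v‖ + ∑ v ∈ S, ‖D j v - C j v‖ := Finset.sum_add_distrib
    _ ≤ ε * R j := by linarith

lemma LA.trans (h1 : LA R F Ω A B) (h2 : LA R F Ω B C) : LA R F Ω A C :=
  LA.of_le2 h1 h2 fun j v => by
    have e : C j v - A j v = (B j v - A j v) + (C j v - B j v) := by ring
    rw [e]; exact norm_add_le _ _

lemma LA.add (h1 : LA R F Ω A B) (h2 : LA R F Ω C D) : LA R F Ω (A + C) (B + D) :=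
  LA.of_le2 h1 h2 fun j v => by
    have e : (B + D) j v - (A + C) j v = (B j v - A j v) + (D j v - C j v) := by
      simp only [Pi.add_apply]; ring
    rw [e]; exact norm_add_le _ _

lemma LA.sub (h1 : LA R F Ω A B) (h2 : LA R F Ω C D) : LA R F Ω (A - C) (B - D) :=
  LA.of_le2 h1 h2 fun j v => by
    have e : (B - D) j v - (A - C) j v = (B j v - A j v) - (D j v - C j v) := by
      simp only [Pi.sub_apply]; ring
    rw [e]; exact norm_sub_le _ _

lemma LA.neg (h1 : LA R F Ω A B) : LA R F Ω (-A) (-B) :=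
  LA.of_le 1 zero_le_one h1 fun j v => by
    have e : (-B) j v - (-A) j v = -(B j v - A j v) := by simp only [Pi.neg_apply]; ring
    rw [e, norm_neg, one_mul]

lemma LA.smul (c : ℂ) (h1 : LA R F Ω A B) : LA R F Ω (c • A) (c • B) :=
  LA.of_le ‖c‖ (norm_nonneg _) h1 fun j v => by
    have e : (c • B) j v - (c • A) j v = c * (B j v - A j v) := by
      simp only [Pi.smul_apply, smul_eq_mul]; ring
    rw [e, norm_mul]

/-- shifts -/
lemma LA.sh (hR : Tendsto R F atTop) (hΩ : IsOpen Ω) (h : LA R F Ω A B) (d : ℤ × ℤ) :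
    LA R F Ω (Sh d A) (Sh d B) := by
  intro K hK hKc ε hε
  obtain ⟨s, hs, hsub⟩ := hKc.exists_cthickening_subset_open hΩ hK
  filter_upwards [h _ hsub hKc.cthickening ε hε, hR.eventually_gt_atTop 0,
    hR.eventually_gt_atTop (‖lat d‖ / s)] with j h1 h2 h3 S hS
  have := h1 (S.map ⟨fun v => v - d, sub_left_injective⟩) (by
    intro v hv
    rw [Finset.mem_map] at hv
    obtain ⟨w, hw, rfl⟩ := hv
    exact shift_mem' hs h2 h3 (hS w hw))
  rw [Finset.sum_map] at this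
  exact this

lemma LO.of_LA (h : LA R F Ω A B) (hA : LO R F Ω A) : LO R F Ω B := by
  intro K hK hKc
  obtain ⟨C, hC⟩ := hA K hK hKc
  refine ⟨C + 1, ?_⟩
  filter_upwards [hC, h K hK hKc 1 one_pos] with j h1 h2 S hS
  have k1 := h1 S hS
  have k2 := h2 S hS
  calc ∑ v ∈ S, ‖B j v‖ ≤ ∑ v ∈ S, (‖A j v‖ + ‖B j v - A j v‖) := Finset.sum_le_sum fun v _ => by
        have e : B j v = A j v + (B j v - A j v) := by ring
        calc ‖B j v‖ = ‖A j v + (B j v - A j v)‖ := by rw [← e]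
          _ ≤ _ := norm_add_le _ _
    _ = ∑ v ∈ S, ‖A j v‖ + ∑ v ∈ S, ‖B j v - A j v‖ := Finset.sum_add_distrib
    _ ≤ (C + 1) * R j := by linarith

lemma LO.add (hA : LO R F Ω A) (hB : LO R F Ω B) : LO R F Ω (A + B) := by
  intro K hK hKc
  obtain ⟨C, hC⟩ := hA K hK hKc
  obtain ⟨C', hC'⟩ := hB K hK hKc
  refine ⟨C + C', ?_⟩
  filter_upwards [hC, hC'] with j h1 h2 S hS
  have k1 := h1 S hS
  have k2 := h2 S hS
  calc ∑ v ∈ S, ‖(A + B) j v‖ ≤ ∑ v ∈ S, (‖A j v‖ + ‖B j v‖) := Finset.sum_le_sum fun v _ => norm_add_le _ _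
    _ = ∑ v ∈ S, ‖A j v‖ + ∑ v ∈ S, ‖B j v‖ := Finset.sum_add_distrib
    _ ≤ (C + C') * R j := by linarith

lemma LO.smul (c : ℂ) (hA : LO R F Ω A) : LO R F Ω (c • A) := by
  intro K hK hKc
  obtain ⟨C, hC⟩ := hA K hK hKc
  refine ⟨‖c‖ * C, ?_⟩
  filter_upwards [hC] with j h1 S hS
  have k1 := h1 S hS
  calc ∑ v ∈ S, ‖(c • A) j v‖ = ‖c‖ * ∑ v ∈ S, ‖A j v‖ := by
        rw [Finset.mul_sum]
        exact Finset.sum_congr rfl fun v _ => by
          show ‖c • A j v‖ = _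
          exact norm_smul _ _
    _ ≤ ‖c‖ * (C * R j) := by gcongr
    _ = ‖c‖ * C * R j := by ring

lemma LO.sub (hA : LO R F Ω A) (hB : LO R F Ω B) : LO R F Ω (A - B) := by
  have := hA.add (hB.smul (-1))
  rwa [neg_smul, one_smul, ← sub_eq_add_neg] at this

/-! ### `LZ` -/

lemma LZ.add (hA : LZ R F Ω A) (hB : LZ R F Ω B) : LZ R F Ω (A + B) := by
  intro K hK hKc ε hε
  filter_upwards [hA K hK hKc (ε / 2) (by positivity), hB K hK hKc (ε / 2) (by positivity)] with j h1 h2 S hS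
  have k1 := h1 S hS
  have k2 := h2 S hS
  calc ∑ v ∈ S, ‖(A + B) j v‖ ≤ ∑ v ∈ S, (‖A j v‖ + ‖B j v‖) := Finset.sum_le_sum fun v _ => norm_add_le _ _
    _ = ∑ v ∈ S, ‖A j v‖ + ∑ v ∈ S, ‖B j v‖ := Finset.sum_add_distrib
    _ ≤ ε * R j ^ 2 := by linarith

lemma LZ.of_eq_norm {A' : ℕ → ℤ × ℤ → ℂ} (hA : LZ R F Ω A) (h : ∀ j v, ‖A' j v‖ = ‖A j v‖) : LZ R F Ω A' := by
  intro K hK hKc ε hε
  filter_upwards [hA K hK hKc ε hε] with j h1 S hS
  refine le_trans (le_of_eq ?_) (h1 S hS)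
  exact Finset.sum_congr rfl fun v _ => h j v

lemma LZ.neg (hA : LZ R F Ω A) : LZ R F Ω (-A) := hA.of_eq_norm fun j v => by
  simp only [Pi.neg_apply, norm_neg]

lemma LZ.sub (hA : LZ R F Ω A) (hB : LZ R F Ω B) : LZ R F Ω (A - B) := by
  rw [sub_eq_add_neg]; exact hA.add hB.neg

lemma LA.lz (hR : Tendsto R F atTop) (h : LA R F Ω A B) : LZ R F Ω (B - A) := by
  intro K hK hKc ε hε
  filter_upwards [h K hK hKc ε hε, hR.eventually_ge_atTop 1] with j h1 h2 S hS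
  refine (h1 S hS).trans ?_
  have : R j ≤ R j ^ 2 := by nlinarith
  nlinarith

lemma LO.lz (hR : Tendsto R F atTop) (h : LO R F Ω A) : LZ R F Ω A := by
  intro K hK hKc ε hε
  obtain ⟨C, hC⟩ := h K hK hKc
  filter_upwards [hC, hR.eventually_gt_atTop 0, hR.eventually_ge_atTop (|C| / ε)] with j h1 h2 h3 S hS
  refine (h1 S hS).trans ?_
  rw [div_le_iff₀ hε] at h3
  calc C * R j ≤ |C| * R j := by gcongr; exact le_abs_self C
    _ ≤ (R j * ε) * R j := by gcongr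
    _ = ε * R j ^ 2 := by ring

/-- shifts -/
lemma LZ.sh (hR : Tendsto R F atTop) (hΩ : IsOpen Ω) (h : LZ R F Ω A) (d : ℤ × ℤ) :
    LZ R F Ω (Sh d A) := by
  intro K hK hKc ε hε
  obtain ⟨s, hs, hsub⟩ := hKc.exists_cthickening_subset_open hΩ hK
  filter_upwards [h _ hsub hKc.cthickening ε hε, hR.eventually_gt_atTop 0,
    hR.eventually_gt_atTop (‖lat d‖ / s)] with j h1 h2 h3 S hS
  have := h1 (S.map ⟨fun v => v - d, sub_left_injective⟩) (by
    intro v hv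
    rw [Finset.mem_map] at hv
    obtain ⟨w, hw, rfl⟩ := hv
    exact shift_mem' hs h2 h3 (hS w hw))
  rw [Finset.sum_map] at this
  exact this

/-! ### Averages -/

/-- the average as a function of `j` -/
noncomputable def AV (m : ℕ → ℕ) (A : ℕ → ℤ × ℤ → ℂ) : ℕ → ℤ × ℤ → ℂ := fun j => av (m j) (A j)

lemma av_add (m : ℕ) (f g : ℤ × ℤ → ℂ) : av m (f + g) = av m f + av m g := by
  funext v
  simp only [av, Pi.add_apply, Finset.sum_add_distrib, mul_add]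

lemma av_smul (m : ℕ) (c : ℂ) (f : ℤ × ℤ → ℂ) : av m (c • f) = c • av m f := by
  funext v
  simp only [av, Pi.smul_apply, smul_eq_mul, ← Finset.mul_sum]
  ring

lemma av_sub (m : ℕ) (f g : ℤ × ℤ → ℂ) : av m (f - g) = av m f - av m g := by
  funext v
  simp only [av, Pi.sub_apply, Finset.sum_sub_distrib, mul_sub]

lemma AV_add (m : ℕ → ℕ) : AV m (A + B) = AV m A + AV m B := by
  funext j; exact av_add _ _ _
lemma AV_sub (m : ℕ → ℕ) : AV m (A - B) = AV m A - AV m B := by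
  funext j; exact av_sub _ _ _
lemma AV_smul (m : ℕ → ℕ) (c : ℂ) : AV m (c • A) = c • AV m A := by
  funext j; exact av_smul _ _ _

lemma AV_sh (m : ℕ → ℕ) (d : ℤ × ℤ) : AV m (Sh d A) = Sh d (AV m A) := by
  funext j v
  simp only [AV, Sh, av]
  congr 1
  refine Finset.sum_congr rfl fun k _ => Finset.sum_congr rfl fun l _ => ?_
  congr 1
  abel

/-- the points of the box -/
noncomputable def bx (m : ℕ) (v : ℤ × ℤ) : Finset (ℤ × ℤ) :=
  (Finset.range m ×ˢ Finset.range m).map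
    ⟨fun q => v + ((q.1 : ℤ), (q.2 : ℤ)), fun q q' h => by
      have h1 := add_left_cancel h
      rw [Prod.mk.injEq] at h1
      exact Prod.ext (by exact_mod_cast h1.1) (by exact_mod_cast h1.2)⟩

lemma av_eq (m : ℕ) (f : ℤ × ℤ → ℂ) (v : ℤ × ℤ) :
    av m f v = (1 / ((m : ℂ) * m)) * ∑ w ∈ bx m v, f w := by
  unfold av bx
  rw [Finset.sum_map, Finset.sum_product]
  rfl

lemma card_bx (m : ℕ) (v : ℤ × ℤ) : (bx m v).card = m * m := by
  unfold bx
  rw [Finset.card_map, Finset.card_product, Finset.card_range]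

lemma norm_av_le (m : ℕ) (f : ℤ × ℤ → ℂ) (v : ℤ × ℤ) :
    ‖av m f v‖ ≤ (1 / ((m : ℝ) * m)) * ∑ w ∈ bx m v, ‖f w‖ := by
  rw [av_eq, norm_mul]
  have e : ‖(1 / ((m : ℂ) * m))‖ = 1 / ((m : ℝ) * m) := by
    rw [norm_div, norm_one, norm_mul, Complex.norm_natCast]
  rw [e]
  exact mul_le_mul_of_nonneg_left (norm_sum_le _ _) (by positivity)

lemma norm_av_le_of {m : ℕ} {f : ℤ × ℤ → ℂ} {v : ℤ × ℤ} {M : ℝ} (hM : 0 ≤ M)
    (h : ∀ w ∈ bx m v, ‖f w‖ ≤ M) : ‖av m f v‖ ≤ M := by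
  refine (norm_av_le m f v).trans ?_
  rcases Nat.eq_zero_or_pos m with h0 | h0
  · rw [h0]; simpa using hM
  · have h1 : ∑ w ∈ bx m v, ‖f w‖ ≤ ((m : ℝ) * m) * M := by
      refine (Finset.sum_le_card_nsmul _ _ _ h).trans (le_of_eq ?_)
      rw [card_bx, nsmul_eq_mul]; push_cast; ring
    have h2 : (0 : ℝ) < (m : ℝ) * m := by positivity
    calc (1 / ((m : ℝ) * m)) * ∑ w ∈ bx m v, ‖f w‖ ≤ (1 / ((m : ℝ) * m)) * (((m : ℝ) * m) * M) := by
          gcongr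
      _ = M := by field_simp

lemma mem_bx {m : ℕ} {v w : ℤ × ℤ} : w ∈ bx m v ↔
    v.1 ≤ w.1 ∧ w.1 < v.1 + m ∧ v.2 ≤ w.2 ∧ w.2 < v.2 + m := by
  unfold bx
  rw [Finset.mem_map]
  constructor
  · rintro ⟨q, hq, rfl⟩
    rw [Finset.mem_product, Finset.mem_range, Finset.mem_range] at hq
    simp only [Function.Embedding.coeFn_mk, Prod.fst_add, Prod.snd_add]
    omega
  · rintro ⟨h1, h2, h3, h4⟩
    refine ⟨((w.1 - v.1).toNat, (w.2 - v.2).toNat), ?_, ?_⟩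
    · rw [Finset.mem_product, Finset.mem_range, Finset.mem_range]
      constructor <;> simp only <;> omega
    · simp only [Function.Embedding.coeFn_mk]
      refine Prod.ext ?_ ?_
      · simp only [Prod.fst_add]; omega
      · simp only [Prod.snd_add]; omega

/-- Lipschitz bound, in the form used for shifts: the two boxes differ by two rows -/
lemma av_uu (m : ℕ) (f : ℤ × ℤ → ℂ) (v : ℤ × ℤ) :
    av m f v - av m f (v - uu) = (1 / ((m : ℂ) * m)) * ∑ k ∈ Finset.range m,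
      (f (v + ((k : ℤ), (m : ℤ)) - uu) - f (v + ((k : ℤ), (0 : ℤ)) - uu)) := by
  unfold av
  rw [← mul_sub, ← Finset.sum_sub_distrib]
  congr 1
  refine Finset.sum_congr rfl fun k _ => ?_
  have h := Finset.sum_range_sub (fun l : ℕ => f (v + ((k : ℤ), (l : ℤ)) - uu)) m
  simp only [Nat.cast_zero] at h
  rw [← h, ← Finset.sum_sub_distrib]
  refine Finset.sum_congr rfl fun l _ => ?_
  congr 1
  · congr 1
    refine Prod.ext ?_ ?_ <;> simp [uu] <;> ring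
  · congr 1
    refine Prod.ext ?_ ?_ <;> simp [uu] <;> ring

lemma av_rr (m : ℕ) (f : ℤ × ℤ → ℂ) (v : ℤ × ℤ) :
    av m f v - av m f (v - rr) = (1 / ((m : ℂ) * m)) * ∑ l ∈ Finset.range m,
      (f (v + ((m : ℤ), (l : ℤ)) - rr) - f (v + ((0 : ℤ), (l : ℤ)) - rr)) := by
  unfold av
  rw [← mul_sub, Finset.sum_comm, Finset.sum_comm (s := Finset.range m) (t := Finset.range m)
    (f := fun k l => f (v - rr + ((k : ℤ), (l : ℤ)))), ← Finset.sum_sub_distrib]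
  congr 1
  refine Finset.sum_congr rfl fun l _ => ?_
  have h := Finset.sum_range_sub (fun k : ℕ => f (v + ((k : ℤ), (l : ℤ)) - rr)) m
  simp only [Nat.cast_zero] at h
  rw [← h, ← Finset.sum_sub_distrib]
  refine Finset.sum_congr rfl fun k _ => ?_
  congr 1
  · congr 1
    refine Prod.ext ?_ ?_ <;> simp [rr] <;> ring
  · congr 1
    refine Prod.ext ?_ ?_ <;> simp [rr] <;> ring

/-- points of the box are near -/
lemma bx_near {m : ℕ} {v w : ℤ × ℤ} (h : w ∈ bx m v) {r : ℝ} (hr : 0 < r) :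
    ‖lat w / (r : ℂ) - lat v / (r : ℂ)‖ ≤ 2 * m / r := by
  rw [mem_bx] at h
  rw [← sub_div, norm_div, Complex.norm_real, Real.norm_of_nonneg hr.le]
  gcongr
  rw [← lat_sub']
  refine (Pool.Agent.H44.FM.WG.norm_lat_le _).trans ?_
  have h1 : |((w - v).1 : ℝ)| ≤ m := by
    have : |(w - v).1| ≤ (m : ℤ) := by rw [abs_le]; simp only [Prod.fst_sub]; omega
    exact_mod_cast this
  have h2 : |((w - v).2 : ℝ)| ≤ m := by
    have : |(w - v).2| ≤ (m : ℤ) := by rw [abs_le]; simp only [Prod.snd_sub]; omega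
    exact_mod_cast this
  linarith

/-- a bounded function: averages at neighbouring points -/
lemma av_uu_le {m : ℕ} (hm : 1 ≤ m) {f : ℤ × ℤ → ℂ} {v : ℤ × ℤ} {c : ℝ} (hc : 0 ≤ c)
    (h : ∀ w : ℤ × ℤ, v.1 ≤ w.1 → w.1 < v.1 + m → v.2 - 1 ≤ w.2 → w.2 < v.2 + m → ‖f w‖ ≤ c) :
    ‖av m f v - av m f (v - uu)‖ ≤ 2 * c / m := by
  rw [av_uu, norm_mul]
  have hm' : (0 : ℝ) < m := by exact_mod_cast hm
  have e : ‖(1 / ((m : ℂ) * m))‖ = 1 / ((m : ℝ) * m) := by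
    rw [norm_div, norm_one, norm_mul, Complex.norm_natCast]
  have h1 : ‖∑ k ∈ Finset.range m, (f (v + ((k : ℤ), (m : ℤ)) - uu) - f (v + ((k : ℤ), (0 : ℤ)) - uu))‖ ≤
      m * (2 * c) := by
    refine (norm_sum_le _ _).trans ?_
    refine (Finset.sum_le_card_nsmul _ _ (2 * c) fun k hk => ?_).trans (le_of_eq ?_)
    · rw [Finset.mem_range] at hk
      refine (norm_sub_le _ _).trans ?_
      have a1 := h (v + ((k : ℤ), (m : ℤ)) - uu) (by simp [uu]) (by simp [uu] <;> omega)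
        (by simp [uu]) (by simp [uu])
      have a2 := h (v + ((k : ℤ), (0 : ℤ)) - uu) (by simp [uu]) (by simp [uu] <;> omega)
        (by simp [uu]) (by simp [uu] <;> omega)
      linarith
    · rw [Finset.card_range, nsmul_eq_mul]
  rw [e]
  calc 1 / ((m : ℝ) * m) * _ ≤ 1 / ((m : ℝ) * m) * (m * (2 * c)) := by gcongr
    _ = 2 * c / m := by field_simp

lemma av_rr_le {m : ℕ} (hm : 1 ≤ m) {f : ℤ × ℤ → ℂ} {v : ℤ × ℤ} {c : ℝ} (hc : 0 ≤ c)
    (h : ∀ w : ℤ × ℤ, v.1 - 1 ≤ w.1 → w.1 < v.1 + m → v.2 ≤ w.2 → w.2 < v.2 + m → ‖f w‖ ≤ c) :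
    ‖av m f v - av m f (v - rr)‖ ≤ 2 * c / m := by
  rw [av_rr, norm_mul]
  have hm' : (0 : ℝ) < m := by exact_mod_cast hm
  have e : ‖(1 / ((m : ℂ) * m))‖ = 1 / ((m : ℝ) * m) := by
    rw [norm_div, norm_one, norm_mul, Complex.norm_natCast]
  have h1 : ‖∑ l ∈ Finset.range m, (f (v + ((m : ℤ), (l : ℤ)) - rr) - f (v + ((0 : ℤ), (l : ℤ)) - rr))‖ ≤
      m * (2 * c) := by
    refine (norm_sum_le _ _).trans ?_
    refine (Finset.sum_le_card_nsmul _ _ (2 * c) fun k hk => ?_).trans (le_of_eq ?_)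
    · rw [Finset.mem_range] at hk
      refine (norm_sub_le _ _).trans ?_
      have a1 := h (v + ((m : ℤ), (k : ℤ)) - rr) (by simp [rr] <;> omega) (by simp [rr])
        (by simp [rr]) (by simp [rr] <;> omega)
      have a2 := h (v + ((0 : ℤ), (k : ℤ)) - rr) (by simp [rr]) (by simp [rr] <;> omega)
        (by simp [rr]) (by simp [rr] <;> omega)
      linarith
    · rw [Finset.card_range, nsmul_eq_mul]
  rw [e]
  calc 1 / ((m : ℝ) * m) * _ ≤ 1 / ((m : ℝ) * m) * (m * (2 * c)) := by gcongr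
    _ = 2 * c / m := by field_simp

/-- averages commute -/
lemma av_comm (m n : ℕ) (f : ℤ × ℤ → ℂ) : av m (av n f) = av n (av m f) := by
  funext v
  simp only [av_eq]
  have e : ∀ (a b : ℕ) (v : ℤ × ℤ) (g : ℤ × ℤ → ℂ), ∑ w ∈ bx a v, ∑ u ∈ bx b w, g u =
      ∑ q ∈ Finset.range a ×ˢ Finset.range a, ∑ q' ∈ Finset.range b ×ˢ Finset.range b,
        g (v + ((q.1 : ℤ), (q.2 : ℤ)) + ((q'.1 : ℤ), (q'.2 : ℤ))) := by
    intro a b v g
    unfold bx
    rw [Finset.sum_map]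
    refine Finset.sum_congr rfl fun q _ => ?_
    rw [Finset.sum_map]
    rfl
  simp only [← Finset.mul_sum]
  rw [e, e]
  have e2 : ∑ q ∈ Finset.range m ×ˢ Finset.range m, ∑ q' ∈ Finset.range n ×ˢ Finset.range n,
        f (v + ((q.1 : ℤ), (q.2 : ℤ)) + ((q'.1 : ℤ), (q'.2 : ℤ))) =
      ∑ q ∈ Finset.range n ×ˢ Finset.range n, ∑ q' ∈ Finset.range m ×ˢ Finset.range m,
        f (v + ((q.1 : ℤ), (q.2 : ℤ)) + ((q'.1 : ℤ), (q'.2 : ℤ))) := by
    rw [Finset.sum_comm]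
    refine Finset.sum_congr rfl fun q _ => Finset.sum_congr rfl fun q' _ => ?_
    congr 1
    abel
  rw [e2]
  ring

end Pool.Agent.H44.W
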