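import Mathlib
import Pool.Agent.H44.W.CloseLA

set_option autoImplicit false
open Filter Topology Set

/-! # Criteria for the relations in the mean

`Thin` : a family of bad sets of small density. `LA_of_off`, `LZ_of_off`, `sum_of_off` : pointwise bounds outside
the bad sets and a crude bound everywhere. -/

namespace Pool.Agent.H44.W

open Pool.Agent.Q1.M4 (lat)

variable {R : ℕ → ℝ} {F : Filter ℕ} {Ω : Set ℂ} {A B : ℕ → ℤ × ℤ → ℂ}

/-- the bad sets `Z η j` have density at most `C η` on compact sets -/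
def Thin (R : ℕ → ℝ) (F : Filter ℕ) (Ω : Set ℂ) (Z : ℝ → ℕ → Set (ℤ × ℤ)) : Prop :=
  ∀ K ⊆ Ω, IsCompact K → ∃ C : ℝ, ∀ η > 0, ∀ᶠ j in F, ∀ S : Finset (ℤ × ℤ),
    (∀ v ∈ S, lat v / (R j : ℂ) ∈ K ∧ v ∈ Z η j) → (S.card : ℝ) ≤ C * η * R j ^ 2

/-- the number of lattice points in a compact set -/
lemma card_le_of_compact {K : Set ℂ} (hKc : IsCompact K) : ∃ C : ℝ, 0 < C ∧ ∀ r : ℝ, 1 ≤ r →
    ∀ S : Finset (ℤ × ℤ), (∀ v ∈ S, lat v / (r : ℂ) ∈ K) → (S.card : ℝ) ≤ C * r ^ 2 := by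
  obtain ⟨m, hm⟩ := hKc.isBounded.exists_norm_le
  have hm' : ∀ z ∈ K, ‖z‖ ≤ |m| := fun z hz => (hm z hz).trans (le_abs_self m)
  refine ⟨(2 * |m| + 3) ^ 2, by positivity, fun r hr S hS => ?_⟩
  have hr0 : 0 < r := by linarith
  set n : ℕ := ⌊|m| * r⌋₊ + 1 with hn
  have hsub : S ⊆ Finset.Icc (-(n : ℤ)) n ×ˢ Finset.Icc (-(n : ℤ)) n := by
    intro v hv
    have h1 := hm' _ (hS v hv)
    rw [norm_div, Complex.norm_real, Real.norm_of_nonneg hr0.le, div_le_iff₀ hr0] at h1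
    have h2 := (Complex.abs_re_le_norm (lat v)).trans h1
    have h3 := (Complex.abs_im_le_norm (lat v)).trans h1
    have e1 : (lat v).re = (v.1 : ℝ) := rfl
    have e2 : (lat v).im = (v.2 : ℝ) := rfl
    rw [e1] at h2
    rw [e2] at h3
    have h4 := Nat.lt_floor_add_one (|m| * r)
    have h5 : |(v.1 : ℝ)| < n := by rw [hn]; push_cast; linarith
    have h6 : |(v.2 : ℝ)| < n := by rw [hn]; push_cast; linarith
    have h7 : |v.1| < (n : ℤ) := by exact_mod_cast h5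
    have h8 : |v.2| < (n : ℤ) := by exact_mod_cast h6
    rw [abs_lt] at h7 h8
    rw [Finset.mem_product, Finset.mem_Icc, Finset.mem_Icc]
    omega
  have hc : ((Finset.Icc (-(n : ℤ)) n).card : ℝ) = 2 * n + 1 := by
    rw [Int.card_Icc]
    have : ((n : ℤ) + 1 - -(n : ℤ)).toNat = 2 * n + 1 := by omega
    rw [this]; push_cast; ring
  have h9 : (n : ℝ) ≤ |m| * r + 1 := by
    rw [hn]; push_cast
    have := Nat.floor_le (show 0 ≤ |m| * r by positivity)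
    linarith
  calc (S.card : ℝ) ≤ ((Finset.Icc (-(n : ℤ)) n ×ˢ Finset.Icc (-(n : ℤ)) n).card : ℝ) := by
        exact_mod_cast Finset.card_le_card hsub
    _ = (2 * n + 1) ^ 2 := by rw [Finset.card_product]; push_cast; rw [hc]; ring
    _ ≤ ((2 * |m| + 3) * r) ^ 2 := by
        gcongr
        nlinarith [abs_nonneg m]
    _ = (2 * |m| + 3) ^ 2 * r ^ 2 := by ring

/-- the general form: `‖A j v‖ ≤ ε s` off the bad sets, `‖A j v‖ ≤ C s` everywhere -/
theorem sum_of_off {Z : ℝ → ℕ → Set (ℤ × ℤ)} (hR : Tendsto R F atTop) (hZ : Thin R F Ω Z) {s : ℕ → ℝ}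
    (hs : ∀ᶠ j in F, 0 ≤ s j)
    (hC : ∀ K ⊆ Ω, IsCompact K → ∃ C : ℝ, ∀ᶠ j in F, ∀ v : ℤ × ℤ, lat v / (R j : ℂ) ∈ K → ‖A j v‖ ≤ C * s j)
    (ho : ∀ K ⊆ Ω, IsCompact K → ∀ η > 0, ∀ ε > 0, ∀ᶠ j in F, ∀ v : ℤ × ℤ, lat v / (R j : ℂ) ∈ K →
      v ∉ Z η j → ‖A j v‖ ≤ ε * s j) :
    ∀ K ⊆ Ω, IsCompact K → ∀ ε > 0, ∀ᶠ j in F, ∀ S : Finset (ℤ × ℤ), (∀ v ∈ S, lat v / (R j : ℂ) ∈ K) →
      ∑ v ∈ S, ‖A j v‖ ≤ ε * s j * R j ^ 2 := by
  classical
  intro K hK hKc ε hε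
  obtain ⟨C1, hC1⟩ := hZ K hK hKc
  obtain ⟨C2, hC2⟩ := hC K hK hKc
  obtain ⟨C3, hC3, hC3'⟩ := card_le_of_compact hKc
  set η : ℝ := ε / (2 * (|C1| + 1) * (|C2| + 1)) with hη
  have hηp : 0 < η := by positivity
  filter_upwards [hC1 η hηp, hC2, ho K hK hKc η hηp (ε / (2 * C3)) (by positivity), hs,
    hR.eventually_ge_atTop 1] with j h1 h2 h3 h4 h5 S hS
  have hr0 : 0 < R j := by linarith
  rw [← Finset.sum_filter_add_sum_filter_not S (fun v => v ∈ Z η j)]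
  have b1 : ∑ v ∈ S.filter (fun v => v ∈ Z η j), ‖A j v‖ ≤ ε / 2 * s j * R j ^ 2 := by
    have k1 := h1 (S.filter (fun v => v ∈ Z η j)) fun v hv => by
      rw [Finset.mem_filter] at hv
      exact ⟨hS v hv.1, hv.2⟩
    have k2 : ∀ v ∈ S.filter (fun v => v ∈ Z η j), ‖A j v‖ ≤ (|C2| + 1) * s j := fun v hv => by
      rw [Finset.mem_filter] at hv
      refine (h2 v (hS v hv.1)).trans ?_
      gcongr
      linarith [le_abs_self C2]
    refine (Finset.sum_le_card_nsmul _ _ _ k2).trans ?_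
    rw [nsmul_eq_mul]
    calc ((S.filter (fun v => v ∈ Z η j)).card : ℝ) * ((|C2| + 1) * s j) ≤
        ((|C1| + 1) * η * R j ^ 2) * ((|C2| + 1) * s j) := by
          gcongr
          refine k1.trans ?_
          gcongr
          linarith [le_abs_self C1]
      _ = ε / 2 * s j * R j ^ 2 := by rw [hη]; field_simp
  have b2 : ∑ v ∈ S.filter (fun v => ¬ v ∈ Z η j), ‖A j v‖ ≤ ε / 2 * s j * R j ^ 2 := by
    have k2 : ∀ v ∈ S.filter (fun v => ¬ v ∈ Z η j), ‖A j v‖ ≤ ε / (2 * C3) * s j := fun v hv => by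
      rw [Finset.mem_filter] at hv
      exact h3 v (hS v hv.1) hv.2
    refine (Finset.sum_le_card_nsmul _ _ _ k2).trans ?_
    rw [nsmul_eq_mul]
    have k3 := hC3' (R j) h5 (S.filter (fun v => ¬ v ∈ Z η j)) fun v hv => hS v (Finset.mem_filter.1 hv).1
    calc ((S.filter (fun v => ¬ v ∈ Z η j)).card : ℝ) * (ε / (2 * C3) * s j) ≤
        (C3 * R j ^ 2) * (ε / (2 * C3) * s j) := by gcongr
      _ = ε / 2 * s j * R j ^ 2 := by field_simp
  linarith

/-- **Criterion for `LA`.** -/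
theorem LA_of_off {Z : ℝ → ℕ → Set (ℤ × ℤ)} (hR : Tendsto R F atTop) (hZ : Thin R F Ω Z)
    (hC : ∀ K ⊆ Ω, IsCompact K → ∃ C : ℝ, ∀ᶠ j in F, ∀ v : ℤ × ℤ, lat v / (R j : ℂ) ∈ K →
      ‖B j v - A j v‖ ≤ C / R j)
    (ho : ∀ K ⊆ Ω, IsCompact K → ∀ η > 0, ∀ ε > 0, ∀ᶠ j in F, ∀ v : ℤ × ℤ, lat v / (R j : ℂ) ∈ K →
      v ∉ Z η j → ‖B j v - A j v‖ ≤ ε / R j) : LA R F Ω A B := by
  intro K hK hKc ε hε
  have k := sum_of_off (A := B - A) hR hZ (s := fun j => 1 / R j) (by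
      filter_upwards [hR.eventually_ge_atTop 0] with j hj
      positivity) (fun K hK hKc => by
      obtain ⟨C, h⟩ := hC K hK hKc
      refine ⟨C, ?_⟩
      filter_upwards [h] with j hj v hv
      rw [mul_one_div]; exact hj v hv) (fun K hK hKc η hη ε hε => by
      filter_upwards [ho K hK hKc η hη ε hε] with j hj v hv hv'
      rw [mul_one_div]; exact hj v hv hv') K hK hKc ε hε
  filter_upwards [k, hR.eventually_gt_atTop 0] with j h1 h2 S hS
  refine (h1 S hS).trans (le_of_eq ?_)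
  field_simp

/-- **Criterion for `LZ`.** -/
theorem LZ_of_off {Z : ℝ → ℕ → Set (ℤ × ℤ)} (hR : Tendsto R F atTop) (hZ : Thin R F Ω Z)
    (hC : ∀ K ⊆ Ω, IsCompact K → ∃ C : ℝ, ∀ᶠ j in F, ∀ v : ℤ × ℤ, lat v / (R j : ℂ) ∈ K → ‖A j v‖ ≤ C)
    (ho : ∀ K ⊆ Ω, IsCompact K → ∀ η > 0, ∀ ε > 0, ∀ᶠ j in F, ∀ v : ℤ × ℤ, lat v / (R j : ℂ) ∈ K →
      v ∉ Z η j → ‖A j v‖ ≤ ε) : LZ R F Ω A := by
  intro K hK hKc ε hε
  have k := sum_of_off (A := A) hR hZ (s := fun _ => 1) (Eventually.of_forall fun _ => zero_le_one)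
    (fun K hK hKc => by
      obtain ⟨C, h⟩ := hC K hK hKc
      refine ⟨C, ?_⟩
      filter_upwards [h] with j hj v hv
      rw [mul_one]; exact hj v hv) (fun K hK hKc η hη ε hε => by
      filter_upwards [ho K hK hKc η hη ε hε] with j hj v hv hv'
      rw [mul_one]; exact hj v hv hv') K hK hKc ε hε
  filter_upwards [k] with j h1 S hS
  refine (h1 S hS).trans (le_of_eq (by ring))

/-- pointwise `O (1 / R)` -/
theorem LO_of_pt (hR : Tendsto R F atTop)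
    (hC : ∀ K ⊆ Ω, IsCompact K → ∃ C : ℝ, ∀ᶠ j in F, ∀ v : ℤ × ℤ, lat v / (R j : ℂ) ∈ K →
      ‖A j v‖ ≤ C / R j) : LO R F Ω A := by
  intro K hK hKc
  obtain ⟨C, h⟩ := hC K hK hKc
  obtain ⟨C3, hC3, hC3'⟩ := card_le_of_compact hKc
  refine ⟨C3 * |C|, ?_⟩
  filter_upwards [h, hR.eventually_ge_atTop 1] with j h1 h2 S hS
  have hr0 : 0 < R j := by linarith
  have k := hC3' (R j) h2 S hS
  refine (Finset.sum_le_card_nsmul _ _ (|C| / R j) fun v hv => (h1 v (hS v hv)).trans ?_).trans ?_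
  · gcongr; exact le_abs_self C
  · rw [nsmul_eq_mul]
    calc (S.card : ℝ) * (|C| / R j) ≤ (C3 * R j ^ 2) * (|C| / R j) := by gcongr
      _ = C3 * |C| * R j := by field_simp

/-- horizontal and vertical strips have small density: finitely many levels `t j k`, half width `η R` -/
theorem thin_strips (hR : Tendsto R F atTop) {n : ℕ} (t t' : ℕ → Fin n → ℝ) :
    Thin R F Ω fun η j => {v | ∃ k, |(v.1 : ℝ) - t j k| ≤ η * R j ∨ |(v.2 : ℝ) - t' j k| ≤ η * R j} := by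
  classical
  intro K hK hKc
  obtain ⟨m, hm⟩ := hKc.isBounded.exists_norm_le
  have hm' : ∀ z ∈ K, ‖z‖ ≤ |m| := fun z hz => (hm z hz).trans (le_abs_self m)
  refine ⟨n * (2 * (3 * (2 * |m| + 3))), fun η hη => ?_⟩
  filter_upwards [hR.eventually_ge_atTop 1, hR.eventually_ge_atTop (1 / η)] with j hj hj2 S hS
  have hr0 : 0 < R j := by linarith
  have hηR : 1 ≤ η * R j := by rw [div_le_iff₀ hη] at hj2; linarith
  set N : ℕ := ⌊|m| * R j⌋₊ + 1 with hN
  -- the intervals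
  set I : ℝ → Finset ℤ := fun s => Finset.Icc ⌈s - η * R j⌉ ⌊s + η * R j⌋ with hI
  have hIc : ∀ s : ℝ, ((I s).card : ℝ) ≤ 3 * (η * R j) := by
    intro s
    rw [hI, Int.card_Icc]
    have h1 : (((⌊s + η * R j⌋ + 1 - ⌈s - η * R j⌉).toNat : ℤ) : ℝ) ≤ 3 * (η * R j) := by
      rw [Int.toNat_eq_max]
      push_cast
      refine max_le ?_ (by positivity)
      have h2 := Int.floor_le (s + η * R j)
      have h3 := Int.le_ceil (s - η * R j)
      linarith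
    exact_mod_cast h1
  have hJ : ((Finset.Icc (-(N : ℤ)) N).card : ℝ) ≤ (2 * |m| + 3) * R j := by
    rw [Int.card_Icc]
    have h0 : ((N : ℤ) + 1 - -(N : ℤ)).toNat = 2 * N + 1 := by omega
    rw [h0]
    have h9 : (N : ℝ) ≤ |m| * R j + 1 := by
      rw [hN]; push_cast
      have := Nat.floor_le (show 0 ≤ |m| * R j by positivity)
      linarith
    push_cast
    nlinarith [abs_nonneg m]
  have hsub : S ⊆ Finset.univ.biUnion fun k : Fin n =>
      (I (t j k) ×ˢ Finset.Icc (-(N : ℤ)) N) ∪ (Finset.Icc (-(N : ℤ)) N ×ˢ I (t' j k)) := by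
    intro v hv
    obtain ⟨hv1, k, hv2⟩ := hS v hv
    have h1 := hm' _ hv1
    rw [norm_div, Complex.norm_real, Real.norm_of_nonneg hr0.le, div_le_iff₀ hr0] at h1
    have h2 := (Complex.abs_re_le_norm (lat v)).trans h1
    have h3 := (Complex.abs_im_le_norm (lat v)).trans h1
    have e1 : (lat v).re = (v.1 : ℝ) := rfl
    have e2 : (lat v).im = (v.2 : ℝ) := rfl
    rw [e1] at h2
    rw [e2] at h3
    have h4 := Nat.lt_floor_add_one (|m| * R j)
    have h5 : |(v.1 : ℝ)| < N := by rw [hN]; push_cast; linarith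
    have h6 : |(v.2 : ℝ)| < N := by rw [hN]; push_cast; linarith
    have h7 : |v.1| < (N : ℤ) := by exact_mod_cast h5
    have h8 : |v.2| < (N : ℤ) := by exact_mod_cast h6
    rw [abs_lt] at h7 h8
    rw [Finset.mem_biUnion]
    refine ⟨k, Finset.mem_univ _, ?_⟩
    simp only [Finset.mem_union, Finset.mem_product, Finset.mem_Icc, hI, Int.ceil_le, Int.le_floor]
    rcases hv2 with hv2 | hv2
    · left
      rw [abs_le] at hv2
      refine ⟨⟨by linarith, by linarith⟩, by omega⟩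
    · right
      rw [abs_le] at hv2
      refine ⟨by omega, ⟨by linarith, by linarith⟩⟩
  have hb : ∀ k : Fin n, (((I (t j k) ×ˢ Finset.Icc (-(N : ℤ)) N) ∪
      (Finset.Icc (-(N : ℤ)) N ×ˢ I (t' j k))).card : ℝ) ≤ 2 * (3 * (2 * |m| + 3)) * η * R j ^ 2 := by
    intro k
    calc _ ≤ (((I (t j k) ×ˢ Finset.Icc (-(N : ℤ)) N).card : ℝ) +
        ((Finset.Icc (-(N : ℤ)) N ×ˢ I (t' j k)).card : ℝ)) := by exact_mod_cast Finset.card_union_le _ _
      _ = (I (t j k)).card * (Finset.Icc (-(N : ℤ)) N).card +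
        (Finset.Icc (-(N : ℤ)) N).card * (I (t' j k)).card := by
          rw [Finset.card_product, Finset.card_product]; push_cast; ring
      _ ≤ (3 * (η * R j)) * ((2 * |m| + 3) * R j) + ((2 * |m| + 3) * R j) * (3 * (η * R j)) := by
          gcongr
          · exact hIc _
          · exact hIc _
      _ = 2 * (3 * (2 * |m| + 3)) * η * R j ^ 2 := by ring
  calc (S.card : ℝ) ≤ (((Finset.univ.biUnion fun k : Fin n =>
      (I (t j k) ×ˢ Finset.Icc (-(N : ℤ)) N) ∪ (Finset.Icc (-(N : ℤ)) N ×ˢ I (t' j k))).card : ℕ) : ℝ) := by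
        exact_mod_cast Finset.card_le_card hsub
    _ ≤ ∑ k : Fin n, (((I (t j k) ×ˢ Finset.Icc (-(N : ℤ)) N) ∪
      (Finset.Icc (-(N : ℤ)) N ×ˢ I (t' j k))).card : ℝ) := by exact_mod_cast Finset.card_biUnion_le
    _ ≤ ∑ _k : Fin n, 2 * (3 * (2 * |m| + 3)) * η * R j ^ 2 := Finset.sum_le_sum fun k _ => hb k
    _ = n * (2 * (3 * (2 * |m| + 3))) * η * R j ^ 2 := by
        rw [Finset.sum_const, Finset.card_univ, Fintype.card_fin, nsmul_eq_mul]; ring

end Pool.Agent.H44.W
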