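import Mathlib
import Pool.Agent.H44.W.CloseLA

set_option autoImplicit false
open Filter Topology Set

/-! # The relation of the responses after averaging over boxes -/

namespace Pool.Agent.H44.W

open Pool.Agent.Q1.M4 (lat)
open Pool.Agent.Q1.M6f.Glue (uu rr)
open Pool.Agent.H44.FM.WG (Sh shift_mem' lat_sub')
open G4

variable {R : ℕ → ℝ} {F : Filter ℕ} {Ω : Set ℂ} {A B C D : ℕ → ℤ × ℤ → ℂ}

/-- **The relation of the responses.** -/
theorem Trk4.rel {κ : ℂ} (hR : Tendsto R F atTop) {V : ℕ → ℕ → ℤ × ℤ → ℂ} {e A B B' : ℕ → ℤ × ℤ → ℂ}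
    (h : Trk4 κ R F Ω V e A B B') : LA R F Ω (κ • (B - B')) A := by
  intro K hK hKc ε hε
  obtain ⟨c, hc, hcc⟩ := h.cc K hK hKc
  obtain ⟨C1, hC1⟩ := h.bB K hK hKc
  obtain ⟨C2, hC2⟩ := h.bB' K hK hKc
  obtain ⟨ρ2, hρ2, hab⟩ := h.ab K hK hKc
  set ε1 : ℝ := c * ε / (6 + |C1| + |C2|) with hε1
  have hden : 0 < 6 + |C1| + |C2| := by positivity
  have hε1p : 0 < ε1 := by positivity
  obtain ⟨ρ3, hρ3, hcc⟩ := hcc ε1 hε1p
  set ρ : ℝ := min ρ2 ρ3 / 2 with hρ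
  have hm : 0 < min ρ2 ρ3 := lt_min hρ2 hρ3
  have hρ0 : 0 < ρ := by rw [hρ]; positivity
  have hρm : ρ < min ρ2 ρ3 := by rw [hρ]; linarith
  have l2 : ρ < ρ2 := hρm.trans_le (min_le_left _ _)
  have l3 : ρ < ρ3 := hρm.trans_le (min_le_right _ _)
  filter_upwards [h.ee K hK hKc (ε1 * ρ) (by positivity), hab ρ hρ0 l2 (ε1 * ρ) (by positivity),
    hcc ρ hρ0 l3, hC1, hC2, hR.eventually_gt_atTop 0, hR.eventually_gt_atTop (2 / ρ)] with
    j h3 h4 h5 h8 h9 h6 h7 S hS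
  set n : ℕ := ⌊ρ * R j⌋₊ with hn
  have hρR : 2 < ρ * R j := by rw [div_lt_iff₀ hρ0] at h7; linarith
  have hnlt := Nat.lt_floor_add_one (ρ * R j)
  rw [← hn] at hnlt
  have hn2 : ρ * R j / 2 ≤ n := by linarith
  obtain ⟨g0, gp, gm, c0, c1, c2, h5⟩ := h5
  have k1 := h4 S hS
  have k2 := h3 S hS
  have k3 := h5 S hS
  have b1 := h8 S hS
  have b2 := h9 S hS
  set T : ℤ × ℤ → ℂ := fun v => g0 * A j v + gp * B j v + gm * B' j v with hT
  have k4 : (n : ℝ) * ∑ v ∈ S, ‖T v‖ ≤ 3 * ε1 * ρ * R j ^ 2 := by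
    rw [Finset.mul_sum]
    calc ∑ v ∈ S, (n : ℝ) * ‖T v‖ ≤ ∑ v ∈ S, (‖V j n v‖ + ‖e j v‖ + ‖V j n v - e j v - (n : ℂ) * T v‖) := by
          refine Finset.sum_le_sum fun v _ => ?_
          have e0 : (n : ℂ) * T v = V j n v - e j v - (V j n v - e j v - (n : ℂ) * T v) := by ring
          calc (n : ℝ) * ‖T v‖ = ‖(n : ℂ) * T v‖ := by rw [norm_mul, Complex.norm_natCast]
            _ = ‖V j n v - e j v - (V j n v - e j v - (n : ℂ) * T v)‖ := by rw [← e0]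
            _ ≤ ‖V j n v - e j v‖ + ‖V j n v - e j v - (n : ℂ) * T v‖ := norm_sub_le _ _
            _ ≤ _ := by gcongr; exact norm_sub_le _ _
      _ = ∑ v ∈ S, ‖V j n v‖ + ∑ v ∈ S, ‖e j v‖ + ∑ v ∈ S, ‖V j n v - e j v - (n : ℂ) * T v‖ := by
          rw [Finset.sum_add_distrib, Finset.sum_add_distrib]
      _ ≤ 3 * ε1 * ρ * R j ^ 2 := by linarith
  have hT0 : 0 ≤ ∑ v ∈ S, ‖T v‖ := Finset.sum_nonneg fun _ _ => norm_nonneg _
  have k5 : ∑ v ∈ S, ‖T v‖ ≤ 6 * ε1 * R j := by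
    have h10 : ρ * R j / 2 * ∑ v ∈ S, ‖T v‖ ≤ 3 * ε1 * ρ * R j ^ 2 :=
      (mul_le_mul_of_nonneg_right hn2 hT0).trans k4
    have h11 : (ρ * R j) * ∑ v ∈ S, ‖T v‖ ≤ (ρ * R j) * (6 * ε1 * R j) := by nlinarith
    exact le_of_mul_le_mul_left h11 (by positivity)
  have k6 : c * ∑ v ∈ S, ‖A j v - (κ • (B - B')) j v‖ ≤ (6 + |C1| + |C2|) * ε1 * R j := by
    calc c * ∑ v ∈ S, ‖A j v - (κ • (B - B')) j v‖ ≤
        ∑ v ∈ S, (‖T v‖ + ε1 * ‖B j v‖ + ε1 * ‖B' j v‖) := by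
          rw [Finset.mul_sum]
          refine Finset.sum_le_sum fun v _ => ?_
          have e1 : A j v - (κ • (B - B')) j v = A j v - κ * (B j v - B' j v) := by
            simp only [Pi.smul_apply, Pi.sub_apply, smul_eq_mul]
          have e2 : g0 * (A j v - κ * (B j v - B' j v)) = T v - (gp + κ * g0) * B j v -
              (gm - κ * g0) * B' j v := by
            rw [hT]; ring
          calc c * ‖A j v - (κ • (B - B')) j v‖ ≤ ‖g0‖ * ‖A j v - (κ • (B - B')) j v‖ := by gcongr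
            _ = ‖T v - (gp + κ * g0) * B j v - (gm - κ * g0) * B' j v‖ := by
                rw [← norm_mul, e1, e2]
            _ ≤ ‖T v - (gp + κ * g0) * B j v‖ + ‖(gm - κ * g0) * B' j v‖ := norm_sub_le _ _
            _ ≤ ‖T v‖ + ‖(gp + κ * g0) * B j v‖ + ‖(gm - κ * g0) * B' j v‖ := by
                gcongr; exact norm_sub_le _ _
            _ ≤ ‖T v‖ + ε1 * ‖B j v‖ + ε1 * ‖B' j v‖ := by
                rw [norm_mul, norm_mul]; gcongr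
      _ = ∑ v ∈ S, ‖T v‖ + ε1 * ∑ v ∈ S, ‖B j v‖ + ε1 * ∑ v ∈ S, ‖B' j v‖ := by
          rw [Finset.sum_add_distrib, Finset.sum_add_distrib, Finset.mul_sum, Finset.mul_sum]
      _ ≤ 6 * ε1 * R j + ε1 * (|C1| * R j) + ε1 * (|C2| * R j) := by
          have a1 : ∑ v ∈ S, ‖B j v‖ ≤ |C1| * R j := b1.trans (by gcongr; exact le_abs_self _)
          have a2 : ∑ v ∈ S, ‖B' j v‖ ≤ |C2| * R j := b2.trans (by gcongr; exact le_abs_self _)
          gcongr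
      _ = (6 + |C1| + |C2|) * ε1 * R j := by ring
  have k7 : (6 + |C1| + |C2|) * ε1 = c * ε := by rw [hε1]; field_simp
  rw [k7, mul_assoc] at k6
  exact le_of_mul_le_mul_left k6 hc

/-! ### Pointwise agreement on a set -/

/-- every `z ∈ Ω'` has its `3 δ`-ball in `K` -/
def Inn (δ : ℝ) (K Ω' : Set ℂ) : Prop := ∀ z ∈ Ω', ∀ w, ‖w - z‖ ≤ 3 * δ → w ∈ K

/-- pointwise agreement up to `o (1 / R)` -/
def PA (R : ℕ → ℝ) (F : Filter ℕ) (Ω : Set ℂ) (A B : ℕ → ℤ × ℤ → ℂ) : Prop :=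
  ∀ ε > 0, ∀ᶠ j in F, ∀ v : ℤ × ℤ, lat v / (R j : ℂ) ∈ Ω → ‖B j v - A j v‖ ≤ ε / R j

/-- pointwise `o (1)` -/
def PZ (R : ℕ → ℝ) (F : Filter ℕ) (Ω : Set ℂ) (A : ℕ → ℤ × ℤ → ℂ) : Prop :=
  ∀ ε > 0, ∀ᶠ j in F, ∀ v : ℤ × ℤ, lat v / (R j : ℂ) ∈ Ω → ‖A j v‖ ≤ ε

lemma PA.symm (h : PA R F Ω A B) : PA R F Ω B A := by
  intro ε hε
  filter_upwards [h ε hε] with j hj v hv
  rw [norm_sub_rev]; exact hj v hv

lemma PA.refl (hR : Tendsto R F atTop) (A : ℕ → ℤ × ℤ → ℂ) : PA R F Ω A A := by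
  intro ε hε
  filter_upwards [hR.eventually_ge_atTop 0] with j hj v hv
  simp only [sub_self, norm_zero]
  positivity

lemma PA.of_le2 {A' B' : ℕ → ℤ × ℤ → ℂ} (h1 : PA R F Ω A B) (h2 : PA R F Ω C D)
    (hle : ∀ j v, ‖B' j v - A' j v‖ ≤ ‖B j v - A j v‖ + ‖D j v - C j v‖) : PA R F Ω A' B' := by
  intro ε hε
  filter_upwards [h1 (ε / 2) (by positivity), h2 (ε / 2) (by positivity)] with j a b v hv
  have : ε / R j = ε / 2 / R j + ε / 2 / R j := by ring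
  linarith [a v hv, b v hv, hle j v]

lemma PA.trans (h1 : PA R F Ω A B) (h2 : PA R F Ω B C) : PA R F Ω A C :=
  PA.of_le2 h1 h2 fun j v => by
    have e : C j v - A j v = (B j v - A j v) + (C j v - B j v) := by ring
    rw [e]; exact norm_add_le _ _

lemma PA.add (h1 : PA R F Ω A B) (h2 : PA R F Ω C D) : PA R F Ω (A + C) (B + D) :=
  PA.of_le2 h1 h2 fun j v => by
    have e : (B + D) j v - (A + C) j v = (B j v - A j v) + (D j v - C j v) := by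
      simp only [Pi.add_apply]; ring
    rw [e]; exact norm_add_le _ _

lemma PA.sub (h1 : PA R F Ω A B) (h2 : PA R F Ω C D) : PA R F Ω (A - C) (B - D) :=
  PA.of_le2 h1 h2 fun j v => by
    have e : (B - D) j v - (A - C) j v = (B j v - A j v) - (D j v - C j v) := by
      simp only [Pi.sub_apply]; ring
    rw [e]; exact norm_sub_le _ _

lemma PA.smul (c : ℂ) (h1 : PA R F Ω A B) : PA R F Ω (c • A) (c • B) := by
  intro ε hε
  filter_upwards [h1 (ε / (‖c‖ + 1)) (by positivity)] with j a v hv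
  have e : (c • B) j v - (c • A) j v = c * (B j v - A j v) := by
    simp only [Pi.smul_apply, smul_eq_mul]; ring
  rw [e, norm_mul]
  have k := a v hv
  have h0 : 0 ≤ ε / (‖c‖ + 1) / R j := (norm_nonneg _).trans k
  have h2 : ‖c‖ * ‖B j v - A j v‖ ≤ (‖c‖ + 1) * (ε / (‖c‖ + 1) / R j) :=
    mul_le_mul (by linarith) k (norm_nonneg _) (by positivity)
  refine h2.trans (le_of_eq ?_)
  field_simp

lemma PZ.add (hA : PZ R F Ω A) (hB : PZ R F Ω B) : PZ R F Ω (A + B) := by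
  intro ε hε
  filter_upwards [hA (ε / 2) (by positivity), hB (ε / 2) (by positivity)] with j a b v hv
  have := norm_add_le (A j v) (B j v)
  have e : (A + B) j v = A j v + B j v := rfl
  rw [e]
  linarith [a v hv, b v hv]

lemma PZ.smul (c : ℂ) (hA : PZ R F Ω A) : PZ R F Ω (c • A) := by
  intro ε hε
  filter_upwards [hA (ε / (‖c‖ + 1)) (by positivity)] with j a v hv
  have e : (c • A) j v = c * A j v := rfl
  rw [e, norm_mul]
  have k := a v hv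
  calc ‖c‖ * ‖A j v‖ ≤ (‖c‖ + 1) * (ε / (‖c‖ + 1)) := by gcongr; linarith
    _ = ε := by field_simp

/-! ### From the mean to points -/

/-- the side of the box -/
noncomputable def sd (R : ℕ → ℝ) (δ : ℝ) (j : ℕ) : ℕ := ⌊δ * R j⌋₊

section

variable {K2 Ω1 : Set ℂ} {δ : ℝ}

/-- large sides -/
lemma sd_ev (hR : Tendsto R F atTop) (hδ : 0 < δ) : ∀ᶠ j in F, 0 < R j ∧ 1 ≤ sd R δ j ∧
    (δ * R j) / 2 ≤ sd R δ j ∧ (sd R δ j : ℝ) ≤ δ * R j ∧ 1 ≤ δ * R j := by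
  filter_upwards [hR.eventually_gt_atTop 0, hR.eventually_gt_atTop (2 / δ)] with j h1 h2
  have h3 : 2 < δ * R j := by rw [div_lt_iff₀ hδ] at h2; linarith
  have h4 := Nat.lt_floor_add_one (δ * R j)
  have h5 := Nat.floor_le (show 0 ≤ δ * R j by linarith)
  refine ⟨h1, ?_, ?_, h5, by linarith⟩
  · unfold sd
    rw [Nat.one_le_floor_iff]; linarith
  · unfold sd
    linarith

/-- the points of the box (and of its neighbours) lie in the bigger set -/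
lemma Inn.mem {j : ℕ} (hI : Inn δ K2 Ω1) (hr : 0 < R j) (hm : (sd R δ j : ℝ) ≤ δ * R j) (h1 : 1 ≤ δ * R j)
    {v w : ℤ × ℤ} (hv : lat v / (R j : ℂ) ∈ Ω1) (hw1 : v.1 - 1 ≤ w.1) (hw2 : w.1 < v.1 + sd R δ j)
    (hw3 : v.2 - 1 ≤ w.2) (hw4 : w.2 < v.2 + sd R δ j) : lat w / (R j : ℂ) ∈ K2 := by
  refine hI _ hv _ ?_
  rw [← sub_div, norm_div, Complex.norm_real, Real.norm_of_nonneg hr.le, div_le_iff₀ hr, ← lat_sub']
  refine (Pool.Agent.H44.FM.WG.norm_lat_le _).trans ?_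
  have a1 : |((w - v).1 : ℝ)| ≤ δ * R j := by
    have : |(w - v).1| ≤ max (sd R δ j : ℤ) 1 := by rw [abs_le]; simp only [Prod.fst_sub]; omega
    have h2 : (|(w - v).1| : ℝ) ≤ max (sd R δ j : ℝ) 1 := by exact_mod_cast this
    exact h2.trans (max_le hm h1)
  have a2 : |((w - v).2 : ℝ)| ≤ δ * R j := by
    have : |(w - v).2| ≤ max (sd R δ j : ℤ) 1 := by rw [abs_le]; simp only [Prod.snd_sub]; omega
    have h2 : (|(w - v).2| : ℝ) ≤ max (sd R δ j : ℝ) 1 := by exact_mod_cast this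
    exact h2.trans (max_le hm h1)
  linarith

lemma Inn.mem_bx {j : ℕ} (hI : Inn δ K2 Ω1) (hr : 0 < R j) (hm : (sd R δ j : ℝ) ≤ δ * R j) (h1 : 1 ≤ δ * R j)
    {v w : ℤ × ℤ} (hv : lat v / (R j : ℂ) ∈ Ω1) (hw : w ∈ bx (sd R δ j) v) : lat w / (R j : ℂ) ∈ K2 := by
  rw [W.mem_bx] at hw
  exact hI.mem hr hm h1 hv (by omega) (by omega) (by omega) (by omega)

theorem LA.av1 (hR : Tendsto R F atTop) (hδ : 0 < δ) (hK2 : K2 ⊆ Ω) (hK2c : IsCompact K2)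
    (hI : Inn δ K2 Ω1) (h : LA R F Ω A B) : PA R F Ω1 (AV (sd R δ) A) (AV (sd R δ) B) := by
  intro ε hε
  filter_upwards [h K2 hK2 hK2c (ε * δ ^ 2 / 4) (by positivity), sd_ev hR hδ] with j h1 h2 v hv
  obtain ⟨hr, hm1, hm2, hm3, hm4⟩ := h2
  have e : AV (sd R δ) B j v - AV (sd R δ) A j v = av (sd R δ j) (B j - A j) v := by
    rw [av_sub]; rfl
  rw [e]
  refine (norm_av_le _ _ _).trans ?_
  have k := h1 (bx (sd R δ j) v) fun w hw => hI.mem_bx hr hm3 hm4 hv hw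
  have hmr : (0 : ℝ) < sd R δ j := by exact_mod_cast hm1
  have h5 : (δ * R j / 2) * (δ * R j / 2) ≤ (sd R δ j : ℝ) * sd R δ j := by gcongr
  calc 1 / ((sd R δ j : ℝ) * sd R δ j) * ∑ w ∈ bx (sd R δ j) v, ‖(B j - A j) w‖ ≤
      1 / ((δ * R j / 2) * (δ * R j / 2)) * (ε * δ ^ 2 / 4 * R j) := by
        refine mul_le_mul (one_div_le_one_div_of_le (by positivity) h5) k ?_ (by positivity)
        exact Finset.sum_nonneg fun _ _ => norm_nonneg _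
    _ = ε / R j := by field_simp; ring

theorem LZ.av1 (hR : Tendsto R F atTop) (hδ : 0 < δ) (hK2 : K2 ⊆ Ω) (hK2c : IsCompact K2)
    (hI : Inn δ K2 Ω1) (h : LZ R F Ω A) : PZ R F Ω1 (AV (sd R δ) A) := by
  intro ε hε
  filter_upwards [h K2 hK2 hK2c (ε * δ ^ 2 / 4) (by positivity), sd_ev hR hδ] with j h1 h2 v hv
  obtain ⟨hr, hm1, hm2, hm3, hm4⟩ := h2
  refine (norm_av_le _ _ _).trans ?_
  have k := h1 (bx (sd R δ j) v) fun w hw => hI.mem_bx hr hm3 hm4 hv hw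
  have hmr : (0 : ℝ) < sd R δ j := by exact_mod_cast hm1
  have h5 : (δ * R j / 2) * (δ * R j / 2) ≤ (sd R δ j : ℝ) * sd R δ j := by gcongr
  calc 1 / ((sd R δ j : ℝ) * sd R δ j) * ∑ w ∈ bx (sd R δ j) v, ‖A j w‖ ≤
      1 / ((δ * R j / 2) * (δ * R j / 2)) * (ε * δ ^ 2 / 4 * R j ^ 2) := by
        refine mul_le_mul (one_div_le_one_div_of_le (by positivity) h5) k ?_ (by positivity)
        exact Finset.sum_nonneg fun _ _ => norm_nonneg _
    _ = ε := by field_simp; ring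

theorem PA.av (hR : Tendsto R F atTop) (hδ : 0 < δ) (hI : Inn δ K2 Ω1) (h : PA R F K2 A B) :
    PA R F Ω1 (AV (sd R δ) A) (AV (sd R δ) B) := by
  intro ε hε
  filter_upwards [h ε hε, sd_ev hR hδ] with j h1 h2 v hv
  obtain ⟨hr, hm1, hm2, hm3, hm4⟩ := h2
  have e : AV (sd R δ) B j v - AV (sd R δ) A j v = W.av (sd R δ j) (B j - A j) v := by
    rw [av_sub]; rfl
  rw [e]
  exact norm_av_le_of (by positivity) fun w hw => h1 w (hI.mem_bx hr hm3 hm4 hv hw)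

theorem PZ.av (hR : Tendsto R F atTop) (hδ : 0 < δ) (hI : Inn δ K2 Ω1) (h : PZ R F K2 A) :
    PZ R F Ω1 (AV (sd R δ) A) := by
  intro ε hε
  filter_upwards [h ε hε, sd_ev hR hδ] with j h1 h2 v hv
  obtain ⟨hr, hm1, hm2, hm3, hm4⟩ := h2
  exact norm_av_le_of hε.le fun w hw => h1 w (hI.mem_bx hr hm3 hm4 hv hw)

/-- averages of a small function at neighbours -/
theorem PZ.shift (hR : Tendsto R F atTop) (hδ : 0 < δ) (hI : Inn δ K2 Ω1) (h : PZ R F K2 A) {d : ℤ × ℤ}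
    (hd : d = uu ∨ d = rr) : PA R F Ω1 (AV (sd R δ) A) (Sh d (AV (sd R δ) A)) := by
  intro ε hε
  filter_upwards [h (ε * δ / 4) (by positivity), sd_ev hR hδ] with j h1 h2 v hv
  obtain ⟨hr, hm1, hm2, hm3, hm4⟩ := h2
  have hmr : (0 : ℝ) < sd R δ j := by exact_mod_cast hm1
  have fin : 2 * (ε * δ / 4) / (sd R δ j : ℝ) ≤ ε / R j := by
    rw [div_le_div_iff₀ hmr hr]
    nlinarith
  rw [norm_sub_rev]
  rcases hd with rfl | rfl
  · exact (av_uu_le hm1 (by positivity) fun w a1 a2 a3 a4 => h1 w (hI.mem hr hm3 hm4 hv (by omega) a2 a3 a4)).trans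
      fin
  · exact (av_rr_le hm1 (by positivity) fun w a1 a2 a3 a4 => h1 w (hI.mem hr hm3 hm4 hv a1 a2 (by omega) a4)).trans
      fin

/-- averages of a bounded function at neighbours -/
theorem bdd_shift (hR : Tendsto R F atTop) (hδ : 0 < δ) (hI : Inn δ K2 Ω1) {M : ℝ}
    (h : ∀ᶠ j in F, ∀ v : ℤ × ℤ, lat v / (R j : ℂ) ∈ K2 → ‖A j v‖ ≤ M) {d : ℤ × ℤ}
    (hd : d = uu ∨ d = rr) : PZ R F Ω1 (AV (sd R δ) A - Sh d (AV (sd R δ) A)) := by
  intro ε hε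
  filter_upwards [h, sd_ev hR hδ, hR.eventually_gt_atTop (4 * |M| / (ε * δ))] with j h1 h2 h3 v hv
  obtain ⟨hr, hm1, hm2, hm3, hm4⟩ := h2
  have hmr : (0 : ℝ) < sd R δ j := by exact_mod_cast hm1
  have fin : 2 * |M| / (sd R δ j : ℝ) ≤ ε := by
    rw [div_le_iff₀ hmr]
    rw [div_lt_iff₀ (by positivity)] at h3
    nlinarith
  have h1' : ∀ w : ℤ × ℤ, lat w / (R j : ℂ) ∈ K2 → ‖A j w‖ ≤ |M| := fun w hw => (h1 w hw).trans (le_abs_self _)
  rcases hd with rfl | rfl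
  · exact (av_uu_le hm1 (abs_nonneg _) fun w a1 a2 a3 a4 =>
      h1' w (hI.mem hr hm3 hm4 hv (by omega) a2 a3 a4)).trans fin
  · exact (av_rr_le hm1 (abs_nonneg _) fun w a1 a2 a3 a4 =>
      h1' w (hI.mem hr hm3 hm4 hv a1 a2 (by omega) a4)).trans fin

theorem bdd_av (hR : Tendsto R F atTop) (hδ : 0 < δ) (hI : Inn δ K2 Ω1) {M : ℝ} (hM : 0 ≤ M)
    (h : ∀ᶠ j in F, ∀ v : ℤ × ℤ, lat v / (R j : ℂ) ∈ K2 → ‖A j v‖ ≤ M) :
    ∀ᶠ j in F, ∀ v : ℤ × ℤ, lat v / (R j : ℂ) ∈ Ω1 → ‖AV (sd R δ) A j v‖ ≤ M := by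
  filter_upwards [h, sd_ev hR hδ] with j h1 h2 v hv
  obtain ⟨hr, hm1, hm2, hm3, hm4⟩ := h2
  exact norm_av_le_of hM fun w hw => h1 w (hI.mem_bx hr hm3 hm4 hv hw)

end

end Pool.Agent.H44.W
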