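import Mathlib
import Pool.Agent.H44.W.CloseRel

set_option autoImplicit false
open Filter Topology Set

/-! # The discrete Cauchy-Riemann relation of the averages -/

namespace Pool.Agent.H44.W

open Pool.Agent.Q1.M4 (lat)
open Pool.Agent.Q1.M6f.Glue (uu rr)
open Pool.Agent.H44.FM.WG (Sh sh_add sh_sub sh_smul)
open G4

variable {R : ℕ → ℝ} {F : Filter ℕ} {Ω : Set ℂ} {A B C D : ℕ → ℤ × ℤ → ℂ}

/-- double average -/
noncomputable def A2 (R : ℕ → ℝ) (δ : ℝ) (A : ℕ → ℤ × ℤ → ℂ) : ℕ → ℤ × ℤ → ℂ :=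
  AV (sd R δ) (AV (sd R δ) A)

lemma A2_add (δ : ℝ) : A2 R δ (A + B) = A2 R δ A + A2 R δ B := by
  unfold A2; rw [AV_add, AV_add]
lemma A2_sub (δ : ℝ) : A2 R δ (A - B) = A2 R δ A - A2 R δ B := by
  unfold A2; rw [AV_sub, AV_sub]
lemma A2_smul (δ : ℝ) (c : ℂ) : A2 R δ (c • A) = c • A2 R δ A := by
  unfold A2; rw [AV_smul, AV_smul]
lemma A2_sh (δ : ℝ) (d : ℤ × ℤ) : A2 R δ (Sh d A) = Sh d (A2 R δ A) := by
  unfold A2; rw [AV_sh, AV_sh]

/-- the sets -/
structure Nst (δ : ℝ) (Ω K0 Ω1 Ω2 : Set ℂ) : Prop where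
  sub : K0 ⊆ Ω
  cpt : IsCompact K0
  i1 : Inn δ K0 Ω1
  i2 : Inn δ Ω1 Ω2

variable {δ : ℝ} {K0 Ω1 Ω2 : Set ℂ}

/-- agreement of the double averages -/
def Q2 (R : ℕ → ℝ) (F : Filter ℕ) (δ : ℝ) (Ω2 : Set ℂ) (A B : ℕ → ℤ × ℤ → ℂ) : Prop :=
  PA R F Ω2 (A2 R δ A) (A2 R δ B)

lemma LA.q (hR : Tendsto R F atTop) (hδ : 0 < δ) (hN : Nst δ Ω K0 Ω1 Ω2) (h : LA R F Ω A B) :
    Q2 R F δ Ω2 A B := (h.av1 hR hδ hN.sub hN.cpt hN.i1).av hR hδ hN.i2

lemma LZ.q (hR : Tendsto R F atTop) (hδ : 0 < δ) (hN : Nst δ Ω K0 Ω1 Ω2) (h : LZ R F Ω A) {d : ℤ × ℤ}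
    (hd : d = uu ∨ d = rr) : Q2 R F δ Ω2 A (Sh d A) := by
  unfold Q2
  rw [A2_sh]
  exact (h.av1 hR hδ hN.sub hN.cpt hN.i1).shift hR hδ hN.i2 hd

lemma LZ.z (hR : Tendsto R F atTop) (hδ : 0 < δ) (hN : Nst δ Ω K0 Ω1 Ω2) (h : LZ R F Ω A) :
    PZ R F Ω2 (A2 R δ A) := (h.av1 hR hδ hN.sub hN.cpt hN.i1).av hR hδ hN.i2

lemma Bdd.z (hR : Tendsto R F atTop) (hδ : 0 < δ) (hN : Nst δ Ω K0 Ω1 Ω2) {M : ℝ} (hM : 0 ≤ M)
    (h : Bdd R F Ω M A) {d : ℤ × ℤ} (hd : d = uu ∨ d = rr) : PZ R F Ω2 (A2 R δ (A - Sh d A)) := by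
  rw [A2_sub, A2_sh]
  exact bdd_shift hR hδ hN.i2 (bdd_av hR hδ hN.i1 hM (h K0 hN.sub hN.cpt)) hd

namespace Q2

lemma symm (h : Q2 R F δ Ω2 A B) : Q2 R F δ Ω2 B A := PA.symm h
lemma refl (hR : Tendsto R F atTop) (A : ℕ → ℤ × ℤ → ℂ) : Q2 R F δ Ω2 A A := PA.refl hR _
lemma trans (h : Q2 R F δ Ω2 A B) (h' : Q2 R F δ Ω2 B C) : Q2 R F δ Ω2 A C := PA.trans h h'
lemma add (h : Q2 R F δ Ω2 A B) (h' : Q2 R F δ Ω2 C D) : Q2 R F δ Ω2 (A + C) (B + D) := by
  unfold Q2; rw [A2_add, A2_add]; exact PA.add h h'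
lemma sub (h : Q2 R F δ Ω2 A B) (h' : Q2 R F δ Ω2 C D) : Q2 R F δ Ω2 (A - C) (B - D) := by
  unfold Q2; rw [A2_sub, A2_sub]; exact PA.sub h h'
lemma smul (c : ℂ) (h : Q2 R F δ Ω2 A B) : Q2 R F δ Ω2 (c • A) (c • B) := by
  unfold Q2; rw [A2_smul, A2_smul]; exact PA.smul c h

end Q2

variable {M : ℝ} {h : Bool → Finset G4 → ℕ → ℤ × ℤ → ℂ}

/-- the mixed difference, the other way -/
lemma Nat4.mix' (hR : Tendsto R F atTop) (H : Nat4 R F Ω M h) (p : Bool) {a g : G4}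
    (ha : a ∈ ({fo, ce} : Finset G4)) (hg : g ∈ ({le, ri} : Finset G4)) :
    LA R F Ω (X4 h p a) (h p {a, g} - h p {g}) := by
  have h1 := (H.mix p a ha g hg).add (LA.refl hR (X4 h p a - X4 h p g))
  have e1 : X4 h p g + (X4 h p a - X4 h p g) = X4 h p a := by abel
  have e2 : h p {a, g} - h p {a} + (X4 h p a - X4 h p g) = h p {a, g} - h p {g} := by
    unfold X4; abel
  rw [e1, e2] at h1
  exact h1

/-- the responses of the vertical walls are the same in the two worlds -/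
theorem Nat4.xv (hR : Tendsto R F atTop) (hΩ : IsOpen Ω) (hδ : 0 < δ) (hN : Nst δ Ω K0 Ω1 Ω2)
    (H : Nat4 R F Ω M h) (p : Bool) {g : G4} (hg : g ∈ ({le, ri} : Finset G4)) :
    Q2 R F δ Ω2 (X4 h p g) (X4 h (!p) g) := by
  have h1 := (H.xb p g).q hR hδ hN (d := uu) (Or.inl rfl)
  have h2 : LA R F Ω (Sh uu (X4 h p g)) (Sh uu (h p {fo, g} - h p {fo})) :=
    (H.mix p fo (by simp) g hg).sh hR hΩ uu
  have h3 : LA R F Ω (Sh uu (h p {fo, g} - h p {fo})) (h (!p) {ce, g} - h (!p) {ce}) := by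
    rw [sh_sub]; exact (H.s1' p g hg).sub (H.s1 p)
  exact h1.trans (((h2.trans h3).trans (H.mix (!p) ce (by simp) g hg).symm).q hR hδ hN)

/-- the responses of the horizontal walls are the same in the two worlds -/
theorem Nat4.xh (hR : Tendsto R F atTop) (hΩ : IsOpen Ω) (hδ : 0 < δ) (hN : Nst δ Ω K0 Ω1 Ω2)
    (H : Nat4 R F Ω M h) (p : Bool) {a : G4} (ha : a ∈ ({fo, ce} : Finset G4)) :
    Q2 R F δ Ω2 (X4 h p a) (X4 h (!p) a) := by
  have h1 := (H.xb p a).q hR hδ hN (d := rr) (Or.inr rfl)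
  have h2 : LA R F Ω (Sh rr (X4 h p a)) (Sh rr (h p {a, le} - h p {le})) :=
    (H.mix' hR p ha (by simp)).sh hR hΩ rr
  have h3 : LA R F Ω (Sh rr (h p {a, le} - h p {le})) (h (!p) {a, ri} - h (!p) {ri}) := by
    rw [sh_sub]; exact (H.s2' p a ha).sub (H.s2 p)
  exact h1.trans (((h2.trans h3).trans (H.mix' hR (!p) ha (by simp)).symm).q hR hδ hN)

/-- **The relation of the responses** -/
def Rel4 (κ : ℂ) (R : ℕ → ℝ) (F : Filter ℕ) (Ω : Set ℂ) (h : Bool → Finset G4 → ℕ → ℤ × ℤ → ℂ) : Prop :=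
  LA R F Ω (κ • (X4 h false le - X4 h false ri)) (X4 h false fo - X4 h true ce)

/-- the relation in each world -/
theorem Nat4.relp {κ : ℂ} (hR : Tendsto R F atTop) (hΩ : IsOpen Ω) (hδ : 0 < δ) (hN : Nst δ Ω K0 Ω1 Ω2)
    (H : Nat4 R F Ω M h) (hr : Rel4 κ R F Ω h) (p : Bool) :
    Q2 R F δ Ω2 (κ • (h p {le} - h p {ri})) (h p {fo} - h p {ce}) := by
  have toV : ∀ g, g ∈ ({le, ri} : Finset G4) → ∀ q, Q2 R F δ Ω2 (X4 h p g) (X4 h q g) := by
    intro g hg q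
    rcases Bool.eq_or_eq_not q p with hq | hq
    · rw [hq]; exact Q2.refl hR _
    · rw [hq]; exact H.xv hR hΩ hδ hN p hg
  have toH : ∀ a, a ∈ ({fo, ce} : Finset G4) → ∀ q, Q2 R F δ Ω2 (X4 h p a) (X4 h q a) := by
    intro g hg q
    rcases Bool.eq_or_eq_not q p with hq | hq
    · rw [hq]; exact Q2.refl hR _
    · rw [hq]; exact H.xh hR hΩ hδ hN p hg
  have h1 : Q2 R F δ Ω2 (κ • (h p {le} - h p {ri})) (κ • (X4 h false le - X4 h false ri)) := by
    have k := ((toV le (by simp) false).sub (toV ri (by simp) false)).smul κ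
    have e : X4 h p le - X4 h p ri = h p {le} - h p {ri} := by unfold X4; abel
    rw [e] at k
    exact k
  have h2 : Q2 R F δ Ω2 (X4 h false fo - X4 h true ce) (h p {fo} - h p {ce}) := by
    have k := (toH fo (by simp) false).symm.sub (toH ce (by simp) true).symm
    have e : X4 h p fo - X4 h p ce = h p {fo} - h p {ce} := by unfold X4; abel
    rw [e] at k
    exact k
  exact h1.trans ((hr.q hR hδ hN).trans h2)

/-- **The discrete Cauchy-Riemann relation** for the sums over the two worlds. -/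
theorem Nat4.cr {κ : ℂ} (hR : Tendsto R F atTop) (hΩ : IsOpen Ω) (hδ : 0 < δ) (hN : Nst δ Ω K0 Ω1 Ω2)
    (H : Nat4 R F Ω M h) (hr : Rel4 κ R F Ω h) :
    Q2 R F δ Ω2 (κ • ((h false {le} + h true {le}) - Sh rr (h false {le} + h true {le})))
      ((h false {fo} + h true {fo}) - Sh uu (h false {fo} + h true {fo})) := by
  have h0 := (H.relp hR hΩ hδ hN hr false).add (H.relp hR hΩ hδ hN hr true)
  have hv := ((H.s1 true).add (H.s1 false)).q hR hδ hN
  have hh := ((H.s2 true).add (H.s2 false)).q hR hδ hN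
  simp only [Bool.not_true, Bool.not_false] at hv hh
  have l1 : Q2 R F δ Ω2 (κ • ((h false {le} + h true {le}) - Sh rr (h false {le} + h true {le})))
      (κ • (h false {le} - h false {ri}) + κ • (h true {le} - h true {ri})) := by
    have k := ((Q2.refl (F := F) (δ := δ) (Ω2 := Ω2) hR (h false {le} + h true {le})).sub hh).smul κ
    have e1 : κ • (h false {le} + h true {le} - (h false {ri} + h true {ri})) =
        κ • (h false {le} - h false {ri}) + κ • (h true {le} - h true {ri}) := by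
      rw [← smul_add]; congr 1; abel
    have e2 : Sh rr (h true {le}) + Sh rr (h false {le}) = Sh rr (h false {le} + h true {le}) := by
      rw [sh_add, add_comm]
    rw [e1, e2] at k
    exact k
  have r1 : Q2 R F δ Ω2 (h false {fo} - h false {ce} + (h true {fo} - h true {ce}))
      ((h false {fo} + h true {fo}) - Sh uu (h false {fo} + h true {fo})) := by
    have k := (Q2.refl (F := F) (δ := δ) (Ω2 := Ω2) hR (h false {fo} + h true {fo})).sub hv.symm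
    have e1 : h false {fo} + h true {fo} - (h false {ce} + h true {ce}) =
        h false {fo} - h false {ce} + (h true {fo} - h true {ce}) := by abel
    have e2 : Sh uu (h true {fo}) + Sh uu (h false {fo}) = Sh uu (h false {fo} + h true {fo}) := by
      rw [sh_add, add_comm]
    rw [e1, e2] at k
    exact k
  exact l1.trans (h0.trans r1)

/-- closeness of the two worlds -/
theorem Nat4.worlds (hR : Tendsto R F atTop) (hδ : 0 < δ) (hN : Nst δ Ω K0 Ω1 Ω2)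
    (hM : 0 ≤ M) (H : Nat4 R F Ω M h) : PZ R F Ω2 (A2 R δ (h true ∅ - h false ∅)) := by
  have k1 := ((H.xb true ce).z hR hδ hN).smul (-1)
  have k2 := ((H.s1 false).lz hR).z hR hδ hN
  have k3 := ((H.bdd false {fo}).z hR hδ hN hM (d := uu) (Or.inl rfl)).smul (-1)
  have k4 := (H.xb false fo).z hR hδ hN
  have k := ((k1.add k2).add k3).add k4
  rw [← A2_smul, ← A2_smul, ← A2_add, ← A2_add, ← A2_add] at k
  have e : (-1 : ℂ) • X4 h true ce + (h (!false) {ce} - Sh uu (h false {fo})) +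
      (-1 : ℂ) • (h false {fo} - Sh uu (h false {fo})) + X4 h false fo = h true ∅ - h false ∅ := by
    unfold X4
    simp only [Bool.not_false]
    module
  rw [e] at k
  exact k

/-- **Summary.** -/
theorem cr_av {κ : ℂ} (hR : Tendsto R F atTop) (hΩ : IsOpen Ω) (hδ : 0 < δ) (hN : Nst δ Ω K0 Ω1 Ω2)
    (hM : 0 ≤ M) (H : Nat4 R F Ω M h) (hr : Rel4 κ R F Ω h) : ∃ f1 f2 : ℕ → ℤ × ℤ → ℂ,
    PZ R F Ω2 (f1 - A2 R δ (h false ∅)) ∧ PZ R F Ω2 (f2 - A2 R δ (h false ∅)) ∧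
    PA R F Ω2 (κ • (f2 - Sh rr f2)) (f1 - Sh uu f1) := by
  have hw := H.worlds hR hδ hN hM
  have key : ∀ s : G4, PZ R F Ω2 (A2 R δ ((1 / 2 : ℂ) • (h false {s} + h true {s})) - A2 R δ (h false ∅)) := by
    intro s
    have k1 := ((H.xb false s).z hR hδ hN).add ((H.xb true s).z hR hδ hN)
    have k := (k1.add hw).smul (1 / 2)
    rw [← A2_add, ← A2_add, ← A2_smul] at k
    rw [← A2_sub]
    have e : (1 / 2 : ℂ) • (X4 h false s + X4 h true s + (h true ∅ - h false ∅)) =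
        (1 / 2 : ℂ) • (h false {s} + h true {s}) - h false ∅ := by
      unfold X4; module
    rw [e] at k
    exact k
  refine ⟨_, _, key fo, key le, ?_⟩
  have k := (H.cr hR hΩ hδ hN hr).smul (1 / 2)
  unfold Q2 at k
  rw [← A2_sh, ← A2_sh, ← A2_sub, ← A2_sub, ← A2_smul]
  have e1 : (1 / 2 : ℂ) • (κ • ((h false {le} + h true {le}) - Sh rr (h false {le} + h true {le}))) =
      κ • ((1 / 2 : ℂ) • (h false {le} + h true {le}) - Sh rr ((1 / 2 : ℂ) • (h false {le} + h true {le}))) := by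
    rw [sh_smul]; module
  have e2 : (1 / 2 : ℂ) • ((h false {fo} + h true {fo}) - Sh uu (h false {fo} + h true {fo})) =
      (1 / 2 : ℂ) • (h false {fo} + h true {fo}) - Sh uu ((1 / 2 : ℂ) • (h false {fo} + h true {fo})) := by
    rw [sh_smul]; module
  rw [e1, e2] at k
  exact k

end Pool.Agent.H44.W
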