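import Mathlib
import Pool.Agent.H44.W.CloseCR

set_option autoImplicit false
open Filter Topology Set MeasureTheory

/-! # Limits of box averages, Morera -/

namespace Pool.Agent.H44.W

open Pool.Agent.Q1.M4 (lat)
open Pool.Agent.Q1.M6f.Glue (uu rr ILim XX YY TX TY TX_eq TY_eq XX_tendsto JJ differentiableOn_of_JJ mem_rect)
open Pool.Agent.H44.FM.WG (Sh lat_sub')

variable {R : ℕ → ℝ} {F : Filter ℕ} {Ω : Set ℂ}

/-! ### Averages at two points -/

lemma card_bx_sdiff (m : ℕ) (v v' : ℤ × ℤ) :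
    ((bx m v \ bx m v').card : ℝ) ≤ (|((v.1 - v'.1 : ℤ) : ℝ)| + |((v.2 - v'.2 : ℤ) : ℝ)|) * m := by
  classical
  -- columns outside and rows outside
  set S1 : Finset (ℤ × ℤ) := (Finset.Ico v.1 (v.1 + m) \ Finset.Ico v'.1 (v'.1 + m)) ×ˢ
    Finset.Ico v.2 (v.2 + m) with hS1
  set S2 : Finset (ℤ × ℤ) := Finset.Ico v.1 (v.1 + m) ×ˢ
    (Finset.Ico v.2 (v.2 + m) \ Finset.Ico v'.2 (v'.2 + m)) with hS2
  have hsub : bx m v \ bx m v' ⊆ S1 ∪ S2 := by
    intro w hw
    rw [Finset.mem_sdiff, mem_bx, mem_bx] at hw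
    rw [hS1, hS2, Finset.mem_union, Finset.mem_product, Finset.mem_product, Finset.mem_sdiff,
      Finset.mem_sdiff, Finset.mem_Ico, Finset.mem_Ico, Finset.mem_Ico, Finset.mem_Ico]
    omega
  have hI : ∀ a b : ℤ, ((Finset.Ico a (a + m) \ Finset.Ico b (b + m)).card : ℝ) ≤ |((a - b : ℤ) : ℝ)| := by
    intro a b
    have h1 : Finset.Ico a (a + m) \ Finset.Ico b (b + m) ⊆ Finset.Ico (min a b) (max a b) ∪
        Finset.Ico (min (a + m) (b + m)) (max (a + m) (b + m)) := by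
      intro x hx
      rw [Finset.mem_sdiff, Finset.mem_Ico, Finset.mem_Ico] at hx
      rw [Finset.mem_union, Finset.mem_Ico, Finset.mem_Ico]
      omega
    have h2 : (Finset.Ico a (a + m) \ Finset.Ico b (b + m)).card ≤ (a - b).natAbs := by
      rcases le_total a b with hab | hab
      · have : Finset.Ico a (a + m) \ Finset.Ico b (b + m) ⊆ Finset.Ico a b := by
          intro x hx
          rw [Finset.mem_sdiff, Finset.mem_Ico, Finset.mem_Ico] at hx
          rw [Finset.mem_Ico]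
          omega
        refine (Finset.card_le_card this).trans ?_
        rw [Int.card_Ico]; omega
      · have : Finset.Ico a (a + m) \ Finset.Ico b (b + m) ⊆ Finset.Ico (b + m) (a + m) := by
          intro x hx
          rw [Finset.mem_sdiff, Finset.mem_Ico, Finset.mem_Ico] at hx
          rw [Finset.mem_Ico]
          omega
        refine (Finset.card_le_card this).trans ?_
        rw [Int.card_Ico]; omega
    have h3 : ((a - b).natAbs : ℝ) = |((a - b : ℤ) : ℝ)| := by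
      rw [Nat.cast_natAbs, Int.cast_abs]
    rw [← h3]
    exact_mod_cast h2
  have hc : ∀ a : ℤ, ((Finset.Ico a (a + m)).card : ℝ) = m := by
    intro a; rw [Int.card_Ico]; simp
  calc ((bx m v \ bx m v').card : ℝ) ≤ ((S1 ∪ S2).card : ℝ) := by exact_mod_cast Finset.card_le_card hsub
    _ ≤ (S1.card : ℝ) + S2.card := by exact_mod_cast Finset.card_union_le _ _
    _ = _ * m + m * _ := by
        rw [hS1, hS2, Finset.card_product, Finset.card_product]
        push_cast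
        rw [hc, hc]
    _ ≤ |((v.1 - v'.1 : ℤ) : ℝ)| * m + m * |((v.2 - v'.2 : ℤ) : ℝ)| := by
        gcongr
        · exact hI _ _
        · exact hI _ _
    _ = _ := by ring

/-- **Averages at two points.** -/
lemma av_lip {m : ℕ} (hm : 1 ≤ m) {f : ℤ × ℤ → ℂ} {v v' : ℤ × ℤ} {c : ℝ} (hc : 0 ≤ c)
    (h : ∀ w ∈ bx m v, ‖f w‖ ≤ c) (h' : ∀ w ∈ bx m v', ‖f w‖ ≤ c) :
    ‖av m f v - av m f v'‖ ≤ 2 * c * (|((v.1 - v'.1 : ℤ) : ℝ)| + |((v.2 - v'.2 : ℤ) : ℝ)|) / m := by
  classical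
  have hmr : (0 : ℝ) < m := by exact_mod_cast hm
  rw [av_eq, av_eq, ← mul_sub, norm_mul]
  have e : ‖(1 / ((m : ℂ) * m))‖ = 1 / ((m : ℝ) * m) := by
    rw [norm_div, norm_one, norm_mul, Complex.norm_natCast]
  have e2 : ∑ w ∈ bx m v, f w - ∑ w ∈ bx m v', f w =
      ∑ w ∈ bx m v \ bx m v', f w - ∑ w ∈ bx m v' \ bx m v, f w := by
    have a1 := Finset.sum_inter_add_sum_sdiff (bx m v) (bx m v') f
    have a2 := Finset.sum_inter_add_sum_sdiff (bx m v') (bx m v) f
    rw [Finset.inter_comm] at a2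
    rw [← a1, ← a2]; ring
  set D : ℝ := |((v.1 - v'.1 : ℤ) : ℝ)| + |((v.2 - v'.2 : ℤ) : ℝ)| with hD
  have b1 : ‖∑ w ∈ bx m v \ bx m v', f w‖ ≤ D * m * c := by
    refine (norm_sum_le _ _).trans ?_
    refine (Finset.sum_le_card_nsmul _ _ c fun w hw => h w (Finset.mem_sdiff.1 hw).1).trans ?_
    rw [nsmul_eq_mul]
    gcongr
    exact card_bx_sdiff m v v'
  have b2 : ‖∑ w ∈ bx m v' \ bx m v, f w‖ ≤ D * m * c := by
    refine (norm_sum_le _ _).trans ?_
    refine (Finset.sum_le_card_nsmul _ _ c fun w hw => h' w (Finset.mem_sdiff.1 hw).1).trans ?_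
    rw [nsmul_eq_mul]
    gcongr
    refine (card_bx_sdiff m v' v).trans (le_of_eq ?_)
    rw [hD]
    congr 2
    · rw [← abs_neg]; congr 1; push_cast; ring
    · rw [← abs_neg]; congr 1; push_cast; ring
  rw [e, e2]
  calc 1 / ((m : ℝ) * m) * ‖_‖ ≤ 1 / ((m : ℝ) * m) * (D * m * c + D * m * c) := by
        gcongr
        exact (norm_sub_le _ _).trans (add_le_add b1 b2)
    _ = 2 * c * D / m := by field_simp; ring

/-- averages of a nearly constant function -/
lemma av_const_le {m : ℕ} (hm : 1 ≤ m) {f : ℤ × ℤ → ℂ} {v : ℤ × ℤ} {c : ℂ} {ε : ℝ}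
    (hε : 0 ≤ ε) (h : ∀ w ∈ bx m v, ‖f w - c‖ ≤ ε) : ‖av m f v - c‖ ≤ ε := by
  have hmr : (m : ℂ) ≠ 0 := by
    have : m ≠ 0 := by omega
    exact_mod_cast this
  have e : av m f v - c = av m (fun w => f w - c) v := by
    rw [av_eq, av_eq, Finset.sum_sub_distrib, Finset.sum_const, card_bx, nsmul_eq_mul]
    push_cast
    field_simp
  rw [e]
  exact norm_av_le_of hε h

/-! ### Lattice points near `z` -/

/-- the lattice point at `z` -/
noncomputable def fl (r : ℝ) (z : ℂ) : ℤ × ℤ := (⌊z.re * r⌋, ⌊z.im * r⌋)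

lemma fl_near {r : ℝ} (hr : 0 < r) (z : ℂ) : ‖lat (fl r z) / (r : ℂ) - z‖ ≤ 2 / r := by
  have e : lat (fl r z) / (r : ℂ) - z = (lat (fl r z) - z * r) / (r : ℂ) := by
    have : (r : ℂ) ≠ 0 := by exact_mod_cast hr.ne'
    field_simp
  rw [e, norm_div, Complex.norm_real, Real.norm_of_nonneg hr.le]
  gcongr
  refine (Complex.norm_le_abs_re_add_abs_im _).trans ?_
  have h1 : |(lat (fl r z) - z * r).re| ≤ 1 := by
    have e1 : (lat (fl r z) - z * r).re = (⌊z.re * r⌋ : ℝ) - z.re * r := by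
      simp [lat, fl]
    rw [e1, abs_le]
    constructor <;> linarith [Int.floor_le (z.re * r), Int.lt_floor_add_one (z.re * r)]
  have h2 : |(lat (fl r z) - z * r).im| ≤ 1 := by
    have e1 : (lat (fl r z) - z * r).im = (⌊z.im * r⌋ : ℝ) - z.im * r := by
      simp [lat, fl]
    rw [e1, abs_le]
    constructor <;> linarith [Int.floor_le (z.im * r), Int.lt_floor_add_one (z.im * r)]
  linarith

lemma fl_tendsto (hR : Tendsto R F atTop) (z : ℂ) :
    Tendsto (fun j => lat (fl (R j) z) / (R j : ℂ)) F (𝓝 z) := by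
  rw [tendsto_iff_norm_sub_tendsto_zero]
  have h1 : Tendsto (fun j => 2 / R j) F (𝓝 0) := hR.const_div_atTop 2
  refine squeeze_zero' (Eventually.of_forall fun _ => norm_nonneg _) ?_ h1
  filter_upwards [hR.eventually_gt_atTop 0] with j hj
  exact fl_near hj z

/-- the distance of lattice points in terms of their positions -/
lemma lat_dist (r : ℝ) (hr : 0 < r) (v v' : ℤ × ℤ) :
    |((v.1 - v'.1 : ℤ) : ℝ)| + |((v.2 - v'.2 : ℤ) : ℝ)| ≤ 2 * r * ‖lat v / (r : ℂ) - lat v' / (r : ℂ)‖ := by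
  rw [← sub_div, norm_div, Complex.norm_real, Real.norm_of_nonneg hr.le, ← lat_sub']
  have h1 := Complex.abs_re_le_norm (lat (v - v'))
  have h2 := Complex.abs_im_le_norm (lat (v - v'))
  have e1 : (lat (v - v')).re = ((v.1 - v'.1 : ℤ) : ℝ) := by simp [lat]
  have e2 : (lat (v - v')).im = ((v.2 - v'.2 : ℤ) : ℝ) := by simp [lat]
  rw [e1] at h1
  rw [e2] at h2
  have e3 : 2 * r * (‖lat (v - v')‖ / r) = 2 * ‖lat (v - v')‖ := by field_simp
  rw [e3]
  linarith

/-! ### The limit of averages -/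

section

variable {U : Ultrafilter ℕ} {Ω2 : Set ℂ} {f : ℕ → ℤ × ℤ → ℂ} {L M : ℝ}

/-- Lipschitz functions of the scaled lattice -/
def LipR (R : ℕ → ℝ) (F : Filter ℕ) (Ω : Set ℂ) (L : ℝ) (f : ℕ → ℤ × ℤ → ℂ) : Prop :=
  ∀ᶠ j in F, ∀ v v' : ℤ × ℤ, lat v / (R j : ℂ) ∈ Ω → lat v' / (R j : ℂ) ∈ Ω →
    ‖f j v - f j v'‖ ≤ L * ‖lat v / (R j : ℂ) - lat v' / (R j : ℂ)‖

/-- the pointwise limit along the ultrafilter -/
noncomputable def ulim (R : ℕ → ℝ) (U : Ultrafilter ℕ) (f : ℕ → ℤ × ℤ → ℂ) (z : ℂ) : ℂ :=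
  limUnder (U : Filter ℕ) fun j => f j (fl (R j) z)

theorem ulim_spec (hR : Tendsto R U atTop) (hΩ : IsOpen Ω2)
    (hb : ∀ᶠ j in (U : Filter ℕ), ∀ v : ℤ × ℤ, lat v / (R j : ℂ) ∈ Ω2 → ‖f j v‖ ≤ M)
    {z : ℂ} (hz : z ∈ Ω2) : Tendsto (fun j => f j (fl (R j) z)) U (𝓝 (ulim R U f z)) := by
  have h1 : ∀ᶠ j in (U : Filter ℕ), f j (fl (R j) z) ∈ Metric.closedBall (0 : ℂ) M := by
    filter_upwards [hb, (fl_tendsto hR z).eventually (hΩ.mem_nhds hz)] with j a b
    rw [mem_closedBall_zero_iff]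
    exact a _ b
  have h2 : (U.map (fun j => f j (fl (R j) z)) : Filter ℂ) ≤ 𝓟 (Metric.closedBall (0 : ℂ) M) := by
    rw [le_principal_iff]; exact h1
  obtain ⟨w, -, hw⟩ := (isCompact_closedBall (0 : ℂ) M).ultrafilter_le_nhds _ h2
  have hw' : Tendsto (fun j => f j (fl (R j) z)) U (𝓝 w) := hw
  unfold ulim
  exact tendsto_nhds_limUnder ⟨w, hw'⟩

theorem ilim_ulim (hR : Tendsto R U atTop) (hΩ : IsOpen Ω2)
    (hb : ∀ᶠ j in (U : Filter ℕ), ∀ v : ℤ × ℤ, lat v / (R j : ℂ) ∈ Ω2 → ‖f j v‖ ≤ M)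
    (hL : LipR R U Ω2 L f) : ILim R U f Ω2 (ulim R U f) := by
  intro z hz v hv
  have h1 := ulim_spec hR hΩ hb hz
  have h2 : Tendsto (fun j => f j (v j) - f j (fl (R j) z)) U (𝓝 0) := by
    rw [tendsto_zero_iff_norm_tendsto_zero]
    have h3 : Tendsto (fun j => L * ‖lat (v j) / (R j : ℂ) - lat (fl (R j) z) / (R j : ℂ)‖) U (𝓝 0) := by
      have := (hv.sub (fl_tendsto hR z)).norm.const_mul L
      simpa using this
    refine squeeze_zero' (Eventually.of_forall fun _ => norm_nonneg _) ?_ h3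
    filter_upwards [hL, hv.eventually (hΩ.mem_nhds hz), (fl_tendsto hR z).eventually (hΩ.mem_nhds hz)]
      with j a b c
    exact a _ _ b c
  have := h2.add h1
  simpa using this

theorem norm_ulim_le (hR : Tendsto R U atTop) (hΩ : IsOpen Ω2)
    (hb : ∀ᶠ j in (U : Filter ℕ), ∀ v : ℤ × ℤ, lat v / (R j : ℂ) ∈ Ω2 → ‖f j v‖ ≤ M)
    {z : ℂ} (hz : z ∈ Ω2) : ‖ulim R U f z‖ ≤ M := by
  refine le_of_tendsto (ulim_spec hR hΩ hb hz).norm ?_
  filter_upwards [hb, (fl_tendsto hR z).eventually (hΩ.mem_nhds hz)] with j a b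
  exact a _ b

theorem ulim_lip (hR : Tendsto R U atTop) (hΩ : IsOpen Ω2)
    (hb : ∀ᶠ j in (U : Filter ℕ), ∀ v : ℤ × ℤ, lat v / (R j : ℂ) ∈ Ω2 → ‖f j v‖ ≤ M)
    (hL : LipR R U Ω2 L f) {z w : ℂ} (hz : z ∈ Ω2) (hw : w ∈ Ω2) :
    ‖ulim R U f z - ulim R U f w‖ ≤ L * ‖z - w‖ := by
  have h1 := ((ulim_spec hR hΩ hb hz).sub (ulim_spec hR hΩ hb hw)).norm
  have h2 : Tendsto (fun j => L * ‖lat (fl (R j) z) / (R j : ℂ) - lat (fl (R j) w) / (R j : ℂ)‖) U
      (𝓝 (L * ‖z - w‖)) := ((fl_tendsto hR z).sub (fl_tendsto hR w)).norm.const_mul L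
  refine le_of_tendsto_of_tendsto h1 h2 ?_
  filter_upwards [hL, (fl_tendsto hR z).eventually (hΩ.mem_nhds hz),
    (fl_tendsto hR w).eventually (hΩ.mem_nhds hw)] with j a b c
  exact a _ _ b c

theorem ulim_cont (hR : Tendsto R U atTop) (hΩ : IsOpen Ω2)
    (hb : ∀ᶠ j in (U : Filter ℕ), ∀ v : ℤ × ℤ, lat v / (R j : ℂ) ∈ Ω2 → ‖f j v‖ ≤ M)
    (hL : LipR R U Ω2 L f) : ContinuousOn (ulim R U f) Ω2 := by
  have h : ∀ z ∈ Ω2, ∀ w ∈ Ω2, dist (ulim R U f z) (ulim R U f w) ≤ |L| * dist z w := by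
    intro z hz w hw
    rw [dist_eq_norm, dist_eq_norm]
    exact (ulim_lip hR hΩ hb hL hz hw).trans (by gcongr; exact le_abs_self L)
  have : LipschitzOnWith (Real.nnabs L) (ulim R U f) Ω2 := by
    refine LipschitzOnWith.of_dist_le_mul fun z hz w hw => ?_
    have := h z hz w hw
    simpa using this
  exact this.continuousOn

/-- functions which are close have the same limit -/
theorem ILim.congr {f f' : ℕ → ℤ × ℤ → ℂ} {g : ℂ → ℂ} (hΩ : IsOpen Ω2) (h : ILim R U f Ω2 g)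
    (hc : PZ R U Ω2 (f' - f)) : ILim R U f' Ω2 g := by
  intro z hz v hv
  have h1 := h z hz v hv
  have h2 : Tendsto (fun j => (f' - f) j (v j)) U (𝓝 0) := by
    rw [Metric.tendsto_nhds]
    intro ε hε
    filter_upwards [hc (ε / 2) (by positivity), hv.eventually (hΩ.mem_nhds hz)] with j a b
    rw [dist_zero_right]
    linarith [a _ b]
  have := h2.add h1
  simpa using this

/-! ### Morera -/

theorem morera_rel {κ : ℂ} {g : ℂ → ℂ} (hR : Tendsto R U atTop) (hΩ : IsOpen Ω2) {f1 f2 : ℕ → ℤ × ℤ → ℂ}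
    (h1 : ILim R U f1 Ω2 g) (h2 : ILim R U f2 Ω2 g) (hg : ContinuousOn g Ω2)
    (hr : PA R U Ω2 (κ • (f2 - Sh rr f2)) (f1 - Sh uu f1)) {a b c d : ℝ} (hab : a < b) (hcd : c < d)
    (hsub : Icc a b ×ℂ Icc c d ⊆ Ω2) :
    (∫ x in a..b, g (x + d * Complex.I)) - (∫ x in a..b, g (x + c * Complex.I)) =
      κ * ((∫ y in c..d, g (b + y * Complex.I)) - ∫ y in c..d, g (a + y * Complex.I)) := by
  have hba : 0 < b - a := by linarith
  have hdc : 0 < d - c := by linarith
  set v0 : ℕ → ℤ × ℤ := fun j => (⌊a * R j⌋ + 1, ⌊c * R j⌋ + 1) with hv0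
  set Ln : ℕ → ℕ := fun j => ⌊(b - a) * R j⌋₊ - 1 with hLn
  set Mn : ℕ → ℕ := fun j => ⌊(d - c) * R j⌋₊ - 1 with hMn
  have hdiv : ∀ t : ℝ, 0 < t → Tendsto (fun j => ((⌊t * R j⌋₊ - 1 : ℕ) : ℝ) / R j) U (𝓝 t) := by
    intro t ht
    have hlow : Tendsto (fun j => t - 2 / R j) U (𝓝 t) := by
      have := (hR.const_div_atTop 2).const_sub t
      simpa using this
    refine tendsto_of_tendsto_of_tendsto_of_le_of_le' hlow tendsto_const_nhds ?_ ?_
    · filter_upwards [hR.eventually_gt_atTop 0] with j hj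
      rw [le_div_iff₀ hj, sub_mul, div_mul_cancel₀ _ hj.ne']
      have h3 := Nat.lt_floor_add_one (t * R j)
      have h4 : ((⌊t * R j⌋₊ : ℕ) : ℝ) - 1 ≤ ((⌊t * R j⌋₊ - 1 : ℕ) : ℝ) := by
        have : ⌊t * R j⌋₊ ≤ (⌊t * R j⌋₊ - 1) + 1 := by omega
        have h5 : (⌊t * R j⌋₊ : ℝ) ≤ ((⌊t * R j⌋₊ - 1 : ℕ) : ℝ) + 1 := by exact_mod_cast this
        linarith
      linarith
    · filter_upwards [hR.eventually_gt_atTop 0] with j hj
      rw [div_le_iff₀ hj]
      have h3 := Nat.floor_le (show 0 ≤ t * R j by positivity)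
      have h4 : ((⌊t * R j⌋₊ - 1 : ℕ) : ℝ) ≤ (⌊t * R j⌋₊ : ℝ) := by
        exact_mod_cast Nat.sub_le _ _
      linarith
  have hL := hdiv (b - a) hba
  have hM := hdiv (d - c) hdc
  have hp : ∀ e : ℤ × ℤ, |e.1| ≤ 1 → |e.2| ≤ 1 →
      Tendsto (fun j => lat (v0 j - e) / (R j : ℂ)) U (𝓝 (a + c * Complex.I)) := by
    intro e he1 he2
    rw [tendsto_iff_norm_sub_tendsto_zero]
    have h6 : Tendsto (fun j => 4 / R j) U (𝓝 0) := hR.const_div_atTop 4
    refine squeeze_zero' (Eventually.of_forall fun _ => norm_nonneg _) ?_ h6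
    filter_upwards [hR.eventually_gt_atTop 0] with j hj
    have hne : (R j : ℂ) ≠ 0 := by exact_mod_cast hj.ne'
    have e1 : lat (v0 j - e) / (R j : ℂ) - (a + c * Complex.I) =
        (lat (v0 j - e) - (a + c * Complex.I) * R j) / (R j : ℂ) := by field_simp
    rw [e1, norm_div, Complex.norm_real, Real.norm_of_nonneg hj.le]
    gcongr
    refine (Complex.norm_le_abs_re_add_abs_im _).trans ?_
    have he1' : |(e.1 : ℝ)| ≤ 1 := by exact_mod_cast he1
    have he2' : |(e.2 : ℝ)| ≤ 1 := by exact_mod_cast he2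
    rw [abs_le] at he1' he2'
    have a1 : |(lat (v0 j - e) - (a + c * Complex.I) * R j).re| ≤ 2 := by
      have : (lat (v0 j - e) - (a + c * Complex.I) * R j).re = (⌊a * R j⌋ : ℝ) + 1 - e.1 - a * R j := by
        simp [lat, hv0]
      rw [this, abs_le]
      constructor <;> linarith [Int.floor_le (a * R j), Int.lt_floor_add_one (a * R j)]
    have a2 : |(lat (v0 j - e) - (a + c * Complex.I) * R j).im| ≤ 2 := by
      have : (lat (v0 j - e) - (a + c * Complex.I) * R j).im = (⌊c * R j⌋ : ℝ) + 1 - e.2 - c * R j := by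
        simp [lat, hv0]
      rw [this, abs_le]
      constructor <;> linarith [Int.floor_le (c * R j), Int.lt_floor_add_one (c * R j)]
    linarith
  have t1 := (XX_tendsto hR h1 hg hΩ hab hcd hsub (hp uu (by decide) (by decide)) hL hM).1
  have t2 := (XX_tendsto hR h2 hg hΩ hab hcd hsub (hp rr (by decide) (by decide)) hL hM).2
  have t3 : Tendsto (fun j => XX (R j) (f1 j) (v0 j - uu) (Ln j) (Mn j) -
      κ * YY (R j) (f2 j) (v0 j - rr) (Ln j) (Mn j)) U (𝓝 0) := by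
    rw [Metric.tendsto_nhds]
    intro ε hε
    filter_upwards [hr (ε / 2) (by positivity), hR.eventually_gt_atTop 0] with j h7 hj
    rw [dist_zero_right]
    unfold XX YY
    rw [← TX_eq, ← TY_eq]
    have e2 : ∀ k l : ℕ, v0 j - uu + k • rr + l • uu = v0 j + k • rr + l • uu - uu := by
      intro k l; abel
    have e4 : ∀ k l : ℕ, v0 j - rr + k • rr + l • uu = v0 j + k • rr + l • uu - rr := by
      intro k l; abel
    simp only [e2, e4, sub_add_cancel]
    have e5 : ∀ (c0 : ℂ) (s t : ℂ), c0 * s - κ * (c0 * t) = c0 * (s - κ * t) := by intros; ring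
    rw [e5, Finset.mul_sum, ← Finset.sum_sub_distrib, norm_mul, Complex.norm_real, Real.norm_eq_abs]
    have hterm : ∀ k ∈ Finset.range (Ln j), ‖(∑ l ∈ Finset.range (Mn j), (f1 j (v0 j + k • rr + l • uu) -
        f1 j (v0 j + k • rr + l • uu - uu))) - κ * ∑ l ∈ Finset.range (Mn j),
        (f2 j (v0 j + k • rr + l • uu) - f2 j (v0 j + k • rr + l • uu - rr))‖ ≤ Mn j * (ε / 2 / R j) := by
      intro k hk
      rw [Finset.mem_range] at hk
      rw [Finset.mul_sum, ← Finset.sum_sub_distrib]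
      refine (norm_sum_le _ _).trans ?_
      refine (Finset.sum_le_card_nsmul _ _ (ε / 2 / R j) fun l hl => ?_).trans (le_of_eq ?_)
      · rw [Finset.mem_range] at hl
        refine h7 (v0 j + k • rr + l • uu) (hsub ?_)
        have q1 : (lat (v0 j + k • rr + l • uu) / (R j : ℂ)) =
            (((((⌊a * R j⌋ : ℝ) + 1 + k) / R j : ℝ)) : ℂ) +
            (((((⌊c * R j⌋ : ℝ) + 1 + l) / R j : ℝ)) : ℂ) * Complex.I := by
          have hne : (R j : ℂ) ≠ 0 := by exact_mod_cast hj.ne'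
          have : lat (v0 j + k • rr + l • uu) = ((⌊a * R j⌋ : ℂ) + 1 + k) + ((⌊c * R j⌋ : ℂ) + 1 + l) * Complex.I := by
            apply Complex.ext <;> simp [lat, hv0, rr, uu]
          rw [this]
          push_cast
          field_simp
        rw [q1]
        have q2 : ∀ (s t : ℝ) (k : ℕ), s < t → k < ⌊(t - s) * R j⌋₊ - 1 →
            ((⌊s * R j⌋ : ℝ) + 1 + k) / R j ∈ Icc s t := by
          intro s t k hst hk
          have hf := Nat.floor_le (show 0 ≤ (t - s) * R j by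
            have : 0 < t - s := by linarith
            positivity)
          have hk' : k + 2 ≤ ⌊(t - s) * R j⌋₊ := by omega
          have hk2 : (k : ℝ) + 2 ≤ (⌊(t - s) * R j⌋₊ : ℝ) := by exact_mod_cast hk'
          constructor
          · rw [le_div_iff₀ hj]
            have := Int.lt_floor_add_one (s * R j)
            have : (0 : ℝ) ≤ k := Nat.cast_nonneg k
            linarith
          · rw [div_le_iff₀ hj]
            have := Int.floor_le (s * R j)
            linarith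
        exact mem_rect (q2 a b k hab hk) (q2 c d l hcd hl)
      · rw [Finset.card_range, nsmul_eq_mul]
    have hsum : ‖∑ k ∈ Finset.range (Ln j), ((∑ l ∈ Finset.range (Mn j), (f1 j (v0 j + k • rr + l • uu) -
        f1 j (v0 j + k • rr + l • uu - uu))) - κ * ∑ l ∈ Finset.range (Mn j),
        (f2 j (v0 j + k • rr + l • uu) - f2 j (v0 j + k • rr + l • uu - rr)))‖ ≤
        Ln j * (Mn j * (ε / 2 / R j)) := by
      refine (norm_sum_le _ _).trans ?_
      refine (Finset.sum_le_card_nsmul _ _ _ hterm).trans (le_of_eq ?_)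
      rw [Finset.card_range, nsmul_eq_mul]
    have hfin : |R j / ((Ln j : ℝ) * Mn j)| * (Ln j * (Mn j * (ε / 2 / R j))) ≤ ε / 2 := by
      rw [abs_of_nonneg (by positivity)]
      by_cases hz : ((Ln j : ℝ) * Mn j) = 0
      · rw [hz]; simp; positivity
      · have : R j / ((Ln j : ℝ) * Mn j) * (Ln j * (Mn j * (ε / 2 / R j))) = ε / 2 := by
          have h8 : (Ln j : ℝ) ≠ 0 := fun h => hz (by rw [h, zero_mul])
          have h9 : (Mn j : ℝ) ≠ 0 := fun h => hz (by rw [h, mul_zero])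
          field_simp
        exact this.le
    refine lt_of_le_of_lt ((mul_le_mul_of_nonneg_left hsum (abs_nonneg _)).trans hfin) (by linarith)
  have t4 := t1.sub (t2.const_mul κ)
  have t5 := tendsto_nhds_unique t3 t4
  have hne : ((1 / ((b - a) * (d - c)) : ℝ) : ℂ) ≠ 0 := by
    have : (1 / ((b - a) * (d - c)) : ℝ) ≠ 0 := by positivity
    exact_mod_cast this
  have t6 : ((1 / ((b - a) * (d - c)) : ℝ) : ℂ) * (((∫ x in a..b, g (x + d * Complex.I)) -
      (∫ x in a..b, g (x + c * Complex.I))) -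
      κ * ((∫ y in c..d, g (b + y * Complex.I)) - ∫ y in c..d, g (a + y * Complex.I))) = 0 := by
    rw [t5]; ring
  rcases mul_eq_zero.1 t6 with h | h
  · exact absurd h hne
  · exact sub_eq_zero.1 h

theorem morera_I {g : ℂ → ℂ} (hR : Tendsto R U atTop) (hΩ : IsOpen Ω2) {f1 f2 : ℕ → ℤ × ℤ → ℂ}
    (h1 : ILim R U f1 Ω2 g) (h2 : ILim R U f2 Ω2 g) (hg : ContinuousOn g Ω2)
    (hr : PA R U Ω2 (Complex.I • (f2 - Sh rr f2)) (f1 - Sh uu f1)) : DifferentiableOn ℂ g Ω2 := by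
  refine differentiableOn_of_JJ hΩ hg fun a b c d hab hcd hsub => ?_
  unfold JJ
  rw [morera_rel hR hΩ h1 h2 hg hr hab hcd hsub, sub_self]

end

end Pool.Agent.H44.W
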