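import Mathlib
import Pool.Agent.H44.W.CloseMor

set_option autoImplicit false
open Filter Topology Set MeasureTheory

/-! # Closing of the S-property: the theorem `hol4` -/

namespace Pool.Agent.H44.W

open Pool.Agent.Q1.M4 (lat)
open Pool.Agent.Q1.M6f.Glue (uu rr ILim)
open Pool.Agent.H44.FM.WG (Sh lat_sub')
open G4

variable {R : ℕ → ℝ} {Ω : Set ℂ} {U : Ultrafilter ℕ} {f : ℕ → ℤ × ℤ → ℂ} {M : ℝ}

/-- bounded holomorphic functions are Lipschitz -/
lemma hol_lip {H : ℂ → ℂ} {z0 : ℂ} {r : ℝ} (hr : 0 < r) (hd : DifferentiableOn ℂ H (Metric.ball z0 (2 * r)))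
    (hM : ∀ z ∈ Metric.ball z0 (2 * r), ‖H z‖ ≤ M) {z w : ℂ} (hz : z ∈ Metric.ball z0 r)
    (hw : w ∈ Metric.ball z0 r) : ‖H z - H w‖ ≤ (2 * M / r) * ‖z - w‖ := by
  have hsub : ∀ x ∈ Metric.ball z0 r, Metric.closedBall x (r / 2) ⊆ Metric.ball z0 (2 * r) := by
    intro x hx y hy
    rw [Metric.mem_ball] at hx ⊢
    rw [Metric.mem_closedBall] at hy
    have := dist_triangle y x z0
    linarith
  have hder : ∀ x ∈ Metric.ball z0 r, ‖deriv H x‖ ≤ 2 * M / r := by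
    intro x hx
    have h1 : DiffContOnCl ℂ H (Metric.ball x (r / 2)) := by
      refine (hd.mono ((closure_minimal Metric.ball_subset_closedBall Metric.isClosed_closedBall).trans
        (hsub x hx))).diffContOnCl
    have h2 := Complex.norm_deriv_le_of_forall_mem_sphere_norm_le (by positivity : 0 < r / 2) h1
      (fun y hy => hM y (hsub x hx (Metric.sphere_subset_closedBall hy)))
    refine h2.trans (le_of_eq ?_)
    field_simp
  have hdiff : ∀ x ∈ Metric.ball z0 r, DifferentiableAt ℂ H x := by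
    intro x hx
    refine hd.differentiableAt (Metric.isOpen_ball.mem_nhds ?_)
    exact Metric.ball_subset_ball (by linarith) hx
  exact Convex.norm_image_sub_le_of_norm_deriv_le hdiff hder (convex_ball z0 r) hw hz

/-- commutation -/
lemma A2_comm (δ δ' : ℝ) : A2 R δ (A2 R δ' f) = A2 R δ' (A2 R δ f) := by
  funext j
  simp only [A2, AV]
  rw [av_comm _ _ (av _ (f j)), av_comm (sd R δ j) (sd R δ' j) (f j)]
  rw [av_comm (sd R δ j) (sd R δ' j) (av (sd R δ' j) (av (sd R δ j) (f j))),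
    av_comm (sd R δ j) (sd R δ' j) (av (sd R δ j) (f j))]

lemma A2_av_comm (δ : ℝ) (m : ℕ → ℕ) : A2 R δ (AV m f) = AV m (A2 R δ f) := by
  funext j
  simp only [A2, AV]
  rw [av_comm (sd R δ j) (m j) (f j), av_comm (sd R δ j) (m j) (av (sd R δ j) (f j))]

/-- a double average of a nearly constant function -/
lemma A2_close {δ : ℝ} {j : ℕ} (hr : 0 < R j) (h1 : 1 ≤ sd R δ j) (h2 : (sd R δ j : ℝ) ≤ δ * R j) {v : ℤ × ℤ}
    {c : ℂ} {η : ℝ} (hη : 0 ≤ η)
    (h : ∀ u : ℤ × ℤ, ‖lat u / (R j : ℂ) - lat v / (R j : ℂ)‖ ≤ 4 * δ → ‖f j u - c‖ ≤ η) :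
    ‖A2 R δ f j v - c‖ ≤ η := by
  have hb : 2 * (sd R δ j : ℝ) / R j ≤ 2 * δ := by
    rw [div_le_iff₀ hr]; linarith
  refine av_const_le h1 hη fun w hw => av_const_le h1 hη fun u hu => h u ?_
  have a1 := (bx_near hw hr).trans hb
  have a2 := (bx_near hu hr).trans hb
  calc ‖lat u / (R j : ℂ) - lat v / (R j : ℂ)‖ =
      ‖(lat u / (R j : ℂ) - lat w / (R j : ℂ)) + (lat w / (R j : ℂ) - lat v / (R j : ℂ))‖ := by congr 1; ring
    _ ≤ _ := norm_add_le _ _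
    _ ≤ 4 * δ := by linarith

/-- limits of double averages -/
structure Good (R : ℕ → ℝ) (U : Ultrafilter ℕ) (Ω : Set ℂ) (M : ℝ) (f : ℕ → ℤ × ℤ → ℂ) (H : ℝ → ℂ → ℂ) :
    Prop where
  bd : Bdd R U Ω M f
  M0 : 0 ≤ M
  dif : ∀ (z0 : ℂ) (r : ℝ), 0 < r → Metric.closedBall z0 (8 * r) ⊆ Ω → ∀ δ, 0 < δ → δ ≤ r →
    DifferentiableOn ℂ (H δ) (Metric.ball z0 (2 * r))
  bdH : ∀ (z0 : ℂ) (r : ℝ), 0 < r → Metric.closedBall z0 (8 * r) ⊆ Ω → ∀ δ, 0 < δ → δ ≤ r →
    ∀ z ∈ Metric.ball z0 (2 * r), ‖H δ z‖ ≤ M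
  lim : ∀ (z0 : ℂ) (r : ℝ), 0 < r → Metric.closedBall z0 (8 * r) ⊆ Ω → ∀ δ, 0 < δ → δ ≤ r →
    ILim R U (A2 R δ f) (Metric.ball z0 (2 * r)) (H δ)

variable {H : ℝ → ℂ → ℂ}

/-- a double average of small side of the double average of side `δ'` is close to `H δ'` -/
lemma Good.near (hR : Tendsto R U atTop) (G : Good R U Ω M f H) {z0 : ℂ} {r : ℝ} (hr : 0 < r)
    (hsub : Metric.closedBall z0 (8 * r) ⊆ Ω) {δ δ' : ℝ} (hδ : 0 < δ) (hδr : δ ≤ r / 16) (hδ' : 0 < δ')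
    (hδ'r : δ' ≤ r / 16) {z : ℂ} (hz : z ∈ Metric.ball z0 (r / 2)) {ε : ℝ} (hε : 0 < ε) :
    ∀ᶠ j in (U : Filter ℕ), ‖A2 R δ (A2 R δ' f) j (fl (R j) z) - H δ' z‖ ≤ (8 * M / r) * δ + ε := by
  have hd := G.dif z0 r hr hsub δ' hδ' (by linarith)
  have hbd := G.bdH z0 r hr hsub δ' hδ' (by linarith)
  have hl := G.lim z0 r hr hsub δ' hδ' (by linarith)
  have hK : Metric.closedBall z0 (7 / 8 * r) ⊆ Metric.ball z0 (2 * r) :=
    Metric.closedBall_subset_ball (by linarith)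
  have hu := hl.unif hd.continuousOn Metric.isOpen_ball hK (isCompact_closedBall _ _)
    (show 0 < ε / 2 by positivity)
  have hM := G.M0
  filter_upwards [hu, sd_ev hR hδ, hR.eventually_gt_atTop (16 / r),
    hR.eventually_gt_atTop (8 * M / (r * ε))] with j h1 h2 h3 h4
  obtain ⟨hr0, hm1, hm2, hm3, hm4⟩ := h2
  have h3' : 2 / R j < r / 8 := by
    rw [div_lt_iff₀ hr] at h3
    rw [div_lt_iff₀ hr0]; linarith
  have h4' : (2 * M / r) * (2 / R j) ≤ ε / 2 := by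
    rw [div_lt_iff₀ (by positivity)] at h4
    rw [div_mul_div_comm, div_le_iff₀ (by positivity)]
    nlinarith
  have hv := fl_near hr0 z
  refine A2_close hr0 hm1 hm3 (by positivity) fun u hu => ?_
  have hdist : ‖lat u / (R j : ℂ) - z‖ ≤ 4 * δ + 2 / R j := by
    calc ‖lat u / (R j : ℂ) - z‖ = ‖(lat u / (R j : ℂ) - lat (fl (R j) z) / (R j : ℂ)) +
        (lat (fl (R j) z) / (R j : ℂ) - z)‖ := by congr 1; ring
      _ ≤ _ := norm_add_le _ _
      _ ≤ 4 * δ + 2 / R j := add_le_add hu hv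
  have hz' : ‖z - z0‖ < r / 2 := by rwa [Metric.mem_ball, dist_eq_norm] at hz
  have hu0 : ‖lat u / (R j : ℂ) - z0‖ < 7 / 8 * r := by
    calc ‖lat u / (R j : ℂ) - z0‖ = ‖(lat u / (R j : ℂ) - z) + (z - z0)‖ := by congr 1; ring
      _ ≤ _ := norm_add_le _ _
      _ < 7 / 8 * r := by linarith
  have a1 := h1 u (by rw [Metric.mem_closedBall, dist_eq_norm]; exact hu0.le)
  have a2 : ‖H δ' (lat u / (R j : ℂ)) - H δ' z‖ ≤ (2 * M / r) * ‖lat u / (R j : ℂ) - z‖ := by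
    refine hol_lip hr hd hbd ?_ ?_
    · rw [Metric.mem_ball, dist_eq_norm]; linarith
    · rw [Metric.mem_ball, dist_eq_norm]; linarith
  have a3 : (2 * M / r) * ‖lat u / (R j : ℂ) - z‖ ≤ (2 * M / r) * (4 * δ + 2 / R j) := by gcongr
  calc ‖A2 R δ' f j u - H δ' z‖ = ‖(A2 R δ' f j u - H δ' (lat u / (R j : ℂ))) +
      (H δ' (lat u / (R j : ℂ)) - H δ' z)‖ := by congr 1; ring
    _ ≤ _ := norm_add_le _ _
    _ ≤ ε / 2 + (2 * M / r) * (4 * δ + 2 / R j) := add_le_add a1 (a2.trans a3)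
    _ = (8 * M / r) * δ + ((2 * M / r) * (2 / R j) + ε / 2) := by ring
    _ ≤ (8 * M / r) * δ + ε := by linarith

theorem Good.cauchy (hR : Tendsto R U atTop) (G : Good R U Ω M f H) {z0 : ℂ} {r : ℝ} (hr : 0 < r)
    (hsub : Metric.closedBall z0 (8 * r) ⊆ Ω) {δ δ' : ℝ} (hδ : 0 < δ) (hδr : δ ≤ r / 16) (hδ' : 0 < δ')
    (hδ'r : δ' ≤ r / 16) {z : ℂ} (hz : z ∈ Metric.ball z0 (r / 2)) :
    ‖H δ z - H δ' z‖ ≤ (8 * M / r) * (δ + δ') := by
  refine le_of_forall_pos_le_add fun ε hε => ?_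
  obtain ⟨j, h1, h2⟩ := ((G.near hR hr hsub hδ hδr hδ' hδ'r hz (show 0 < ε / 2 by positivity)).and
    (G.near hR hr hsub hδ' hδ'r hδ hδr hz (show 0 < ε / 2 by positivity))).exists
  rw [A2_comm] at h2
  calc ‖H δ z - H δ' z‖ = ‖(A2 R δ (A2 R δ' f) j (fl (R j) z) - H δ' z) -
      (A2 R δ (A2 R δ' f) j (fl (R j) z) - H δ z)‖ := by congr 1; ring
    _ ≤ _ := norm_sub_le _ _
    _ ≤ ((8 * M / r) * δ + ε / 2) + ((8 * M / r) * δ' + ε / 2) := add_le_add h1 h2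
    _ = (8 * M / r) * (δ + δ') + ε := by ring

/-- the limit function -/
noncomputable def gL (H : ℝ → ℂ → ℂ) (z : ℂ) : ℂ := limUnder atTop fun n : ℕ => H (1 / ((n : ℝ) + 1)) z

lemma one_div_tendsto : Tendsto (fun n : ℕ => 1 / ((n : ℝ) + 1)) atTop (𝓝 0) :=
  tendsto_one_div_add_atTop_nhds_zero_nat

lemma ev_small {c : ℝ} (hc : 0 < c) : ∀ᶠ n : ℕ in atTop, 1 / ((n : ℝ) + 1) ≤ c := by
  filter_upwards [one_div_tendsto.eventually_lt_const hc] with n hn
  exact hn.le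

lemma one_div_pos' (n : ℕ) : 0 < 1 / ((n : ℝ) + 1) := by positivity

theorem Good.gL_spec (hR : Tendsto R U atTop) (G : Good R U Ω M f H) {z0 : ℂ} {r : ℝ} (hr : 0 < r)
    (hsub : Metric.closedBall z0 (8 * r) ⊆ Ω) {z : ℂ} (hz : z ∈ Metric.ball z0 (r / 2)) :
    Tendsto (fun n : ℕ => H (1 / ((n : ℝ) + 1)) z) atTop (𝓝 (gL H z)) := by
  have hM := G.M0
  have hc : CauchySeq fun n : ℕ => H (1 / ((n : ℝ) + 1)) z := by
    rw [Metric.cauchySeq_iff]
    intro ε hε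
    have hpos : 0 < ε * r / (32 * (M + 1)) := by positivity
    obtain ⟨N, hN⟩ := ((ev_small (show 0 < r / 16 by positivity)).and (ev_small hpos)).exists_forall_of_atTop
    refine ⟨N, fun m hm n hn => ?_⟩
    rw [dist_eq_norm]
    refine lt_of_le_of_lt (G.cauchy hR hr hsub (one_div_pos' m) (hN m hm).1 (one_div_pos' n) (hN n hn).1 hz) ?_
    have h1 := (hN m hm).2
    have h2 := (hN n hn).2
    calc (8 * M / r) * (1 / ((m : ℝ) + 1) + 1 / ((n : ℝ) + 1)) ≤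
        (8 * M / r) * (ε * r / (32 * (M + 1)) + ε * r / (32 * (M + 1))) := by gcongr
      _ = ε * (M / (M + 1)) / 2 := by field_simp; ring
      _ < ε := by
        have : M / (M + 1) ≤ 1 := by rw [div_le_one (by positivity)]; linarith
        nlinarith
  exact tendsto_nhds_limUnder (cauchySeq_tendsto_of_complete hc)

theorem Good.gL_near (hR : Tendsto R U atTop) (G : Good R U Ω M f H) {z0 : ℂ} {r : ℝ} (hr : 0 < r)
    (hsub : Metric.closedBall z0 (8 * r) ⊆ Ω) {δ : ℝ} (hδ : 0 < δ) (hδr : δ ≤ r / 16) {z : ℂ}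
    (hz : z ∈ Metric.ball z0 (r / 2)) : ‖H δ z - gL H z‖ ≤ (8 * M / r) * δ := by
  have h1 := (((G.gL_spec hR hr hsub hz).const_sub (H δ z))).norm
  have h2 : Tendsto (fun n : ℕ => (8 * M / r) * (δ + 1 / ((n : ℝ) + 1))) atTop (𝓝 ((8 * M / r) * δ)) := by
    have := (one_div_tendsto.const_add δ).const_mul (8 * M / r)
    simpa using this
  refine le_of_tendsto_of_tendsto h1 h2 ?_
  filter_upwards [ev_small (show 0 < r / 16 by positivity)] with n hn
  exact G.cauchy hR hr hsub hδ hδr (one_div_pos' n) hn hz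

theorem Good.gL_dif (hR : Tendsto R U atTop) (G : Good R U Ω M f H) {z0 : ℂ} {r : ℝ} (hr : 0 < r)
    (hsub : Metric.closedBall z0 (8 * r) ⊆ Ω) : DifferentiableOn ℂ (gL H) (Metric.ball z0 (r / 2)) := by
  have hM := G.M0
  have hu : TendstoUniformlyOn (fun (n : ℕ) z => H (1 / ((n : ℝ) + 1)) z) (gL H) atTop
      (Metric.ball z0 (r / 2)) := by
    rw [Metric.tendstoUniformlyOn_iff]
    intro ε hε
    have hpos : 0 < ε * r / (16 * (M + 1)) := by positivity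
    filter_upwards [ev_small (show 0 < r / 16 by positivity), ev_small hpos] with n h1 h2 z hz
    rw [dist_comm, dist_eq_norm]
    refine lt_of_le_of_lt (G.gL_near hR hr hsub (one_div_pos' n) h1 hz) ?_
    calc (8 * M / r) * (1 / ((n : ℝ) + 1)) ≤ (8 * M / r) * (ε * r / (16 * (M + 1))) := by gcongr
      _ = ε * (M / (M + 1)) / 2 := by field_simp; ring
      _ < ε := by
        have : M / (M + 1) ≤ 1 := by rw [div_le_one (by positivity)]; linarith
        nlinarith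
  refine hu.tendstoLocallyUniformlyOn.differentiableOn ?_ Metric.isOpen_ball
  filter_upwards [ev_small hr] with n hn
  exact (G.dif z0 r hr hsub _ (one_div_pos' n) hn).mono (Metric.ball_subset_ball (by linarith))

lemma exists_ball (hΩ : IsOpen Ω) {z : ℂ} (hz : z ∈ Ω) : ∃ r > 0, Metric.closedBall z (8 * r) ⊆ Ω := by
  obtain ⟨s, hs, h⟩ := Metric.isOpen_iff.1 hΩ z hz
  exact ⟨s / 16, by positivity, (Metric.closedBall_subset_ball (by linarith)).trans h⟩

theorem Good.gL_dif' (hR : Tendsto R U atTop) (hΩ : IsOpen Ω) (G : Good R U Ω M f H) :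
    DifferentiableOn ℂ (gL H) Ω := by
  intro z hz
  obtain ⟨r, hr, hsub⟩ := exists_ball hΩ hz
  exact ((G.gL_dif hR hr hsub).differentiableAt
    (Metric.isOpen_ball.mem_nhds (Metric.mem_ball_self (by positivity)))).differentiableWithinAt

theorem Good.gL_norm (hR : Tendsto R U atTop) (hΩ : IsOpen Ω) (G : Good R U Ω M f H) {z : ℂ} (hz : z ∈ Ω) :
    ‖gL H z‖ ≤ M := by
  obtain ⟨r, hr, hsub⟩ := exists_ball hΩ hz
  refine le_of_tendsto (G.gL_spec hR hr hsub (Metric.mem_ball_self (by positivity))).norm ?_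
  filter_upwards [ev_small hr] with n hn
  exact G.bdH z r hr hsub _ (one_div_pos' n) hn z (Metric.mem_ball_self (by positivity))

/-- the weak limit near a point -/
theorem Good.wlim_loc (hR : Tendsto R U atTop) (G : Good R U Ω M f H) {z0 : ℂ} {r : ℝ}
    (hr : 0 < r) (hsub : Metric.closedBall z0 (8 * r) ⊆ Ω) {ε : ℝ} (hε : 0 < ε) : ∃ δ0 > 0, ∀ δ : ℝ, 0 < δ →
    δ < δ0 → ∀ᶠ j in (U : Filter ℕ), ∀ v : ℤ × ℤ, lat v / (R j : ℂ) ∈ Metric.ball z0 (r / 4) →
    ‖av ⌊δ * R j⌋₊ (f j) v - gL H (lat v / (R j : ℂ))‖ ≤ ε := by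
  have hM := G.M0
  have hM1 : 0 < M + 1 := by linarith
  refine ⟨min (r / 16) (ε * r / (64 * (M + 1))), lt_min (by positivity) (by positivity), fun δ' hδ' hlt => ?_⟩
  have l1 : δ' < r / 16 := hlt.trans_le (min_le_left _ _)
  have l2 : δ' < ε * r / (64 * (M + 1)) := hlt.trans_le (min_le_right _ _)
  -- the small side
  obtain ⟨δ, hδ, d1, d2, d3⟩ : ∃ δ : ℝ, 0 < δ ∧ δ ≤ δ' ∧ 32 * M * (δ / δ') ≤ ε / 4 ∧
      (8 * M / r) * δ ≤ ε / 4 := by
    refine ⟨min δ' (min (δ' * ε / (128 * (M + 1))) (ε * r / (32 * (M + 1)))), by positivity, min_le_left _ _,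
      ?_, ?_⟩
    · have : min δ' (min (δ' * ε / (128 * (M + 1))) (ε * r / (32 * (M + 1)))) ≤ δ' * ε / (128 * (M + 1)) :=
        (min_le_right _ _).trans (min_le_left _ _)
      calc 32 * M * (_ / δ') ≤ 32 * M * ((δ' * ε / (128 * (M + 1))) / δ') := by gcongr
        _ = ε / 4 * (M / (M + 1)) := by field_simp; ring
        _ ≤ ε / 4 := by
          have : M / (M + 1) ≤ 1 := by rw [div_le_one (by positivity)]; linarith
          nlinarith
    · have : min δ' (min (δ' * ε / (128 * (M + 1))) (ε * r / (32 * (M + 1)))) ≤ ε * r / (32 * (M + 1)) :=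
        (min_le_right _ _).trans (min_le_right _ _)
      calc (8 * M / r) * _ ≤ (8 * M / r) * (ε * r / (32 * (M + 1))) := by gcongr
        _ = ε / 4 * (M / (M + 1)) := by field_simp; ring
        _ ≤ ε / 4 := by
          have : M / (M + 1) ≤ 1 := by rw [div_le_one (by positivity)]; linarith
          nlinarith
  have hδ16 : δ ≤ r / 16 := by linarith
  have hd := G.dif z0 r hr hsub δ hδ (by linarith)
  have hl := G.lim z0 r hr hsub δ hδ (by linarith)
  have hK : Metric.closedBall z0 (7 / 8 * r) ⊆ Metric.ball z0 (2 * r) :=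
    Metric.closedBall_subset_ball (by linarith)
  have hu := hl.unif hd.continuousOn Metric.isOpen_ball hK (isCompact_closedBall _ _)
    (show 0 < ε / 4 by positivity)
  have hb := G.bd _ hsub (isCompact_closedBall _ _)
  filter_upwards [hu, hb, sd_ev hR hδ, sd_ev hR hδ'] with j h1 h2 h3 h4 v hv
  obtain ⟨hr0, hm1, hm2, hm3, hm4⟩ := h3
  obtain ⟨-, hn1, hn2, hn3, hn4⟩ := h4
  have hn0 : (0 : ℝ) < sd R δ' j := by exact_mod_cast hn1
  have hbx : ∀ {n : ℕ} {δ'' : ℝ}, (n : ℝ) ≤ δ'' * R j → ∀ {u w : ℤ × ℤ}, w ∈ bx n u →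
      ‖lat w / (R j : ℂ) - lat u / (R j : ℂ)‖ ≤ 2 * δ'' := by
    intro n δ'' hn u w hw
    refine (bx_near hw hr0).trans ?_
    rw [div_le_iff₀ hr0]; linarith
  have tri : ∀ a b c : ℂ, ‖a - c‖ ≤ ‖a - b‖ + ‖b - c‖ := fun a b c => by
    calc ‖a - c‖ = ‖(a - b) + (b - c)‖ := by congr 1; ring
      _ ≤ _ := norm_add_le _ _
  have hv0 : ‖lat v / (R j : ℂ) - z0‖ < r / 4 := by rwa [Metric.mem_ball, dist_eq_norm] at hv
  -- first part
  have T1 : ‖A2 R δ (AV (sd R δ') f) j v - AV (sd R δ') f j v‖ ≤ ε / 4 := by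
    refine A2_close hr0 hm1 hm3 (by positivity) fun u hu => ?_
    have hin : ∀ x : ℤ × ℤ, ‖lat x / (R j : ℂ) - lat v / (R j : ℂ)‖ ≤ 4 * δ → ∀ w ∈ bx (sd R δ' j) x,
        ‖f j w‖ ≤ M := by
      intro x hx w hw
      refine h2 w ?_
      rw [Metric.mem_closedBall, dist_eq_norm]
      have a1 := hbx hn3 hw
      have a2 := tri (lat w / (R j : ℂ)) (lat x / (R j : ℂ)) z0
      have a3 := tri (lat x / (R j : ℂ)) (lat v / (R j : ℂ)) z0
      linarith
    refine (av_lip hn1 hM (hin u hu) (hin v (by rw [sub_self, norm_zero]; positivity))).trans ?_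
    have a1 := lat_dist (R j) hr0 u v
    have a2 : |((u.1 - v.1 : ℤ) : ℝ)| + |((u.2 - v.2 : ℤ) : ℝ)| ≤ 8 * δ * R j := by
      refine a1.trans ?_
      nlinarith
    rw [div_le_iff₀ hn0]
    have a3 : 32 * M * δ ≤ ε / 4 * δ' := by
      have := d2
      rw [← mul_div_assoc, div_le_iff₀ hδ'] at this
      exact this
    calc 2 * M * (|((u.1 - v.1 : ℤ) : ℝ)| + |((u.2 - v.2 : ℤ) : ℝ)|) ≤ 2 * M * (8 * δ * R j) := by gcongr
      _ = (32 * M * δ) * (R j / 2) := by ring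
      _ ≤ (ε / 4 * δ') * (R j / 2) := by gcongr
      _ = ε / 4 * (δ' * R j / 2) := by ring
      _ ≤ ε / 4 * sd R δ' j := by gcongr
  -- second part
  have T2 : ‖AV (sd R δ') (A2 R δ f) j v - gL H (lat v / (R j : ℂ))‖ ≤ 3 * (ε / 4) := by
    refine av_const_le hn1 (by positivity) fun w hw => ?_
    have b1 := hbx hn3 hw
    have hw0 : ‖lat w / (R j : ℂ) - z0‖ < r / 2 := by
      have := tri (lat w / (R j : ℂ)) (lat v / (R j : ℂ)) z0
      linarith
    have b2 := h1 w (by rw [Metric.mem_closedBall, dist_eq_norm]; linarith)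
    have b3 := G.gL_near hR hr hsub hδ hδ16 (z := lat w / (R j : ℂ)) (by rwa [Metric.mem_ball, dist_eq_norm])
    have b4 : ‖gL H (lat w / (R j : ℂ)) - gL H (lat v / (R j : ℂ))‖ ≤ (2 * M / r) * (2 * δ') := by
      have c1 : lat w / (R j : ℂ) ∈ Metric.ball z0 (r / 2) := by rwa [Metric.mem_ball, dist_eq_norm]
      have c2 : lat v / (R j : ℂ) ∈ Metric.ball z0 (r / 2) := by
        rw [Metric.mem_ball, dist_eq_norm]; linarith
      have c3 := ((G.gL_spec hR hr hsub c1).sub (G.gL_spec hR hr hsub c2)).norm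
      refine le_of_tendsto c3 ?_
      filter_upwards [ev_small hr] with n hn
      refine (hol_lip hr (G.dif z0 r hr hsub _ (one_div_pos' n) hn) (G.bdH z0 r hr hsub _ (one_div_pos' n) hn)
        (Metric.ball_subset_ball (by linarith) c1) (Metric.ball_subset_ball (by linarith) c2)).trans ?_
      gcongr
    have b5 : (2 * M / r) * (2 * δ') ≤ ε / 4 := by
      calc (2 * M / r) * (2 * δ') ≤ (2 * M / r) * (2 * (ε * r / (64 * (M + 1)))) := by gcongr
        _ = ε / 16 * (M / (M + 1)) := by field_simp; ring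
        _ ≤ ε / 4 := by
          have : M / (M + 1) ≤ 1 := by rw [div_le_one (by positivity)]; linarith
          nlinarith
    have t1 := tri (A2 R δ f j w) (H δ (lat w / (R j : ℂ))) (gL H (lat v / (R j : ℂ)))
    have t2 := tri (H δ (lat w / (R j : ℂ))) (gL H (lat w / (R j : ℂ))) (gL H (lat v / (R j : ℂ)))
    linarith
  rw [A2_av_comm] at T1
  have e : av ⌊δ' * R j⌋₊ (f j) v = AV (sd R δ') f j v := rfl
  rw [e]
  have t := tri (AV (sd R δ') f j v) (AV (sd R δ') (A2 R δ f) j v) (gL H (lat v / (R j : ℂ)))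
  rw [norm_sub_rev] at T1
  linarith

theorem Good.wlim (hR : Tendsto R U atTop) (hΩ : IsOpen Ω) (G : Good R U Ω M f H) :
    WLim R U Ω f (gL H) := by
  intro K hK hKc ε hε
  have h : ∀ z ∈ K, ∃ V ∈ 𝓝 z, ∃ δ0 > 0, ∀ δ : ℝ, 0 < δ → δ < δ0 → ∀ᶠ j in (U : Filter ℕ),
      ∀ v : ℤ × ℤ, lat v / (R j : ℂ) ∈ V → ‖av ⌊δ * R j⌋₊ (f j) v - gL H (lat v / (R j : ℂ))‖ ≤ ε := by
    intro z hz
    obtain ⟨r, hr, hsub⟩ := exists_ball hΩ (hK hz)
    exact ⟨Metric.ball z (r / 4), Metric.ball_mem_nhds _ (by positivity), G.wlim_loc hR hr hsub hε⟩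
  refine hKc.induction_on (p := fun S => ∃ δ0 > 0, ∀ δ : ℝ, 0 < δ → δ < δ0 → ∀ᶠ j in (U : Filter ℕ),
      ∀ v : ℤ × ℤ, lat v / (R j : ℂ) ∈ S → ‖av ⌊δ * R j⌋₊ (f j) v - gL H (lat v / (R j : ℂ))‖ ≤ ε)
    ?_ ?_ ?_ ?_
  · exact ⟨1, one_pos, fun δ _ _ => Eventually.of_forall fun j v hv => absurd hv (Set.notMem_empty _)⟩
  · rintro s t hst ⟨δ0, h0, h1⟩
    refine ⟨δ0, h0, fun δ a b => ?_⟩
    filter_upwards [h1 δ a b] with j hj v hv
    exact hj v (hst hv)
  · rintro s t ⟨δ0, h0, h1⟩ ⟨δ1, h2, h3⟩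
    refine ⟨min δ0 δ1, lt_min h0 h2, fun δ a b => ?_⟩
    filter_upwards [h1 δ a (b.trans_le (min_le_left _ _)), h3 δ a (b.trans_le (min_le_right _ _))]
      with j p q v hv
    rcases hv with hv | hv
    · exact p v hv
    · exact q v hv
  · intro z hz
    obtain ⟨V, hV, h1⟩ := h z hz
    exact ⟨V, mem_nhdsWithin_of_mem_nhds hV, h1⟩

end Pool.Agent.H44.W
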