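import Mathlib
import Pool.Agent.H44.W.CloseHol

set_option autoImplicit false
open Filter Topology Set MeasureTheory

/-! # Closing of the S-property

`hol4` : natural inputs and the output of the chapters A, B, C for an over-line imply that the box averages of the
functional converge to a holomorphic function; `antihol4` : under-line. `WLim.osc` : values near the boundary. -/

namespace Pool.Agent.H44.W

open Pool.Agent.Q1.M4 (lat)
open Pool.Agent.Q1.M6f.Glue (uu rr ILim)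
open Pool.Agent.H44.FM.WG (Sh lat_sub')
open G4

variable {R : ℕ → ℝ} {Ω : Set ℂ} {U : Ultrafilter ℕ} {M : ℝ} {h : Bool → Finset G4 → ℕ → ℤ × ℤ → ℂ}

lemma nst_ball {z0 : ℂ} {r δ : ℝ} (hsub : Metric.closedBall z0 (8 * r) ⊆ Ω) (hδ : δ ≤ r) :
    Nst δ Ω (Metric.closedBall z0 (8 * r)) (Metric.ball z0 (5 * r)) (Metric.ball z0 (2 * r)) where
  sub := hsub
  cpt := isCompact_closedBall _ _
  i1 := by
    intro z hz w hw
    rw [Metric.mem_ball, dist_eq_norm] at hz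
    rw [Metric.mem_closedBall, dist_eq_norm]
    have : ‖w - z0‖ ≤ ‖w - z‖ + ‖z - z0‖ := by
      calc ‖w - z0‖ = ‖(w - z) + (z - z0)‖ := by congr 1; ring
        _ ≤ _ := norm_add_le _ _
    linarith
  i2 := by
    intro z hz w hw
    rw [Metric.mem_ball, dist_eq_norm] at hz ⊢
    have : ‖w - z0‖ ≤ ‖w - z‖ + ‖z - z0‖ := by
      calc ‖w - z0‖ = ‖(w - z) + (z - z0)‖ := by congr 1; ring
        _ ≤ _ := norm_add_le _ _
    linarith

section

variable {F : Filter ℕ} {f : ℕ → ℤ × ℤ → ℂ} {δ : ℝ} {K0 Ω1 Ω2 : Set ℂ}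

/-- the double averages are bounded and Lipschitz -/
lemma A2_bdd (hR : Tendsto R F atTop) (hδ : 0 < δ) (hN : Nst δ Ω K0 Ω1 Ω2) (hM : 0 ≤ M)
    (hb : Bdd R F Ω M f) : ∀ᶠ j in F, ∀ v : ℤ × ℤ, lat v / (R j : ℂ) ∈ Ω2 → ‖A2 R δ f j v‖ ≤ M :=
  bdd_av hR hδ hN.i2 hM (bdd_av hR hδ hN.i1 hM (hb K0 hN.sub hN.cpt))

lemma A2_lip (hR : Tendsto R F atTop) (hδ : 0 < δ) (hN : Nst δ Ω K0 Ω1 Ω2) (hM : 0 ≤ M)
    (hb : Bdd R F Ω M f) : LipR R F Ω2 (8 * M / δ) (A2 R δ f) := by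
  filter_upwards [bdd_av hR hδ hN.i1 hM (hb K0 hN.sub hN.cpt), sd_ev hR hδ] with j h1 h2 v v' hv hv'
  obtain ⟨hr, hm1, hm2, hm3, hm4⟩ := h2
  have hm0 : (0 : ℝ) < sd R δ j := by exact_mod_cast hm1
  refine (av_lip hm1 hM (fun w hw => h1 w (hN.i2.mem_bx hr hm3 hm4 hv hw))
    (fun w hw => h1 w (hN.i2.mem_bx hr hm3 hm4 hv' hw))).trans ?_
  rw [div_le_iff₀ hm0]
  have a1 := lat_dist (R j) hr v v'
  have hn : 0 ≤ ‖lat v / (R j : ℂ) - lat v' / (R j : ℂ)‖ := norm_nonneg _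
  calc 2 * M * (|((v.1 - v'.1 : ℤ) : ℝ)| + |((v.2 - v'.2 : ℤ) : ℝ)|) ≤
      2 * M * (2 * R j * ‖lat v / (R j : ℂ) - lat v' / (R j : ℂ)‖) := by gcongr
    _ = 8 * M / δ * ‖lat v / (R j : ℂ) - lat v' / (R j : ℂ)‖ * (δ * R j / 2) := by field_simp; ring
    _ ≤ 8 * M / δ * ‖lat v / (R j : ℂ) - lat v' / (R j : ℂ)‖ * sd R δ j := by gcongr

end

/-- the relation of the track for the responses of the natural windows -/
theorem rel4_of_trk {κ : ℂ} {F : Filter ℕ} (hR : Tendsto R F atTop) {V : ℕ → ℕ → ℤ × ℤ → ℂ}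
    {e A B B' : ℕ → ℤ × ℤ → ℂ} (T : Trk4 κ R F Ω V e A B B')
    (hA : LA R F Ω A (X4 h false fo - X4 h true ce)) (hB : LA R F Ω B (X4 h false le))
    (hB' : LA R F Ω B' (X4 h false ri)) : Rel4 κ R F Ω h :=
  (((hB.sub hB').smul κ).symm.trans (T.rel hR)).trans hA

/-- the limits of the double averages -/
theorem good4 (hR : Tendsto R U atTop) (hΩ : IsOpen Ω) (hM : 0 ≤ M) (N : Nat4 R U Ω M h)
    (hr : Rel4 Complex.I R U Ω h) (p : Bool) :
    Good R U Ω M (h p ∅) fun δ => ulim R U (A2 R δ (h false ∅)) := by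
  refine ⟨N.bdd p ∅, hM, ?_, ?_, ?_⟩
  · intro z0 r hr0 hsub δ hδ hδr
    have hN := nst_ball hsub hδr
    have hb := A2_bdd hR hδ hN hM (N.bdd false ∅)
    have hl := A2_lip hR hδ hN hM (N.bdd false ∅)
    have hI := ilim_ulim hR Metric.isOpen_ball hb hl
    obtain ⟨f1, f2, k1, k2, k3⟩ := cr_av hR hΩ hδ hN hM N hr
    exact morera_I hR Metric.isOpen_ball (ILim.congr Metric.isOpen_ball hI k1) (ILim.congr Metric.isOpen_ball hI k2)
      (ulim_cont hR Metric.isOpen_ball hb hl) k3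
  · intro z0 r hr0 hsub δ hδ hδr z hz
    have hN := nst_ball hsub hδr
    exact norm_ulim_le hR Metric.isOpen_ball (A2_bdd hR hδ hN hM (N.bdd false ∅)) hz
  · intro z0 r hr0 hsub δ hδ hδr
    have hN := nst_ball hsub hδr
    have hb := A2_bdd hR hδ hN hM (N.bdd false ∅)
    have hl := A2_lip hR hδ hN hM (N.bdd false ∅)
    have hI := ilim_ulim hR Metric.isOpen_ball hb hl
    cases p with
    | false => exact hI
    | true =>
      refine ILim.congr Metric.isOpen_ball hI ?_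
      rw [← A2_sub]
      exact N.worlds hR hδ hN hM

/-- **Closing of the S-property**, relation form. -/
theorem hol4_of_rel (hR : Tendsto R U atTop) (hΩ : IsOpen Ω) (hM : 0 ≤ M) (N : Nat4 R U Ω M h)
    (hr : Rel4 Complex.I R U Ω h) : ∃ g : ℂ → ℂ, DifferentiableOn ℂ g Ω ∧ (∀ z ∈ Ω, ‖g z‖ ≤ M) ∧
      ∀ p, WLim R U Ω (h p ∅) g :=
  ⟨_, (good4 hR hΩ hM N hr false).gL_dif' hR hΩ, fun _ hz => (good4 hR hΩ hM N hr false).gL_norm hR hΩ hz,
    fun p => (good4 hR hΩ hM N hr p).wlim hR hΩ⟩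

/-- **Closing of the S-property**: over-line. -/
theorem hol4 (hR : Tendsto R U atTop) (hΩ : IsOpen Ω) (hM : 0 ≤ M) (N : Nat4 R U Ω M h)
    {V : ℕ → ℕ → ℤ × ℤ → ℂ} {e A B B' : ℕ → ℤ × ℤ → ℂ} (T : Trk4 Complex.I R U Ω V e A B B')
    (hA : LA R U Ω A (X4 h false fo - X4 h true ce)) (hB : LA R U Ω B (X4 h false le))
    (hB' : LA R U Ω B' (X4 h false ri)) : ∃ g : ℂ → ℂ, DifferentiableOn ℂ g Ω ∧ (∀ z ∈ Ω, ‖g z‖ ≤ M) ∧
      ∀ p, WLim R U Ω (h p ∅) g :=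
  hol4_of_rel hR hΩ hM N (rel4_of_trk hR T hA hB hB')

/-! ### Complex conjugation -/

/-- the conjugate -/
def Cj (A : ℕ → ℤ × ℤ → ℂ) : ℕ → ℤ × ℤ → ℂ := fun j v => (starRingEnd ℂ) (A j v)

section

variable {F : Filter ℕ} {A B : ℕ → ℤ × ℤ → ℂ}

lemma norm_Cj_sub (A B : ℕ → ℤ × ℤ → ℂ) (j : ℕ) (v : ℤ × ℤ) : ‖Cj B j v - Cj A j v‖ = ‖B j v - A j v‖ := by
  unfold Cj
  rw [← map_sub, Complex.norm_conj]

lemma LA.cj (h : LA R F Ω A B) : LA R F Ω (Cj A) (Cj B) :=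
  LA.of_le 1 zero_le_one h fun j v => by rw [norm_Cj_sub, one_mul]

lemma LZ.cj (h : LZ R F Ω A) : LZ R F Ω (Cj A) := h.of_eq_norm fun j v => by
  unfold Cj; rw [Complex.norm_conj]

lemma Bdd.cj {M : ℝ} (h : Bdd R F Ω M A) : Bdd R F Ω M (Cj A) := by
  intro K hK hKc
  filter_upwards [h K hK hKc] with j hj v hv
  unfold Cj; rw [Complex.norm_conj]; exact hj v hv

lemma Cj_sub : Cj (A - B) = Cj A - Cj B := by
  funext j v; simp [Cj]
lemma Cj_smul (c : ℂ) : Cj (c • A) = (starRingEnd ℂ) c • Cj A := by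
  funext j v; simp [Cj]
lemma Cj_Sh (d : ℤ × ℤ) : Cj (Sh d A) = Sh d (Cj A) := rfl
lemma Cj_Cj : Cj (Cj A) = A := by
  funext j v; simp [Cj]

lemma X4_cj (p : Bool) (g : G4) : X4 (fun p s => Cj (h p s)) p g = Cj (X4 h p g) := by
  unfold X4; rw [Cj_sub]

lemma av_cj (m : ℕ) (f : ℤ × ℤ → ℂ) (v : ℤ × ℤ) :
    av m (fun w => (starRingEnd ℂ) (f w)) v = (starRingEnd ℂ) (av m f v) := by
  unfold av
  rw [map_mul, map_sum]
  congr 1
  · simp
  · refine Finset.sum_congr rfl fun k _ => ?_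
    rw [map_sum]

lemma WLim.cj {f : ℕ → ℤ × ℤ → ℂ} {g : ℂ → ℂ} (h : WLim R F Ω f g) :
    WLim R F Ω (Cj f) fun z => (starRingEnd ℂ) (g z) := by
  intro K hK hKc ε hε
  obtain ⟨δ0, h0, h1⟩ := h K hK hKc ε hε
  refine ⟨δ0, h0, fun δ a b => ?_⟩
  filter_upwards [h1 δ a b] with j hj v hv
  have e : av ⌊δ * R j⌋₊ (Cj f j) v = (starRingEnd ℂ) (av ⌊δ * R j⌋₊ (f j) v) := av_cj _ _ _
  rw [e, ← map_sub, Complex.norm_conj]
  exact hj v hv

theorem Nat4.cj {M : ℝ} (N : Nat4 R F Ω M h) : Nat4 R F Ω M (fun p s => Cj (h p s)) where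
  bdd := fun p s => (N.bdd p s).cj
  xb := fun p g => by rw [X4_cj]; exact (N.xb p g).cj
  mix := fun p a ha g hg => by
    rw [X4_cj, ← Cj_sub]; exact (N.mix p a ha g hg).cj
  s1 := fun p => (N.s1 p).cj
  s1' := fun p g hg => (N.s1' p g hg).cj
  s2 := fun p => (N.s2 p).cj
  s2' := fun p a ha => (N.s2' p a ha).cj

end

/-- **Closing of the S-property**, relation form, under-line. -/
theorem antihol4_of_rel (hR : Tendsto R U atTop) (hΩ : IsOpen Ω) (hM : 0 ≤ M) (N : Nat4 R U Ω M h)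
    (hr : Rel4 (-Complex.I) R U Ω h) : ∃ g : ℂ → ℂ, DifferentiableOn ℂ (fun z => (starRingEnd ℂ) (g z)) Ω ∧
      (∀ z ∈ Ω, ‖g z‖ ≤ M) ∧ ∀ p, WLim R U Ω (h p ∅) g := by
  have hr' : Rel4 Complex.I R U Ω (fun p s => Cj (h p s)) := by
    unfold Rel4
    have k := hr.cj
    rw [Cj_smul, map_neg, Complex.conj_I, neg_neg, Cj_sub, Cj_sub] at k
    rw [X4_cj, X4_cj, X4_cj, X4_cj]
    exact k
  obtain ⟨g, g1, g2, g3⟩ := hol4_of_rel hR hΩ hM N.cj hr'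
  refine ⟨fun z => (starRingEnd ℂ) (g z), ?_, ?_, ?_⟩
  · simpa using g1
  · intro z hz
    rw [Complex.norm_conj]; exact g2 z hz
  · intro p
    have k := (g3 p).cj
    rw [Cj_Cj] at k
    exact k

/-- **Closing of the S-property**: under-line. -/
theorem antihol4 (hR : Tendsto R U atTop) (hΩ : IsOpen Ω) (hM : 0 ≤ M) (N : Nat4 R U Ω M h)
    {V : ℕ → ℕ → ℤ × ℤ → ℂ} {e A B B' : ℕ → ℤ × ℤ → ℂ} (T : Trk4 (-Complex.I) R U Ω V e A B B')
    (hA : LA R U Ω A (X4 h false fo - X4 h true ce)) (hB : LA R U Ω B (X4 h false le))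
    (hB' : LA R U Ω B' (X4 h false ri)) : ∃ g : ℂ → ℂ,
      DifferentiableOn ℂ (fun z => (starRingEnd ℂ) (g z)) Ω ∧ (∀ z ∈ Ω, ‖g z‖ ≤ M) ∧
      ∀ p, WLim R U Ω (h p ∅) g :=
  antihol4_of_rel hR hΩ hM N (rel4_of_trk hR T hA hB hB')

/-! ### Values of the limit -/

/-- The lattice point next to `z`. -/
lemma fl_mem {F : Filter ℕ} (hR : Tendsto R F atTop) {V : Set ℂ} (hV : IsOpen V) {z : ℂ} (hz : z ∈ V) :
    ∀ᶠ j in F, lat (fl (R j) z) / (R j : ℂ) ∈ V := (fl_tendsto hR z).eventually (hV.mem_nhds hz)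

/-- **Values of the limit**: if the raw functions are `ε`-close to a constant in an open set, so is the limit. -/
theorem WLim.osc {f : ℕ → ℤ × ℤ → ℂ} {g : ℂ → ℂ} (hR : Tendsto R U atTop) (hΩ : IsOpen Ω)
    (hg : ContinuousOn g Ω) (h : WLim R U Ω f g) {V : Set ℂ} (hV : IsOpen V) (hVΩ : V ⊆ Ω) {c : ℕ → ℂ}
    {c0 : ℂ} (hc : Tendsto c U (𝓝 c0)) {ε : ℝ} (hf : ∀ᶠ j in (U : Filter ℕ), ∀ v : ℤ × ℤ,
      lat v / (R j : ℂ) ∈ V → ‖f j v - c j‖ ≤ ε) {z : ℂ} (hz : z ∈ V) : ‖g z - c0‖ ≤ ε := by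
  refine le_of_forall_pos_le_add fun ε' hε' => ?_
  obtain ⟨s, hs, hsub⟩ := Metric.isOpen_iff.1 hV z hz
  have hK : Metric.closedBall z (s / 4) ⊆ Ω :=
    ((Metric.closedBall_subset_ball (by linarith)).trans hsub).trans hVΩ
  obtain ⟨δ0, h0, h1⟩ := h _ hK (isCompact_closedBall _ _) (ε' / 3) (by positivity)
  set δ : ℝ := min δ0 (s / 4) / 2 with hδd
  have hm : 0 < min δ0 (s / 4) := lt_min h0 (by positivity)
  have hδ : 0 < δ := by positivity
  have l1 : δ < δ0 := by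
    have := min_le_left δ0 (s / 4); rw [hδd]; linarith
  have l2 : δ < s / 4 := by
    have := min_le_right δ0 (s / 4); rw [hδd]; linarith
  have hgc : Tendsto (fun j => g (lat (fl (R j) z) / (R j : ℂ))) U (𝓝 (g z)) :=
    ((hg.continuousAt (hΩ.mem_nhds (hVΩ hz))).tendsto).comp (fl_tendsto hR z)
  have e1 : ∀ᶠ j in (U : Filter ℕ), ‖g (lat (fl (R j) z) / (R j : ℂ)) - g z‖ < ε' / 3 := by
    have := (tendsto_iff_norm_sub_tendsto_zero.1 hgc).eventually_lt_const (show 0 < ε' / 3 by positivity)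
    exact this
  have e2 : ∀ᶠ j in (U : Filter ℕ), ‖c j - c0‖ < ε' / 3 :=
    (tendsto_iff_norm_sub_tendsto_zero.1 hc).eventually_lt_const (show 0 < ε' / 3 by positivity)
  obtain ⟨j, a1, a2, a3, a4, a5, a6⟩ := ((h1 δ hδ l1).and (e1.and (e2.and (hf.and ((sd_ev hR hδ).and
    (fl_mem hR (Metric.isOpen_ball (x := z) (ε := s / 4)) (Metric.mem_ball_self (by positivity)))))))).exists
  obtain ⟨hr, hm1, hm2, hm3, hm4⟩ := a5
  have hz0 : ‖lat (fl (R j) z) / (R j : ℂ) - z‖ < s / 4 := by rwa [Metric.mem_ball, dist_eq_norm] at a6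
  have b1 := a1 (fl (R j) z) (Metric.ball_subset_closedBall a6)
  have b2 : ‖av ⌊δ * R j⌋₊ (f j) (fl (R j) z) - c j‖ ≤ ε := by
    have hε0 : 0 ≤ ε := by
      refine (norm_nonneg _).trans (a4 (fl (R j) z) (hsub ?_))
      exact Metric.ball_subset_ball (by linarith) a6
    refine av_const_le hm1 hε0 fun w hw => a4 w (hsub ?_)
    have k1 := bx_near hw hr
    have k2 : 2 * (sd R δ j : ℝ) / R j ≤ 2 * δ := by rw [div_le_iff₀ hr]; linarith
    have k3 : ‖lat w / (R j : ℂ) - lat (fl (R j) z) / (R j : ℂ)‖ ≤ 2 * δ := k1.trans k2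
    rw [Metric.mem_ball, dist_eq_norm]
    calc ‖lat w / (R j : ℂ) - z‖ = ‖(lat w / (R j : ℂ) - lat (fl (R j) z) / (R j : ℂ)) +
        (lat (fl (R j) z) / (R j : ℂ) - z)‖ := by congr 1; ring
      _ ≤ _ := norm_add_le _ _
      _ < s := by linarith
  calc ‖g z - c0‖ = ‖(av ⌊δ * R j⌋₊ (f j) (fl (R j) z) - c j) + (c j - c0) -
      (av ⌊δ * R j⌋₊ (f j) (fl (R j) z) - g (lat (fl (R j) z) / (R j : ℂ))) -
      (g (lat (fl (R j) z) / (R j : ℂ)) - g z)‖ := by congr 1; ring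
    _ ≤ ‖av ⌊δ * R j⌋₊ (f j) (fl (R j) z) - c j‖ + ‖c j - c0‖ +
      ‖av ⌊δ * R j⌋₊ (f j) (fl (R j) z) - g (lat (fl (R j) z) / (R j : ℂ))‖ +
      ‖g (lat (fl (R j) z) / (R j : ℂ)) - g z‖ := by
        refine (norm_sub_le _ _).trans (add_le_add ((norm_sub_le _ _).trans (add_le_add (norm_add_le _ _)
          le_rfl)) le_rfl)
    _ ≤ ε + ε' := by linarith

/-- uniqueness of the weak limit -/
theorem WLim.unique {f : ℕ → ℤ × ℤ → ℂ} {g g' : ℂ → ℂ} (hR : Tendsto R U atTop) (hΩ : IsOpen Ω)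
    (hg : ContinuousOn g Ω) (hg' : ContinuousOn g' Ω) (h : WLim R U Ω f g) (h' : WLim R U Ω f g')
    {z : ℂ} (hz : z ∈ Ω) : g z = g' z := by
  obtain ⟨s, hs, hsub⟩ := Metric.isOpen_iff.1 hΩ z hz
  have hK : Metric.closedBall z (s / 4) ⊆ Ω := (Metric.closedBall_subset_ball (by linarith)).trans hsub
  have t1 : Tendsto (fun j => g (lat (fl (R j) z) / (R j : ℂ))) U (𝓝 (g z)) :=
    ((hg.continuousAt (hΩ.mem_nhds hz)).tendsto).comp (fl_tendsto hR z)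
  have t2 : Tendsto (fun j => g' (lat (fl (R j) z) / (R j : ℂ))) U (𝓝 (g' z)) :=
    ((hg'.continuousAt (hΩ.mem_nhds hz)).tendsto).comp (fl_tendsto hR z)
  have t3 := (t1.sub t2).norm
  have h0 : ‖g z - g' z‖ ≤ 0 := by
    refine le_of_forall_pos_le_add fun ε hε => ?_
    obtain ⟨δ0, d0, h1⟩ := h _ hK (isCompact_closedBall _ _) (ε / 2) (by positivity)
    obtain ⟨δ1, d1, h2⟩ := h' _ hK (isCompact_closedBall _ _) (ε / 2) (by positivity)
    have hm : 0 < min δ0 δ1 := lt_min d0 d1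
    refine le_of_tendsto t3 ?_
    filter_upwards [h1 (min δ0 δ1 / 2) (by positivity) (by have := min_le_left δ0 δ1; linarith),
      h2 (min δ0 δ1 / 2) (by positivity) (by have := min_le_right δ0 δ1; linarith),
      fl_mem hR (Metric.isOpen_ball (x := z) (ε := s / 4)) (Metric.mem_ball_self (by positivity))] with j a b c
    have b1 := a _ (Metric.ball_subset_closedBall c)
    have b2 := b _ (Metric.ball_subset_closedBall c)
    calc ‖g (lat (fl (R j) z) / (R j : ℂ)) - g' (lat (fl (R j) z) / (R j : ℂ))‖ =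
        ‖(av ⌊min δ0 δ1 / 2 * R j⌋₊ (f j) (fl (R j) z) - g' (lat (fl (R j) z) / (R j : ℂ))) -
        (av ⌊min δ0 δ1 / 2 * R j⌋₊ (f j) (fl (R j) z) - g (lat (fl (R j) z) / (R j : ℂ)))‖ := by
          congr 1; ring
      _ ≤ _ := norm_sub_le _ _
      _ ≤ 0 + ε := by linarith
  exact sub_eq_zero.1 (norm_eq_zero.1 (le_antisymm h0 (norm_nonneg _)))

end Pool.Agent.H44.W
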