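import Mathlib
import Pool.Agent.H44.W.Close

set_option autoImplicit false
open Filter Topology Set MeasureTheory

/-! # Closing of the S-property, both parities

`Trk5` : the output of the chapters A, B, C for the moved line, no condition on `e` in the mean (`Trk4` without
`ee`). `Trk5.rel` : the relation of the responses after averaging. `NatH`, `NatV` : natural inputs of the windows
`N q p s` of both parities `q` (`p` : world, `s` : pushed groups), without mixed differences. `NatH` : coordinates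
in which the string goes up (floors `fo`, ceiling `ce`, left walls `le`, right walls `ri`); `NatV` : coordinates in
which the string goes to the right (left walls `fo`, right wall `ce`, ceilings `le`, floors `ri`).
`hol5H`, `hol5V`, `antihol5H`, `antihol5V` : the box averages converge to a holomorphic (antiholomorphic)
function. -/

namespace Pool.Agent.H44.W

open Pool.Agent.Q1.M4 (lat)
open Pool.Agent.Q1.M6f.Glue (uu rr ILim)
open Pool.Agent.H44.FM.WG (Sh sh_add sh_sub sh_smul lat_sub')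
open G4

variable {R : ℕ → ℝ} {F : Filter ℕ} {Ω : Set ℂ}

/-- **Input for the line.** `V j n` is the difference `h_low - h_up` at the rapidity `π / 2 + i log n`, `e` the
same for the natural environments, `A`, `B`, `B'` the responses (low minus up) of the walls passed in direction
E, S, N; `κ = i` for an over-line, `κ = -i` for an under-line. -/
structure Trk5 (κ : ℂ) (R : ℕ → ℝ) (F : Filter ℕ) (Ω : Set ℂ) (V : ℕ → ℕ → ℤ × ℤ → ℂ)
    (e A B B' : ℕ → ℤ × ℤ → ℂ) : Prop where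
  ab : ∀ K ⊆ Ω, IsCompact K → ∃ ρ1 > 0, ∀ ρ : ℝ, 0 < ρ → ρ < ρ1 → ∀ ε > 0, ∀ᶠ j in F,
    ∀ S : Finset (ℤ × ℤ), (∀ v ∈ S, lat v / (R j : ℂ) ∈ K) → ∑ v ∈ S, ‖V j ⌊ρ * R j⌋₊ v‖ ≤ ε * R j ^ 2
  cc : ∀ K ⊆ Ω, IsCompact K → ∃ c : ℝ, 0 < c ∧ ∀ ε > 0, ∃ ρ1 > 0, ∀ ρ : ℝ, 0 < ρ → ρ < ρ1 →
    ∀ᶠ j in F, ∃ g0 gp gm : ℂ, c ≤ ‖g0‖ ∧ ‖gp + κ * g0‖ ≤ ε ∧ ‖gm - κ * g0‖ ≤ ε ∧
    ∀ S : Finset (ℤ × ℤ), (∀ v ∈ S, lat v / (R j : ℂ) ∈ K) →
    ∑ v ∈ S, ‖V j ⌊ρ * R j⌋₊ v - e j v -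
      (⌊ρ * R j⌋₊ : ℂ) * (g0 * A j v + gp * B j v + gm * B' j v)‖ ≤ ε * ρ * R j ^ 2
  bB : LO R F Ω B
  bB' : LO R F Ω B'

lemma Trk4.t5 {κ : ℂ} {V : ℕ → ℕ → ℤ × ℤ → ℂ} {e A B B' : ℕ → ℤ × ℤ → ℂ}
    (h : Trk4 κ R F Ω V e A B B') : Trk5 κ R F Ω V e A B B' := ⟨h.ab, h.cc, h.bB, h.bB'⟩

/-! ### The relation after averaging -/

section rel

variable {δ : ℝ} {K0 K2 Ω1 Ω2 : Set ℂ}

/-- from sums to averages -/
lemma av_le_of_sum (hδ : 0 < δ) (hI : Inn δ K2 Ω1) {j : ℕ} (h : 0 < R j ∧ 1 ≤ sd R δ j ∧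
    (δ * R j) / 2 ≤ sd R δ j ∧ (sd R δ j : ℝ) ≤ δ * R j ∧ 1 ≤ δ * R j) {f : ℤ × ℤ → ℂ} {s : ℝ}
    (hf : ∀ S : Finset (ℤ × ℤ), (∀ v ∈ S, lat v / (R j : ℂ) ∈ K2) → ∑ v ∈ S, ‖f v‖ ≤ s)
    {v : ℤ × ℤ} (hv : lat v / (R j : ℂ) ∈ Ω1) : ‖av (sd R δ j) f v‖ ≤ 4 * s / (δ * R j) ^ 2 := by
  obtain ⟨hr, hm1, hm2, hm3, hm4⟩ := h
  refine (norm_av_le _ _ _).trans ?_
  have k := hf (bx (sd R δ j) v) fun w hw => hI.mem_bx hr hm3 hm4 hv hw
  have hmr : (0 : ℝ) < sd R δ j := by exact_mod_cast hm1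
  have h5 : (δ * R j / 2) * (δ * R j / 2) ≤ (sd R δ j : ℝ) * sd R δ j := by gcongr
  calc 1 / ((sd R δ j : ℝ) * sd R δ j) * ∑ w ∈ bx (sd R δ j) v, ‖f w‖ ≤
      1 / ((δ * R j / 2) * (δ * R j / 2)) * s := by
        refine mul_le_mul (one_div_le_one_div_of_le (by positivity) h5) k ?_ (by positivity)
        exact Finset.sum_nonneg fun _ _ => norm_nonneg _
    _ = 4 * s / (δ * R j) ^ 2 := by field_simp; ring

/-- from sums to double averages -/
lemma av2_le_of_sum (hδ : 0 < δ) (hN : Nst δ Ω K0 Ω1 Ω2) {j : ℕ} (h : 0 < R j ∧ 1 ≤ sd R δ j ∧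
    (δ * R j) / 2 ≤ sd R δ j ∧ (sd R δ j : ℝ) ≤ δ * R j ∧ 1 ≤ δ * R j) {f : ℤ × ℤ → ℂ} {s : ℝ} (hs : 0 ≤ s)
    (hf : ∀ S : Finset (ℤ × ℤ), (∀ v ∈ S, lat v / (R j : ℂ) ∈ K0) → ∑ v ∈ S, ‖f v‖ ≤ s)
    {v : ℤ × ℤ} (hv : lat v / (R j : ℂ) ∈ Ω2) :
    ‖av (sd R δ j) (av (sd R δ j) f) v‖ ≤ 4 * s / (δ * R j) ^ 2 :=
  norm_av_le_of (by have := h.1; positivity) fun _ hw =>
    av_le_of_sum hδ hN.i1 h hf (hN.i2.mem_bx h.1 h.2.2.2.1 h.2.2.2.2 hv hw)

/-- double averages of a function which is `O (1 / R)` in the mean -/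
lemma LO.a2 {A : ℕ → ℤ × ℤ → ℂ} (hR : Tendsto R F atTop) (hδ : 0 < δ) (hN : Nst δ Ω K0 Ω1 Ω2)
    (h : LO R F Ω A) : ∃ C : ℝ, 0 ≤ C ∧ ∀ᶠ j in F, ∀ v : ℤ × ℤ, lat v / (R j : ℂ) ∈ Ω2 →
      ‖A2 R δ A j v‖ ≤ C / R j := by
  obtain ⟨C, hC⟩ := h K0 hN.sub hN.cpt
  refine ⟨4 * |C| / δ ^ 2, by positivity, ?_⟩
  filter_upwards [hC, sd_ev hR hδ] with j h1 h2 v hv
  have hr := h2.1
  have k := av2_le_of_sum (s := |C| * R j) hδ hN h2 (by positivity)
    (fun S hS => (h1 S hS).trans (mul_le_mul_of_nonneg_right (le_abs_self C) hr.le)) hv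
  refine k.trans (le_of_eq ?_)
  field_simp

/-- **The relation of the responses, after averaging.** -/
theorem Trk5.rel {κ : ℂ} (hR : Tendsto R F atTop) (hδ : 0 < δ) (hN : Nst δ Ω K0 Ω1 Ω2)
    {V : ℕ → ℕ → ℤ × ℤ → ℂ} {e A B B' : ℕ → ℤ × ℤ → ℂ} (h : Trk5 κ R F Ω V e A B B')
    (he : PZ R F Ω2 (A2 R δ e)) : Q2 R F δ Ω2 (κ • (B - B')) A := by
  intro ε hε
  obtain ⟨c, hc, hcc⟩ := h.cc K0 hN.sub hN.cpt
  obtain ⟨C1, hC10, hC1⟩ := h.bB.a2 hR hδ hN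
  obtain ⟨C2, hC20, hC2⟩ := h.bB'.a2 hR hδ hN
  obtain ⟨ρ2, hρ2, hab⟩ := h.ab K0 hN.sub hN.cpt
  -- bound of the errors
  set ε2 : ℝ := c * ε / (6 + C1 + C2) with hε2
  have hε2p : 0 < ε2 := by positivity
  set ε1 : ℝ := min ε2 (ε2 * δ ^ 2 / 4) with hε1
  have hε1p : 0 < ε1 := lt_min hε2p (by positivity)
  obtain ⟨ρ3, hρ3, hcc⟩ := hcc ε1 hε1p
  set ρ : ℝ := min ρ2 ρ3 / 2 with hρ
  have hm : 0 < min ρ2 ρ3 := lt_min hρ2 hρ3
  have hρ0 : 0 < ρ := by rw [hρ]; positivity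
  have hρm : ρ < min ρ2 ρ3 := by rw [hρ]; linarith
  have l2 : ρ < ρ2 := hρm.trans_le (min_le_left _ _)
  have l3 : ρ < ρ3 := hρm.trans_le (min_le_right _ _)
  filter_upwards [he (ε2 * ρ) (by positivity), hab ρ hρ0 l2 (ε1 * ρ) (by positivity),
    hcc ρ hρ0 l3, hC1, hC2, hR.eventually_gt_atTop 0, hR.eventually_gt_atTop (2 / ρ), sd_ev hR hδ] with
    j h3 h4 h5 h8 h9 h6 h7 hsd v hv
  set n : ℕ := ⌊ρ * R j⌋₊ with hn
  have hρR : 2 < ρ * R j := by rw [div_lt_iff₀ hρ0] at h7; linarith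
  have hnlt := Nat.lt_floor_add_one (ρ * R j)
  rw [← hn] at hnlt
  have hn2 : ρ * R j / 2 ≤ n := by linarith
  obtain ⟨g0, gp, gm, c0, c1, c2, h5⟩ := h5
  set m : ℕ := sd R δ j with hmd
  set a : ℂ := A2 R δ A j v with ha
  set b : ℂ := A2 R δ B j v with hb
  set b' : ℂ := A2 R δ B' j v with hb'
  -- averages of the error
  have hsum : 4 * (ε1 * ρ * R j ^ 2) / (δ * R j) ^ 2 ≤ ε2 * ρ := by
    have e1 : 4 * (ε1 * ρ * R j ^ 2) / (δ * R j) ^ 2 = ε1 * (4 / δ ^ 2) * ρ := by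
      field_simp
    rw [e1]
    have e2 : ε1 * (4 / δ ^ 2) ≤ ε2 := by
      have := min_le_right ε2 (ε2 * δ ^ 2 / 4)
      rw [← hε1] at this
      calc ε1 * (4 / δ ^ 2) ≤ (ε2 * δ ^ 2 / 4) * (4 / δ ^ 2) := by gcongr
        _ = ε2 := by field_simp
    exact mul_le_mul_of_nonneg_right e2 hρ0.le
  have kV := av2_le_of_sum (f := fun v => V j n v) hδ hN hsd (by positivity) h4 hv
  have kD := av2_le_of_sum (f := fun v => V j n v - e j v - (n : ℂ) * (g0 * A j v + gp * B j v + gm * B' j v))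
    hδ hN hsd (by positivity) h5 hv
  have eD : av m (av m (fun v => V j n v - e j v - (n : ℂ) * (g0 * A j v + gp * B j v + gm * B' j v))) v =
      av m (av m (fun v => V j n v)) v - A2 R δ e j v - (n : ℂ) * (g0 * a + gp * b + gm * b') := by
    have e1 : (fun v => V j n v - e j v - (n : ℂ) * (g0 * A j v + gp * B j v + gm * B' j v)) =
        (fun v => V j n v) - e j - (n : ℂ) • (g0 • A j + gp • B j + gm • B' j) := by
      funext w
      simp only [Pi.sub_apply, Pi.smul_apply, Pi.add_apply, smul_eq_mul]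
    rw [e1]
    simp only [av_sub, av_smul, av_add]
    rfl
  rw [eD] at kD
  have k4 : (n : ℝ) * ‖g0 * a + gp * b + gm * b'‖ ≤ 3 * ε2 * ρ := by
    have e0 : (n : ℂ) * (g0 * a + gp * b + gm * b') = av m (av m (fun v => V j n v)) v - A2 R δ e j v -
        (av m (av m (fun v => V j n v)) v - A2 R δ e j v - (n : ℂ) * (g0 * a + gp * b + gm * b')) := by ring
    calc (n : ℝ) * ‖g0 * a + gp * b + gm * b'‖ = ‖(n : ℂ) * (g0 * a + gp * b + gm * b')‖ := by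
          rw [norm_mul, Complex.norm_natCast]
      _ = ‖av m (av m (fun v => V j n v)) v - A2 R δ e j v -
        (av m (av m (fun v => V j n v)) v - A2 R δ e j v - (n : ℂ) * (g0 * a + gp * b + gm * b'))‖ := by
          rw [← e0]
      _ ≤ ‖av m (av m (fun v => V j n v)) v - A2 R δ e j v‖ + ‖av m (av m (fun v => V j n v)) v -
        A2 R δ e j v - (n : ℂ) * (g0 * a + gp * b + gm * b')‖ := norm_sub_le _ _
      _ ≤ (‖av m (av m (fun v => V j n v)) v‖ + ‖A2 R δ e j v‖) + _ := by gcongr; exact norm_sub_le _ _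
      _ ≤ (ε2 * ρ + ε2 * ρ) + ε2 * ρ := by
          gcongr
          · exact kV.trans hsum
          · exact h3 v hv
          · exact kD.trans hsum
      _ = 3 * ε2 * ρ := by ring
  have k5 : ‖g0 * a + gp * b + gm * b'‖ ≤ 6 * ε2 / R j := by
    rw [le_div_iff₀ h6]
    have h10 : ρ * R j / 2 * ‖g0 * a + gp * b + gm * b'‖ ≤ 3 * ε2 * ρ :=
      (mul_le_mul_of_nonneg_right hn2 (norm_nonneg _)).trans k4
    have h11 : ρ * (‖g0 * a + gp * b + gm * b'‖ * R j) ≤ ρ * (6 * ε2) := by nlinarith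
    exact le_of_mul_le_mul_left h11 hρ0
  have k6 : c * ‖a - κ * (b - b')‖ ≤ (6 + C1 + C2) * ε2 / R j := by
    have e2 : g0 * (a - κ * (b - b')) = (g0 * a + gp * b + gm * b') - (gp + κ * g0) * b -
        (gm - κ * g0) * b' := by ring
    have b1 := h8 v hv
    have b2 := h9 v hv
    have hε12 : ε1 ≤ ε2 := min_le_left _ _
    calc c * ‖a - κ * (b - b')‖ ≤ ‖g0‖ * ‖a - κ * (b - b')‖ := by gcongr
      _ = ‖(g0 * a + gp * b + gm * b') - (gp + κ * g0) * b - (gm - κ * g0) * b'‖ := by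
          rw [← norm_mul, e2]
      _ ≤ ‖(g0 * a + gp * b + gm * b') - (gp + κ * g0) * b‖ + ‖(gm - κ * g0) * b'‖ := norm_sub_le _ _
      _ ≤ ‖g0 * a + gp * b + gm * b'‖ + ‖(gp + κ * g0) * b‖ + ‖(gm - κ * g0) * b'‖ := by
          gcongr; exact norm_sub_le _ _
      _ ≤ 6 * ε2 / R j + ε2 * (C1 / R j) + ε2 * (C2 / R j) := by
          rw [norm_mul, norm_mul]
          gcongr
          · exact c1.trans hε12
          · exact c2.trans hε12
      _ = (6 + C1 + C2) * ε2 / R j := by ring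
  have e3 : A2 R δ A j v - A2 R δ (κ • (B - B')) j v = a - κ * (b - b') := by
    rw [A2_smul, A2_sub]
    simp only [Pi.smul_apply, Pi.sub_apply, smul_eq_mul]
    rfl
  rw [e3]
  have k7 : (6 + C1 + C2) * ε2 = c * ε := by rw [hε2]; field_simp
  rw [k7, mul_div_assoc] at k6
  exact le_of_mul_le_mul_left k6 hc

end rel

/-! ### The Cauchy-Riemann relation -/

/-- the discrete Cauchy-Riemann relation of the double averages -/
def CR (κ : ℂ) (R : ℕ → ℝ) (F : Filter ℕ) (Ω : Set ℂ) (f : ℕ → ℤ × ℤ → ℂ) : Prop :=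
  ∀ δ : ℝ, 0 < δ → ∀ K0 Ω1 Ω2 : Set ℂ, Nst δ Ω K0 Ω1 Ω2 → Q2 R F δ Ω2 (κ • (f - Sh rr f)) (f - Sh uu f)

/-- the averages of `f` and `f'` are close -/
def AvC (R : ℕ → ℝ) (F : Filter ℕ) (Ω : Set ℂ) (f f' : ℕ → ℤ × ℤ → ℂ) : Prop :=
  ∀ δ : ℝ, 0 < δ → ∀ K0 Ω1 Ω2 : Set ℂ, Nst δ Ω K0 Ω1 Ω2 → PZ R F Ω2 (A2 R δ (f' - f))

/-- the limits of the double averages -/
theorem good_cr {U : Ultrafilter ℕ} {M : ℝ} {f f' : ℕ → ℤ × ℤ → ℂ} (hR : Tendsto R U atTop) (hM : 0 ≤ M)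
    (hb : Bdd R U Ω M f) (hcr : CR Complex.I R U Ω f) (hb' : Bdd R U Ω M f') (hc : AvC R U Ω f f') :
    Good R U Ω M f' fun δ => ulim R U (A2 R δ f) := by
  refine ⟨hb', hM, ?_, ?_, ?_⟩
  · intro z0 r hr0 hsub δ hδ hδr
    have hN := nst_ball hsub hδr
    have hbd := A2_bdd hR hδ hN hM hb
    have hl := A2_lip hR hδ hN hM hb
    have hI := ilim_ulim hR Metric.isOpen_ball hbd hl
    have k := hcr δ hδ _ _ _ hN
    unfold Q2 at k
    rw [A2_smul, A2_sub, A2_sub, A2_sh, A2_sh] at k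
    exact morera_I hR Metric.isOpen_ball hI hI (ulim_cont hR Metric.isOpen_ball hbd hl) k
  · intro z0 r hr0 hsub δ hδ hδr z hz
    have hN := nst_ball hsub hδr
    exact norm_ulim_le hR Metric.isOpen_ball (A2_bdd hR hδ hN hM hb) hz
  · intro z0 r hr0 hsub δ hδ hδr
    have hN := nst_ball hsub hδr
    have hbd := A2_bdd hR hδ hN hM hb
    have hl := A2_lip hR hδ hN hM hb
    have hI := ilim_ulim hR Metric.isOpen_ball hbd hl
    refine ILim.congr Metric.isOpen_ball hI ?_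
    rw [← A2_sub]
    exact hc δ hδ _ _ _ hN

/-- **From the Cauchy-Riemann relation to the limit.** -/
theorem hol_cr {ι : Type} {U : Ultrafilter ℕ} {M : ℝ} {f : ℕ → ℤ × ℤ → ℂ} {f' : ι → ℕ → ℤ × ℤ → ℂ}
    (hR : Tendsto R U atTop) (hΩ : IsOpen Ω) (hM : 0 ≤ M) (hb : Bdd R U Ω M f)
    (hcr : CR Complex.I R U Ω f) (hb' : ∀ i, Bdd R U Ω M (f' i)) (hc : ∀ i, AvC R U Ω f (f' i)) :
    ∃ g : ℂ → ℂ, DifferentiableOn ℂ g Ω ∧ (∀ z ∈ Ω, ‖g z‖ ≤ M) ∧ ∀ i, WLim R U Ω (f' i) g := by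
  have hff : AvC R U Ω f f := by
    intro δ hδ K0 Ω1 Ω2 hN ε hε
    refine Eventually.of_forall fun j v _ => ?_
    rw [sub_self]
    have : A2 R δ (0 : ℕ → ℤ × ℤ → ℂ) j v = 0 := by
      simp [A2, AV, av]
    rw [this, norm_zero]
    exact hε.le
  have G := good_cr hR hM hb hcr hb hff
  exact ⟨_, G.gL_dif' hR hΩ, fun _ hz => G.gL_norm hR hΩ hz,
    fun i => (good_cr hR hM hb hcr (hb' i) (hc i)).wlim hR hΩ⟩

/-! ### Natural inputs -/

/-- **Natural inputs of the windows of both parities**, `d1` : direction of the string, `d2` : the other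
direction; the walls of the group `ga` are pushed and moved by `d2` become the walls of the group `gb`. -/
structure NatD (d1 d2 : ℤ × ℤ) (ga gb : G4) (R : ℕ → ℝ) (F : Filter ℕ) (Ω : Set ℂ) (M : ℝ)
    (N : Bool → Bool → Finset G4 → ℕ → ℤ × ℤ → ℂ) : Prop where
  bdd : ∀ q, Bdd R F Ω M (N q false ∅)
  par : ∀ q, LA R F Ω (N q true ∅) (N (!q) false ∅)
  xl : ∀ q, ∀ g ∈ ({fo, le, ri} : Finset G4), LO R F Ω (X4 (N q) false g)
  xr : ∀ q, LO R F Ω (X4 (N q) true ce)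
  s1 : ∀ q, LA R F Ω (Sh d1 (N q false {fo})) (N q true {ce})
  s2 : ∀ q, LA R F Ω (Sh d2 (N q false {ga})) (N (!q) false {gb})

/-- string up -/
abbrev NatH := NatD uu rr le ri

/-- string to the right -/
abbrev NatV := NatD rr uu ri le

section nat

variable {M : ℝ} {N : Bool → Bool → Finset G4 → ℕ → ℤ × ℤ → ℂ} {d1 d2 : ℤ × ℤ} {ga gb : G4}
  {δ : ℝ} {K0 Ω1 Ω2 : Set ℂ}

/-- the sum over the parities -/
def HH (N : Bool → Bool → Finset G4 → ℕ → ℤ × ℤ → ℂ) : ℕ → ℤ × ℤ → ℂ := N false false ∅ + N true false ∅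

/-- **Gradient in the direction of the string.** -/
theorem NatD.g1 (hR : Tendsto R F atTop) (hδ : 0 < δ) (hN : Nst δ Ω K0 Ω1 Ω2)
    (H : NatD d1 d2 ga gb R F Ω M N) (hd : d1 = uu ∨ d1 = rr) :
    Q2 R F δ Ω2 ((X4 (N false) false fo - X4 (N false) true ce) + (X4 (N true) false fo - X4 (N true) true ce))
      (HH N - Sh d1 (HH N)) := by
  have k1 := ((H.s1 false).add (H.s1 true)).q hR hδ hN
  have kp := ((H.par false).add (H.par true)).q hR hδ hN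
  simp only [Bool.not_true, Bool.not_false] at kp
  have k2 := (((H.xl false fo (by simp)).lz hR).add ((H.xl true fo (by simp)).lz hR)).q hR hδ hN hd
  set XF := X4 (N false) false fo + X4 (N true) false fo with hXF
  set XC := X4 (N false) true ce + X4 (N true) true ce with hXC
  -- left hand side
  have e1 : Sh d1 (N false false {fo}) + Sh d1 (N true false {fo}) = Sh d1 (HH N) + Sh d1 XF := by
    rw [← sh_add, ← sh_add]
    congr 1
    rw [hXF]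
    unfold HH X4
    abel
  have e2 : N false true {ce} + N true true {ce} = (N false true ∅ + N true true ∅) + XC := by
    rw [hXC]; unfold X4; abel
  rw [e1, e2] at k1
  have kp' : Q2 R F δ Ω2 (N false true ∅ + N true true ∅) (HH N) := by
    have e3 : N true false ∅ + N false false ∅ = HH N := by unfold HH; rw [add_comm]
    rw [e3] at kp; exact kp
  have k3 : Q2 R F δ Ω2 (Sh d1 (HH N) + Sh d1 XF) (HH N + XC) := k1.trans (kp'.add (Q2.refl hR XC))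
  have k4 := k3.sub (Q2.refl (F := F) (δ := δ) (Ω2 := Ω2) hR (Sh d1 (HH N) + XC))
  have e4 : Sh d1 (HH N) + Sh d1 XF - (Sh d1 (HH N) + XC) = Sh d1 XF - XC := by abel
  have e5 : HH N + XC - (Sh d1 (HH N) + XC) = HH N - Sh d1 (HH N) := by abel
  rw [e4, e5] at k4
  have k5 := (k2.sub (Q2.refl (F := F) (δ := δ) (Ω2 := Ω2) hR XC)).trans k4
  have e6 : XF - XC = (X4 (N false) false fo - X4 (N false) true ce) +
      (X4 (N true) false fo - X4 (N true) true ce) := by rw [hXF, hXC]; abel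
  rw [e6] at k5
  exact k5

/-- **Gradient in the other direction.** -/
theorem NatD.g2 (hR : Tendsto R F atTop) (hδ : 0 < δ) (hN : Nst δ Ω K0 Ω1 Ω2)
    (H : NatD d1 d2 ga gb R F Ω M N) (hd : d2 = uu ∨ d2 = rr) (hga : ga ∈ ({fo, le, ri} : Finset G4)) :
    Q2 R F δ Ω2 ((X4 (N false) false ga - X4 (N false) false gb) + (X4 (N true) false ga - X4 (N true) false gb))
      (HH N - Sh d2 (HH N)) := by
  have k1 := ((H.s2 true).add (H.s2 false)).q hR hδ hN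
  simp only [Bool.not_true, Bool.not_false] at k1
  have k2 := (((H.xl false ga hga).lz hR).add ((H.xl true ga hga).lz hR)).q hR hδ hN hd
  set XF := X4 (N false) false ga + X4 (N true) false ga with hXF
  set XC := X4 (N false) false gb + X4 (N true) false gb with hXC
  have e1 : Sh d2 (N true false {ga}) + Sh d2 (N false false {ga}) = Sh d2 (HH N) + Sh d2 XF := by
    rw [← sh_add, ← sh_add]
    congr 1
    rw [hXF]
    unfold HH X4
    abel
  have e2 : N false false {gb} + N true false {gb} = HH N + XC := by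
    rw [hXC]; unfold HH X4; abel
  rw [e1, e2] at k1
  have k4 := k1.sub (Q2.refl (F := F) (δ := δ) (Ω2 := Ω2) hR (Sh d2 (HH N) + XC))
  have e4 : Sh d2 (HH N) + Sh d2 XF - (Sh d2 (HH N) + XC) = Sh d2 XF - XC := by abel
  have e5 : HH N + XC - (Sh d2 (HH N) + XC) = HH N - Sh d2 (HH N) := by abel
  rw [e4, e5] at k4
  have k5 := (k2.sub (Q2.refl (F := F) (δ := δ) (Ω2 := Ω2) hR XC)).trans k4
  have e6 : XF - XC = (X4 (N false) false ga - X4 (N false) false gb) +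
      (X4 (N true) false ga - X4 (N true) false gb) := by rw [hXF, hXC]; abel
  rw [e6] at k5
  exact k5

/-- **The two parities are close in the mean.** -/
theorem NatD.par_close (hR : Tendsto R F atTop) (hΩ : IsOpen Ω) (hδ : 0 < δ) (hN : Nst δ Ω K0 Ω1 Ω2)
    (hM : 0 ≤ M) (H : NatD d1 d2 ga gb R F Ω M N) (hd : d1 = uu ∨ d1 = rr) (q : Bool) :
    PZ R F Ω2 (A2 R δ (N (!q) false ∅ - N q false ∅)) := by
  have k0 := ((H.par q).lz hR).z hR hδ hN
  have k1 := (((H.xr q).lz hR).z hR hδ hN).smul (-1)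
  have k2 := ((H.s1 q).lz hR).z hR hδ hN
  have k3 := ((H.bdd q).z hR hδ hN hM (d := d1) hd).smul (-1)
  have k4 := (((H.xl q fo (by simp)).lz hR).sh hR hΩ d1).z hR hδ hN
  have k := (((k0.add k1).add k2).add k3).add k4
  rw [← A2_smul, ← A2_smul, ← A2_add, ← A2_add, ← A2_add, ← A2_add] at k
  have e : N (!q) false ∅ - N q true ∅ + (-1 : ℂ) • X4 (N q) true ce +
      (N q true {ce} - Sh d1 (N q false {fo})) +
      (-1 : ℂ) • (N q false ∅ - Sh d1 (N q false ∅)) + Sh d1 (X4 (N q) false fo) =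
      N (!q) false ∅ - N q false ∅ := by
    unfold X4
    rw [sh_sub]
    module
  rw [e] at k
  exact k

/-- the natural difference of the two worlds is small in the mean -/
theorem NatD.e_close (hR : Tendsto R F atTop) (hΩ : IsOpen Ω) (hδ : 0 < δ) (hN : Nst δ Ω K0 Ω1 Ω2)
    (hM : 0 ≤ M) (H : NatD d1 d2 ga gb R F Ω M N) (hd : d1 = uu ∨ d1 = rr) (q : Bool) :
    PZ R F Ω2 (A2 R δ (N q false ∅ - N q true ∅)) := by
  have k1 := (H.par_close hR hΩ hδ hN hM hd q).smul (-1)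
  have k2 := ((H.par q).lz hR).z hR hδ hN
  have k := k1.add k2
  rw [← A2_smul, ← A2_add] at k
  have e : (-1 : ℂ) • (N (!q) false ∅ - N q false ∅) + (N (!q) false ∅ - N q true ∅) =
      N q false ∅ - N q true ∅ := by module
  rw [e] at k
  exact k

/-- the relation of the responses of the window of parity `q` -/
def RelQ (κ : ℂ) (R : ℕ → ℝ) (F : Filter ℕ) (Ω : Set ℂ) (h : Bool → Finset G4 → ℕ → ℤ × ℤ → ℂ) : Prop :=
  ∀ δ : ℝ, 0 < δ → ∀ K0 Ω1 Ω2 : Set ℂ, Nst δ Ω K0 Ω1 Ω2 →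
    Q2 R F δ Ω2 (κ • (X4 h false le - X4 h false ri)) (X4 h false fo - X4 h true ce)

/-- **The relation from the track.** -/
theorem NatD.relQ {κ : ℂ} (hR : Tendsto R F atTop) (hΩ : IsOpen Ω) (hM : 0 ≤ M)
    (H : NatD d1 d2 ga gb R F Ω M N) (hd : d1 = uu ∨ d1 = rr) {q : Bool} {V : ℕ → ℕ → ℤ × ℤ → ℂ}
    (T : Trk5 κ R F Ω V (N q false ∅ - N q true ∅) (X4 (N q) false fo - X4 (N q) true ce)
      (X4 (N q) false le) (X4 (N q) false ri)) : RelQ κ R F Ω (N q) :=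
  fun _ hδ _ _ _ hN => T.rel hR hδ hN (H.e_close hR hΩ hδ hN hM hd q)

/-- string up: the Cauchy-Riemann relation of the sum over the parities -/
theorem NatD.crH {κ : ℂ} (hR : Tendsto R F atTop) (H : NatH R F Ω M N)
    (hr : ∀ q, RelQ κ R F Ω (N q)) : CR κ R F Ω (HH N) := by
  intro δ hδ K0 Ω1 Ω2 hN
  have k1 := H.g1 hR hδ hN (Or.inl rfl)
  have k2 := (H.g2 hR hδ hN (Or.inr rfl) (by simp)).smul κ
  have k3 := (hr false δ hδ _ _ _ hN).add (hr true δ hδ _ _ _ hN)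
  rw [← smul_add] at k3
  exact k2.symm.trans (k3.trans k1)

/-- string to the right: the Cauchy-Riemann relation of the sum over the parities -/
theorem NatD.crV {κ : ℂ} (hκ : κ * κ = -1) (hR : Tendsto R F atTop) (H : NatV R F Ω M N)
    (hr : ∀ q, RelQ κ R F Ω (N q)) : CR κ R F Ω (HH N) := by
  intro δ hδ K0 Ω1 Ω2 hN
  have k1 := (H.g1 hR hδ hN (Or.inr rfl)).smul κ
  have k2 := H.g2 hR hδ hN (Or.inl rfl) (by simp)
  have k3 := ((hr false δ hδ _ _ _ hN).add (hr true δ hδ _ _ _ hN)).smul κ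
  have e : κ • (κ • (X4 (N false) false le - X4 (N false) false ri) +
      κ • (X4 (N true) false le - X4 (N true) false ri)) =
      (X4 (N false) false ri - X4 (N false) false le) + (X4 (N true) false ri - X4 (N true) false le) := by
    rw [← smul_add, smul_smul, hκ]
    module
  rw [e] at k3
  exact k1.symm.trans (k3.symm.trans k2)

/-- the mean of the parities is bounded -/
lemma bdd_half (H : NatD d1 d2 ga gb R F Ω M N) : Bdd R F Ω M ((1 / 2 : ℂ) • HH N) := by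
  intro K hK hKc
  filter_upwards [H.bdd false K hK hKc, H.bdd true K hK hKc] with j h1 h2 v hv
  have e : ((1 / 2 : ℂ) • HH N) j v = (1 / 2 : ℂ) * (N false false ∅ j v + N true false ∅ j v) := by
    unfold HH
    simp only [Pi.smul_apply, Pi.add_apply, smul_eq_mul]
  rw [e, norm_mul]
  have h3 : ‖(1 / 2 : ℂ)‖ = 1 / 2 := by simp
  rw [h3]
  have := norm_add_le (N false false ∅ j v) (N true false ∅ j v)
  linarith [h1 v hv, h2 v hv]

lemma CR.smul {κ : ℂ} {f : ℕ → ℤ × ℤ → ℂ} (c : ℂ) (h : CR κ R F Ω f) : CR κ R F Ω (c • f) := by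
  intro δ hδ K0 Ω1 Ω2 hN
  have k := (h δ hδ _ _ _ hN).smul c
  have e1 : c • (κ • (f - Sh rr f)) = κ • (c • f - Sh rr (c • f)) := by rw [sh_smul]; module
  have e2 : c • (f - Sh uu f) = c • f - Sh uu (c • f) := by rw [sh_smul]; module
  rw [e1, e2] at k
  exact k

/-- each parity is close to the mean of the parities -/
lemma half_close (hR : Tendsto R F atTop) (hΩ : IsOpen Ω) (hM : 0 ≤ M)
    (H : NatD d1 d2 ga gb R F Ω M N) (hd : d1 = uu ∨ d1 = rr) (q : Bool) :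
    AvC R F Ω ((1 / 2 : ℂ) • HH N) (N q false ∅) := by
  intro δ hδ K0 Ω1 Ω2 hN
  have k := (H.par_close hR hΩ hδ hN hM hd (!q)).smul (1 / 2)
  rw [← A2_smul] at k
  have e : (1 / 2 : ℂ) • (N (!!q) false ∅ - N (!q) false ∅) = N q false ∅ - (1 / 2 : ℂ) • HH N := by
    unfold HH
    cases q <;> simp only [Bool.not_true, Bool.not_false] <;> module
  rw [e] at k
  exact k

end nat

/-! ### The theorems -/

section fin

variable {M : ℝ} {N : Bool → Bool → Finset G4 → ℕ → ℤ × ℤ → ℂ} {U : Ultrafilter ℕ}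

/-- **Closing**, relation form, string up. -/
theorem hol5H_of_rel (hR : Tendsto R U atTop) (hΩ : IsOpen Ω) (hM : 0 ≤ M) (H : NatH R U Ω M N)
    (hr : ∀ q, RelQ Complex.I R U Ω (N q)) : ∃ g : ℂ → ℂ, DifferentiableOn ℂ g Ω ∧ (∀ z ∈ Ω, ‖g z‖ ≤ M) ∧
      ∀ q, WLim R U Ω (N q false ∅) g :=
  hol_cr hR hΩ hM (bdd_half H) ((H.crH hR hr).smul _) (f' := fun q => N q false ∅) H.bdd
    (half_close hR hΩ hM H (Or.inl rfl))

/-- **Closing**, relation form, string to the right. -/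
theorem hol5V_of_rel (hR : Tendsto R U atTop) (hΩ : IsOpen Ω) (hM : 0 ≤ M) (H : NatV R U Ω M N)
    (hr : ∀ q, RelQ Complex.I R U Ω (N q)) : ∃ g : ℂ → ℂ, DifferentiableOn ℂ g Ω ∧ (∀ z ∈ Ω, ‖g z‖ ≤ M) ∧
      ∀ q, WLim R U Ω (N q false ∅) g :=
  hol_cr hR hΩ hM (bdd_half H) ((H.crV Complex.I_mul_I hR hr).smul _) (f' := fun q => N q false ∅) H.bdd
    (half_close hR hΩ hM H (Or.inr rfl))

/-- **Closing of the S-property**, over-line, string up. -/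
theorem hol5H (hR : Tendsto R U atTop) (hΩ : IsOpen Ω) (hM : 0 ≤ M) (H : NatH R U Ω M N)
    {V : Bool → ℕ → ℕ → ℤ × ℤ → ℂ} (T : ∀ q, Trk5 Complex.I R U Ω (V q) (N q false ∅ - N q true ∅)
      (X4 (N q) false fo - X4 (N q) true ce) (X4 (N q) false le) (X4 (N q) false ri)) :
    ∃ g : ℂ → ℂ, DifferentiableOn ℂ g Ω ∧ (∀ z ∈ Ω, ‖g z‖ ≤ M) ∧ ∀ q, WLim R U Ω (N q false ∅) g :=
  hol5H_of_rel hR hΩ hM H fun q => H.relQ hR hΩ hM (Or.inl rfl) (T q)

/-- **Closing of the S-property**, over-line, string to the right. -/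
theorem hol5V (hR : Tendsto R U atTop) (hΩ : IsOpen Ω) (hM : 0 ≤ M) (H : NatV R U Ω M N)
    {V : Bool → ℕ → ℕ → ℤ × ℤ → ℂ} (T : ∀ q, Trk5 Complex.I R U Ω (V q) (N q false ∅ - N q true ∅)
      (X4 (N q) false fo - X4 (N q) true ce) (X4 (N q) false le) (X4 (N q) false ri)) :
    ∃ g : ℂ → ℂ, DifferentiableOn ℂ g Ω ∧ (∀ z ∈ Ω, ‖g z‖ ≤ M) ∧ ∀ q, WLim R U Ω (N q false ∅) g :=
  hol5V_of_rel hR hΩ hM H fun q => H.relQ hR hΩ hM (Or.inr rfl) (T q)

/-! ### Under-line -/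

section conj

variable {d1 d2 : ℤ × ℤ} {ga gb : G4}

lemma LO.cj {A : ℕ → ℤ × ℤ → ℂ} (h : LO R F Ω A) : LO R F Ω (Cj A) := by
  intro K hK hKc
  obtain ⟨C, hC⟩ := h K hK hKc
  refine ⟨C, ?_⟩
  filter_upwards [hC] with j h1 S hS
  refine le_trans (le_of_eq ?_) (h1 S hS)
  refine Finset.sum_congr rfl fun v _ => ?_
  unfold Cj
  rw [Complex.norm_conj]

lemma A2_cj (δ : ℝ) (A : ℕ → ℤ × ℤ → ℂ) : A2 R δ (Cj A) = Cj (A2 R δ A) := by
  funext j v
  unfold A2 AV Cj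
  have e : (av (sd R δ j) fun w => (starRingEnd ℂ) (A j w)) =
      fun w => (starRingEnd ℂ) (av (sd R δ j) (A j) w) := by
    funext w; exact av_cj _ _ _
  rw [e, av_cj]

lemma Q2.cj {δ : ℝ} {Ω2 : Set ℂ} {A B : ℕ → ℤ × ℤ → ℂ} (h : Q2 R F δ Ω2 A B) :
    Q2 R F δ Ω2 (Cj A) (Cj B) := by
  intro ε hε
  filter_upwards [h ε hε] with j hj v hv
  rw [A2_cj, A2_cj, norm_Cj_sub]
  exact hj v hv

theorem NatD.cj (H : NatD d1 d2 ga gb R F Ω M N) :
    NatD d1 d2 ga gb R F Ω M (fun q p s => Cj (N q p s)) where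
  bdd := fun q => (H.bdd q).cj
  par := fun q => (H.par q).cj
  xl := fun q g hg => by rw [X4_cj]; exact (H.xl q g hg).cj
  xr := fun q => by rw [X4_cj]; exact (H.xr q).cj
  s1 := fun q => (H.s1 q).cj
  s2 := fun q => (H.s2 q).cj

lemma RelQ.cj {h : Bool → Finset G4 → ℕ → ℤ × ℤ → ℂ} (hr : RelQ (-Complex.I) R F Ω h) :
    RelQ Complex.I R F Ω (fun p s => Cj (h p s)) := by
  intro δ hδ K0 Ω1 Ω2 hN
  have k := (hr δ hδ _ _ _ hN).cj
  rw [Cj_smul, map_neg, Complex.conj_I, neg_neg, Cj_sub, Cj_sub] at k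
  rw [X4_cj, X4_cj, X4_cj, X4_cj]
  exact k

lemma anti_of {N : Bool → Bool → Finset G4 → ℕ → ℤ × ℤ → ℂ}
    (h : ∃ g : ℂ → ℂ, DifferentiableOn ℂ g Ω ∧ (∀ z ∈ Ω, ‖g z‖ ≤ M) ∧
      ∀ q, WLim R U Ω (Cj (N q false ∅)) g) :
    ∃ g : ℂ → ℂ, DifferentiableOn ℂ (fun z => (starRingEnd ℂ) (g z)) Ω ∧ (∀ z ∈ Ω, ‖g z‖ ≤ M) ∧
      ∀ q, WLim R U Ω (N q false ∅) g := by
  obtain ⟨g, g1, g2, g3⟩ := h
  refine ⟨fun z => (starRingEnd ℂ) (g z), ?_, ?_, ?_⟩
  · simpa using g1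
  · intro z hz
    rw [Complex.norm_conj]; exact g2 z hz
  · intro q
    have k := (g3 q).cj
    rw [Cj_Cj] at k
    exact k

/-- **Closing of the S-property**, under-line, string up. -/
theorem antihol5H (hR : Tendsto R U atTop) (hΩ : IsOpen Ω) (hM : 0 ≤ M) (H : NatH R U Ω M N)
    {V : Bool → ℕ → ℕ → ℤ × ℤ → ℂ} (T : ∀ q, Trk5 (-Complex.I) R U Ω (V q) (N q false ∅ - N q true ∅)
      (X4 (N q) false fo - X4 (N q) true ce) (X4 (N q) false le) (X4 (N q) false ri)) :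
    ∃ g : ℂ → ℂ, DifferentiableOn ℂ (fun z => (starRingEnd ℂ) (g z)) Ω ∧ (∀ z ∈ Ω, ‖g z‖ ≤ M) ∧
      ∀ q, WLim R U Ω (N q false ∅) g := by
  have hr : ∀ q, RelQ Complex.I R U Ω (fun p s => Cj (N q p s)) := fun q =>
    (H.relQ hR hΩ hM (Or.inl rfl) (T q)).cj
  have hH : NatH R U Ω M (fun q p s => Cj (N q p s)) := H.cj
  have k := hol5H_of_rel (N := fun q p s => Cj (N q p s)) hR hΩ hM hH hr
  exact anti_of (N := N) k

/-- **Closing of the S-property**, under-line, string to the right. -/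
theorem antihol5V (hR : Tendsto R U atTop) (hΩ : IsOpen Ω) (hM : 0 ≤ M) (H : NatV R U Ω M N)
    {V : Bool → ℕ → ℕ → ℤ × ℤ → ℂ} (T : ∀ q, Trk5 (-Complex.I) R U Ω (V q) (N q false ∅ - N q true ∅)
      (X4 (N q) false fo - X4 (N q) true ce) (X4 (N q) false le) (X4 (N q) false ri)) :
    ∃ g : ℂ → ℂ, DifferentiableOn ℂ (fun z => (starRingEnd ℂ) (g z)) Ω ∧ (∀ z ∈ Ω, ‖g z‖ ≤ M) ∧
      ∀ q, WLim R U Ω (N q false ∅) g := by
  have hr : ∀ q, RelQ Complex.I R U Ω (fun p s => Cj (N q p s)) := fun q =>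
    (H.relQ hR hΩ hM (Or.inr rfl) (T q)).cj
  have hH : NatV R U Ω M (fun q p s => Cj (N q p s)) := H.cj
  have k := hol5V_of_rel (N := fun q p s => Cj (N q p s)) hR hΩ hM hH hr
  exact anti_of (N := N) k

end conj

end fin

end Pool.Agent.H44.W
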