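import Mathlib
import Pool.Agent.H44.W.Close5

set_option autoImplicit false
open Filter Topology Set MeasureTheory

/-! # Closing of the S-property, absolute coordinates, string to the right

`h q p s` : parity `q`, world `p`, pushed groups `s`; both worlds in the same coordinates. Groups: left walls `fo`,
right wall `ce`, ceilings `le`, floors `ri`. `NatA` : natural inputs: `s1` (the region of world `false` with the left
walls pushed is the region of world `true` with the right wall pushed, same place), `pp` (world `true` moved by one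
column is world `false` of the other parity), `s2` (floors pushed and moved up: ceilings pushed, other parity).
`hol6`, `antihol6` : the box averages of `h q false ∅` converge to a holomorphic (antiholomorphic) function. -/

namespace Pool.Agent.H44.W

open Pool.Agent.Q1.M4 (lat)
open Pool.Agent.Q1.M6f.Glue (uu rr)
open Pool.Agent.H44.FM.WG (Sh sh_add sh_sub sh_smul)
open G4

variable {R : ℕ → ℝ} {F : Filter ℕ} {Ω : Set ℂ} {M : ℝ} {h : Bool → Bool → Finset G4 → ℕ → ℤ × ℤ → ℂ}

/-- **Natural inputs, absolute coordinates.** -/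
structure NatA (R : ℕ → ℝ) (F : Filter ℕ) (Ω : Set ℂ) (M : ℝ)
    (h : Bool → Bool → Finset G4 → ℕ → ℤ × ℤ → ℂ) : Prop where
  bdd : ∀ q, Bdd R F Ω M (h q false ∅)
  s1 : ∀ q, LA R F Ω (h q false {fo}) (h q true {ce})
  pp : ∀ q, LA R F Ω (Sh rr (h q true ∅)) (h (!q) false ∅)
  s2 : ∀ q, LA R F Ω (Sh uu (h q false {ri})) (h (!q) false {le})
  xl : ∀ q, ∀ g ∈ ({fo, le, ri} : Finset G4), LO R F Ω (X4 (h q) false g)
  xr : ∀ q, LO R F Ω (X4 (h q) true ce)

/-- both worlds in the coordinates of the shape -/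
def shp (h : Bool → Bool → Finset G4 → ℕ → ℤ × ℤ → ℂ) (q p : Bool) (s : Finset G4) : ℕ → ℤ × ℤ → ℂ :=
  if p then Sh rr (h q true s) else h q false s

lemma LO.sh {A : ℕ → ℤ × ℤ → ℂ} (hR : Tendsto R F atTop) (hΩ : IsOpen Ω) (h : LO R F Ω A) (d : ℤ × ℤ) :
    LO R F Ω (Sh d A) := by
  intro K hK hKc
  obtain ⟨s, hs, hsub⟩ := hKc.exists_cthickening_subset_open hΩ hK
  obtain ⟨C, hC⟩ := h _ hsub hKc.cthickening
  refine ⟨C, ?_⟩
  filter_upwards [hC, hR.eventually_gt_atTop 0, hR.eventually_gt_atTop (‖lat d‖ / s)] with j h1 h2 h3 S hS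
  have := h1 (S.map ⟨fun v => v - d, sub_left_injective⟩) (by
    intro v hv
    rw [Finset.mem_map] at hv
    obtain ⟨w, hw, rfl⟩ := hv
    exact Pool.Agent.H44.FM.WG.shift_mem' hs h2 h3 (hS w hw))
  rw [Finset.sum_map] at this
  exact this

lemma X4_shp_f (q : Bool) (g : G4) : X4 (shp h q) false g = X4 (h q) false g := by
  unfold X4 shp
  simp only [Bool.false_eq_true, if_false]

lemma X4_shp_t (q : Bool) (g : G4) : X4 (shp h q) true g = Sh rr (X4 (h q) true g) := by
  unfold X4 shp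
  simp only [if_true]
  rw [sh_sub]

/-- the inputs in the coordinates of the shape -/
theorem NatA.toV (hR : Tendsto R F atTop) (hΩ : IsOpen Ω) (H : NatA R F Ω M h) :
    NatV R F Ω M (shp h) where
  bdd := H.bdd
  par := H.pp
  xl := fun q g hg => by rw [X4_shp_f]; exact H.xl q g hg
  xr := fun q => by rw [X4_shp_t]; exact (H.xr q).sh hR hΩ rr
  s1 := fun q => (H.s1 q).sh hR hΩ rr
  s2 := H.s2

/-- the natural difference of the two worlds -/
theorem NatA.e_lo (H : NatA R F Ω M h) (q : Bool) : LO R F Ω (h q false ∅ - h q true ∅) := by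
  have k := ((H.xr q).sub (H.xl q fo (by simp)))
  refine LO.of_LA ?_ k
  have e1 : X4 (h q) true ce - X4 (h q) false fo =
      h q false ∅ - h q true ∅ + (h q true {ce} - h q false {fo}) := by unfold X4; abel
  rw [e1]
  intro K hK hKc ε hε
  filter_upwards [H.s1 q K hK hKc ε hε] with j hj S hS
  refine le_trans (le_of_eq ?_) (hj S hS)
  refine Finset.sum_congr rfl fun v _ => ?_
  simp only [Pi.add_apply, Pi.sub_apply]
  rw [← norm_neg]
  congr 1
  ring

/-- the track in absolute coordinates gives the relation in the coordinates of the shape -/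
theorem NatA.relQ {κ : ℂ} (hR : Tendsto R F atTop) (H : NatA R F Ω M h) {q : Bool}
    {V : ℕ → ℕ → ℤ × ℤ → ℂ}
    (T : Trk5 κ R F Ω V (h q false ∅ - h q true ∅) (X4 (h q) false fo - X4 (h q) true ce)
      (X4 (h q) false le) (X4 (h q) false ri)) : RelQ κ R F Ω (shp h q) := by
  intro δ hδ K0 Ω1 Ω2 hN
  have k1 := T.rel hR hδ hN (((H.e_lo q).lz hR).z hR hδ hN)
  have k2 := ((H.xr q).lz hR).q hR hδ hN (d := rr) (Or.inr rfl)
  have k3 := (Q2.refl (F := F) (δ := δ) (Ω2 := Ω2) hR (X4 (h q) false fo)).sub k2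
  rw [X4_shp_f, X4_shp_f, X4_shp_f, X4_shp_t]
  exact k1.trans k3

section fin

variable {U : Ultrafilter ℕ}

/-- **Closing of the S-property**, over-line, absolute coordinates. -/
theorem hol6 (hR : Tendsto R U atTop) (hΩ : IsOpen Ω) (hM : 0 ≤ M) (H : NatA R U Ω M h)
    {V : Bool → ℕ → ℕ → ℤ × ℤ → ℂ} (T : ∀ q, Trk5 Complex.I R U Ω (V q) (h q false ∅ - h q true ∅)
      (X4 (h q) false fo - X4 (h q) true ce) (X4 (h q) false le) (X4 (h q) false ri)) :
    ∃ g : ℂ → ℂ, DifferentiableOn ℂ g Ω ∧ (∀ z ∈ Ω, ‖g z‖ ≤ M) ∧ ∀ q, WLim R U Ω (h q false ∅) g := by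
  have k := hol5V_of_rel (N := shp h) hR hΩ hM (H.toV hR hΩ) fun q => H.relQ hR (T q)
  exact k

/-- **Closing of the S-property**, under-line, absolute coordinates. -/
theorem antihol6 (hR : Tendsto R U atTop) (hΩ : IsOpen Ω) (hM : 0 ≤ M) (H : NatA R U Ω M h)
    {V : Bool → ℕ → ℕ → ℤ × ℤ → ℂ} (T : ∀ q, Trk5 (-Complex.I) R U Ω (V q) (h q false ∅ - h q true ∅)
      (X4 (h q) false fo - X4 (h q) true ce) (X4 (h q) false le) (X4 (h q) false ri)) :
    ∃ g : ℂ → ℂ, DifferentiableOn ℂ (fun z => (starRingEnd ℂ) (g z)) Ω ∧ (∀ z ∈ Ω, ‖g z‖ ≤ M) ∧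
      ∀ q, WLim R U Ω (h q false ∅) g := by
  have hr : ∀ q, RelQ Complex.I R U Ω (fun p s => Cj (shp h q p s)) := fun q => (H.relQ hR (T q)).cj
  have hH : NatV R U Ω M (fun q p s => Cj (shp h q p s)) := (H.toV hR hΩ).cj
  have k := hol5V_of_rel (N := fun q p s => Cj (shp h q p s)) hR hΩ hM hH hr
  exact anti_of (N := shp h) k

/-- **Closing of the S-property**, over-line; natural inputs in absolute coordinates, track in the coordinates
of the shape (`track_V` : world `false` at `v`, world `true` at `v - rr`). -/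
theorem hol6s (hR : Tendsto R U atTop) (hΩ : IsOpen Ω) (hM : 0 ≤ M) (H : NatA R U Ω M h)
    {V : Bool → ℕ → ℕ → ℤ × ℤ → ℂ} (T : ∀ q, Trk5 Complex.I R U Ω (V q) (h q false ∅ - Sh rr (h q true ∅))
      (X4 (h q) false fo - Sh rr (X4 (h q) true ce)) (X4 (h q) false le) (X4 (h q) false ri)) :
    ∃ g : ℂ → ℂ, DifferentiableOn ℂ g Ω ∧ (∀ z ∈ Ω, ‖g z‖ ≤ M) ∧ ∀ q, WLim R U Ω (h q false ∅) g := by
  have k := hol5V (N := shp h) (V := V) hR hΩ hM (H.toV hR hΩ) (fun q => by
    rw [X4_shp_f, X4_shp_f, X4_shp_f, X4_shp_t]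
    exact T q)
  exact k

/-- **Closing of the S-property**, under-line; natural inputs in absolute coordinates, track in the coordinates
of the shape. -/
theorem antihol6s (hR : Tendsto R U atTop) (hΩ : IsOpen Ω) (hM : 0 ≤ M) (H : NatA R U Ω M h)
    {V : Bool → ℕ → ℕ → ℤ × ℤ → ℂ} (T : ∀ q, Trk5 (-Complex.I) R U Ω (V q)
      (h q false ∅ - Sh rr (h q true ∅))
      (X4 (h q) false fo - Sh rr (X4 (h q) true ce)) (X4 (h q) false le) (X4 (h q) false ri)) :
    ∃ g : ℂ → ℂ, DifferentiableOn ℂ (fun z => (starRingEnd ℂ) (g z)) Ω ∧ (∀ z ∈ Ω, ‖g z‖ ≤ M) ∧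
      ∀ q, WLim R U Ω (h q false ∅) g := by
  have k := antihol5V (N := shp h) (V := V) hR hΩ hM (H.toV hR hΩ) (fun q => by
    rw [X4_shp_f, X4_shp_f, X4_shp_f, X4_shp_t]
    exact T q)
  exact k

end fin

end Pool.Agent.H44.W
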