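import Mathlib
import Pool.Agent.H20.W.TopS
import Pool.Agent.H64.W.SizeK

set_option autoImplicit false
open Filter Topology Metric

/-! # W-B: chapters A and B for the windows, last step

`vU` : helper20's line value at the rapidity `π - u`. `BdV` : uniform bound. `KeyAB` : the difference of the two
worlds as a function near `t = 0`, with small Taylor coefficients off the thin set. `bab_of`, `stAB_of` : the
statement `StAB`. -/

namespace Pool.Agent.H44.W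

open Pool.Agent.Q1.M4 (lat)
open Pool.Agent.Q1.M6f.Glue (uu rr)
open Pool.Agent.H54.W (CD NE PsT)
open Pool.Agent.H64.Q1 (wa)
open Pool.Agent.H95.W.BrS (BAb dSh)
open Pool.Agent.H20.W (Dz Zz Ph Wz tauP LowC OmC OmC_open vS vI StAB xC Th)
open Pool.Agent.H32.W.Ab (uN AbIn)
open Pool.Agent.H32.W.Bd (Zv)
open Pool.Agent.H64.W (thin_Zv)

variable {C : CD} {c0 : Bool} {Ψ : (NE → NE → Prop) → ℂ}

/-- the line value at the rapidity `π - u` of the vertical frame -/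
noncomputable def vU (C : CD) (n : ℤ) (c0 : Bool) (v : ℤ × ℤ) (he : n % 2 = 0) (h8 : 8 ≤ n)
    (Ψ : (NE → NE → Prop) → ℂ) (p : Bool) (u : ℂ) : ℂ :=
  Pool.Agent.H20.W.VS (Dz C n c0 he h8 v.2) (Wz (Dz C n c0 he h8 v.2) (Zz C n c0 v)) (Ph C n c0 v Ψ)
    (tauP (Dz C n c0 he h8 v.2) p) (wa (Real.pi - u)) (wa (Real.pi - u + Real.pi / 2))
    (wa (Real.pi - u - Real.pi / 2)) v.2 v.1

lemma vS_vU {n : ℤ} {v : ℤ × ℤ} {he : n % 2 = 0} {h8 : 8 ≤ n} (p : Bool) (N : ℕ) :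
    vS C n c0 v he h8 Ψ p N = vU C n c0 v he h8 Ψ p (uN N) := rfl

/-- **The uniform bound** of the world `p`. -/
def BdV (C : CD) (c0 : Bool) (Ψ : (NE → NE → Prop) → ℂ) (p : Bool) : Prop :=
  ∀ K ⊆ OmC C, IsCompact K → ∀ B : ℝ, 0 < B → ∃ (M : ℝ) (m1 : ℕ), ∀ m : ℕ, m1 ≤ m →
    ∀ (he : (2 * (m : ℤ)) % 2 = 0) (h8 : 8 ≤ 2 * (m : ℤ)) (v : ℤ × ℤ),
    lat v / (((2 * m : ℕ) : ℝ) : ℂ) ∈ K → ∀ u : ℂ, 1 ≤ u.im → ((2 * m : ℕ) : ℝ) ≤ B * Real.exp u.im →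
    ‖vU C (2 * m) c0 v he h8 Ψ p u‖ ≤ M

/-- **The difference of the two worlds** near `t = 0`. -/
structure KeyAB (C : CD) (c0 : Bool) (Ψ : (NE → NE → Prop) → ℂ) (c : ℝ) (f : ℕ → ℤ × ℤ → ℂ → ℂ) : Prop where
  diff : ∀ m v, DifferentiableOn ℂ (f m v) (ball 0 (1 / 2))
  eq : ∀ K ⊆ OmC C, IsCompact K → ∃ m1 : ℕ, ∀ m : ℕ, m1 ≤ m → ∀ (he : (2 * (m : ℤ)) % 2 = 0)
    (h8 : 8 ≤ 2 * (m : ℤ)) (v : ℤ × ℤ), lat v / (((2 * m : ℕ) : ℝ) : ℂ) ∈ K → ∀ u : ℂ, 1 ≤ u.im →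
    ‖f m v (Complex.exp (2 * Complex.I * u / 3))‖ =
      c * ‖vU C (2 * m) c0 v he h8 Ψ false u - vU C (2 * m) c0 (v - rr) he h8 Ψ true u‖
  tay : ∀ K ⊆ OmC C, IsCompact K → ∀ η > (0 : ℝ), ∀ (k : ℕ) (ε : ℝ), 0 < ε → ∃ m1 : ℕ, ∀ m : ℕ, m1 ≤ m →
    ∀ v : ℤ × ℤ, lat v / (((2 * m : ℕ) : ℝ) : ℂ) ∈ K → v ∉ Zv C η (2 * m) →
    ‖iteratedDeriv k (fun z : ℂ => f m v (z * ((((2 * m : ℕ) : ℝ) ^ (-(2 / 3) : ℝ) : ℝ) : ℂ))) 0‖ ≤ ε

/-- **Chapters A and B** for the windows. -/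
theorem bab_of (h0 : BdV C c0 Ψ false) (h1 : BdV C c0 Ψ true) {c : ℝ} (hc : 0 < c)
    {f : ℕ → ℤ × ℤ → ℂ → ℂ} (hk : KeyAB C c0 Ψ c f) {m : ℕ → ℕ} {F : Filter ℕ} (hm : Tendsto m F atTop)
    {V : Bool → ℕ → ℕ → ℤ × ℤ → ℂ} (hV : ∀ (p : Bool) (j N : ℕ) (v : ℤ × ℤ) (h : 4 ≤ m j),
      V p j N v = vU C (2 * m j) c0 v (by omega) (by omega) Ψ p (uN N)) :
    BAb (fun j => ((2 * m j : ℕ) : ℝ)) F (OmC C) (fun p j N v => V p j N (v - dSh p)) := by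
  have hR : Tendsto (fun j => ((2 * m j : ℕ) : ℝ)) F atTop :=
    tendsto_natCast_atTop_atTop.comp (tendsto_atTop_mono (fun j => by omega) hm)
  have hI : AbIn (Θ := Unit) (fun j => ((2 * m j : ℕ) : ℝ)) F (OmC C) (fun _ => Set.univ)
      (fun j _ v t => f (m j) v t) (fun η j => Zv C η (2 * (m j : ℤ))) := by
    refine ⟨thin_Zv C hR (Eventually.of_forall fun j => by push_cast; ring), ?_, ?_, ?_⟩
    · intro K _ _
      exact Eventually.of_forall fun j _ _ v _ => hk.diff (m j) v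
    · intro K hK hKc B hB
      obtain ⟨M0, m0, H0⟩ := h0 K hK hKc B hB
      obtain ⟨s, hs, hsub⟩ := hKc.exists_cthickening_subset_open (OmC_open C) hK
      obtain ⟨M1, m1, H1⟩ := h1 _ hsub hKc.cthickening B hB
      obtain ⟨m2, H2⟩ := hk.eq K hK hKc
      refine ⟨c * (M0 + M1), ?_⟩
      filter_upwards [hm.eventually_ge_atTop m0, hm.eventually_ge_atTop m1, hm.eventually_ge_atTop m2,
        hm.eventually_ge_atTop 4, hR.eventually_gt_atTop 0, hR.eventually_gt_atTop (‖lat rr‖ / s)]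
        with j a0 a1 a2 a4 a5 a6 _ _ v hv u hu hu'
      rw [H2 (m j) a2 (by omega) (by omega) v hv u hu]
      refine mul_le_mul_of_nonneg_left ((norm_sub_le _ _).trans (add_le_add ?_ ?_)) hc.le
      · exact H0 (m j) a0 (by omega) (by omega) v hv u hu hu'
      · exact H1 (m j) a1 (by omega) (by omega) (v - rr)
          (Pool.Agent.H44.FM.WG.shift_mem' hs a5 a6 hv) u hu hu'
    · intro K hK hKc η hη k ε hε
      obtain ⟨m1, H1⟩ := hk.tay K hK hKc η hη k ε hε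
      filter_upwards [hm.eventually_ge_atTop m1] with j a1 _ _ v hv hv'
      exact H1 (m j) a1 v hv hv'
  have key := hI.ab hR (V := fun j _ N v => (c : ℂ) * (V false j N v - V true j N (v - rr)))
    (θ := fun _ => ()) (fun K hK hKc ρ hρ => ?_) (Eventually.of_forall fun _ => Set.mem_univ _)
  · intro K hK hKc
    obtain ⟨ρ1, hρ1, H⟩ := key K hK hKc
    refine ⟨ρ1, hρ1, fun ρ hρ hρ' ε hε => ?_⟩
    filter_upwards [H ρ hρ hρ' (c * ε) (by positivity)] with j hj S hS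
    have h2 := hj S hS
    have e1 : ∀ v : ℤ × ℤ, ‖(c : ℂ) * (V false j ⌊ρ * ((2 * m j : ℕ) : ℝ)⌋₊ v -
        V true j ⌊ρ * ((2 * m j : ℕ) : ℝ)⌋₊ (v - rr))‖ =
        c * ‖V false j ⌊ρ * ((2 * m j : ℕ) : ℝ)⌋₊ (v - dSh false) -
          V true j ⌊ρ * ((2 * m j : ℕ) : ℝ)⌋₊ (v - dSh true)‖ := by
      intro v
      rw [norm_mul, Complex.norm_real, Real.norm_of_nonneg hc.le]
      unfold dSh
      simp only [Bool.false_eq_true, if_false, if_true, sub_zero]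
    rw [Finset.sum_congr rfl fun v _ => e1 v, ← Finset.mul_sum, mul_assoc] at h2
    exact le_of_mul_le_mul_left h2 hc
  · obtain ⟨m2, H2⟩ := hk.eq K hK hKc
    filter_upwards [hm.eventually_ge_atTop m2, hm.eventually_ge_atTop 4,
      hR.eventually (Pool.Agent.H32.W.Ab.rap_smallR hρ)] with j a2 a4 a5 _ _ v hv
    have hu : 1 ≤ (uN ⌊ρ * ((2 * m j : ℕ) : ℝ)⌋₊).im := by
      refine (a5 (uN ⌊ρ * ((2 * m j : ℕ) : ℝ)⌋₊) ?_).1
      rw [Pool.Agent.H32.W.Ab.uN_im, sub_self, abs_zero]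
      exact zero_le_one
    rw [H2 (m j) a2 (by omega) (by omega) v hv _ hu, hV false j _ v a4, hV true j _ (v - rr) a4, norm_mul,
      Complex.norm_real, Real.norm_of_nonneg hc.le]

/-- **The statement `StAB`.** -/
theorem stAB_of (h0 : ∀ C : CD, LowC C → ∀ (c0 : Bool) (θ : Th C c0), BdV C c0 (PsT θ) false)
    (h1 : ∀ C : CD, LowC C → ∀ (c0 : Bool) (θ : Th C c0), BdV C c0 (PsT θ) true)
    (hk : ∀ C : CD, LowC C → ∀ (c0 : Bool) (θ : Th C c0), ∃ (c : ℝ) (f : ℕ → ℤ × ℤ → ℂ → ℂ), 0 < c ∧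
      KeyAB C c0 (PsT θ) c f) : StAB := by
  intro C hC c0 θ m U hm
  obtain ⟨c, f, hc, hkk⟩ := hk C hC c0 θ
  refine bab_of (h0 C hC c0 θ) (h1 C hC c0 θ) hc hkk hm fun p j N v h => ?_
  unfold vI xC
  rw [dif_pos h, Bool.xor_false]
  rfl

end Pool.Agent.H44.W
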