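import Mathlib
import Pool.Agent.H62.W.TotII
import Pool.Agent.H20.W.InstD

set_option autoImplicit false
open Finset

/-! # The line on the crossed wall as a mean of totals, all weights

`UII` : the labels of the column of the line which are not in a pair (at most two, `sub_UII`), off the row `r`.
`linII` : helper20's line value `VS` at the position `w` is the mean over the states `S` of `UII` of the totals of
helper62's functional `FII` with the frozen labels `S`, weight `a (1 - a)` on every tie. -/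

namespace Pool.Agent.H44.W

open Pool.Agent.H75.Perc Pool.Agent.H75.TwoArm Pool.Agent.Q1 Pool.Agent.H33.Q1 Pool.Agent.H13.Q1
open Pool.Agent.H42.W (VF RB)
open Pool.Agent.H15.W (TotV)
open Pool.Agent.H54.W (Win Pos CD NE)
open Pool.Agent.H21.W (DR mem_DR)
open Pool.Agent.H42.Sp (Sd Ix kt rt)
open Pool.Agent.H74.R45 (exists_lt)
open Pool.Agent.H62.W

open Pool.Agent.H93.W (rcol Fs mem_Fs other_WR)
open Pool.Agent.H34.W (opw)

variable {D : Win} {r x0 a b y0 y1 x y t : ℤ} {c0 : Bool} {Wo S : Finset (ℤ × ℤ)}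

open Classical in
/-- the labels of the column of the line which are not in a pair, off the row `r` -/
noncomputable def UII (D : Win) (r : ℤ) (c0 : Bool) : Finset (ℤ × ℤ) :=
  ((Icc 0 (D.h - 1)).filter fun y => y ≠ r ∧ ¬ Pr D c0 (D.w - 1) (if y < r then y else y - 1)).image
    fun y => lt (D.w - 1, y)

lemma mem_UII : lt (x, y) ∈ UII D r c0 ↔ x = D.w - 1 ∧ 0 ≤ y ∧ y < D.h ∧ y ≠ r ∧
    ¬ Pr D c0 (D.w - 1) (if y < r then y else y - 1) := by
  classical
  unfold UII
  rw [mem_image]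
  constructor
  · rintro ⟨t, h1, h2⟩
    rw [mem_filter, mem_Icc] at h1
    have h3 := lt_inj h2
    simp only [Prod.mk.injEq] at h3
    obtain ⟨h3, rfl⟩ := h3
    exact ⟨h3.symm, h1.1.1, by omega, h1.2.1, h1.2.2⟩
  · rintro ⟨rfl, h1, h2, h3, h4⟩
    exact ⟨y, mem_filter.2 ⟨mem_Icc.2 ⟨h1, by omega⟩, h3, h4⟩, rfl⟩

lemma odd_UII {e : ℤ × ℤ} (h : e ∈ UII D r c0) : (e.1 + e.2) % 2 = 1 := by
  classical
  unfold UII at h
  obtain ⟨t, -, rfl⟩ := mem_image.1 h
  exact lt_odd _

/-- a removed row which is not in a pair is the first or the last one -/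
lemma npr_row (h0 : 0 ≤ t) (h1 : t ≤ D.h - 2) (h : ¬ Pr D c0 (D.w - 1) t) : t = 0 ∨ t = D.h - 2 := by
  by_contra hc
  push Not at hc
  apply h
  by_cases hp : (D.w + t) % 2 = if c0 then 1 else 0
  · exact ⟨rfl, t, by omega, hp, Or.inr rfl⟩
  · refine ⟨rfl, t + 1, by omega, ?_, Or.inl (by ring)⟩
    cases c0
    · simp only [Bool.false_eq_true, if_false] at hp ⊢
      omega
    · simp only [if_true] at hp ⊢
      omega

/-- the unpaired labels are in the corners -/
lemma sub_UII (hr : 0 < r) (hr' : r + 1 < D.h) :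
    UII D r c0 ⊆ {lt (D.w - 1, 0), lt (D.w - 1, D.h - 1)} := by
  intro e he
  obtain ⟨x, y, rfl⟩ := exists_lt (odd_UII he)
  obtain ⟨rfl, h0, h1, h2, h3⟩ := mem_UII.1 he
  rw [mem_insert, mem_singleton]
  by_cases hy : y < r
  · rw [if_pos hy] at h3
    rcases npr_row h0 (by omega) h3 with h4 | h4
    · left; rw [h4]
    · omega
  · rw [if_neg hy] at h3
    rcases npr_row (by omega) (by omega) h3 with h4 | h4
    · omega
    · right
      rw [show y = D.h - 1 by omega]

/-- at most two labels -/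
lemma card_UII (hr : 0 < r) (hr' : r + 1 < D.h) : (UII D r c0).card ≤ 2 :=
  (card_le_card (sub_UII hr hr')).trans card_le_two

/-- the random labels of the line at the right wall off the string -/
lemma EJ_II (G : GII D r x0 a b y0 y1 c0) : (D.EJ fun _ => D.w) \ Fs D r x0 =
    (E0II D r x0 (ZQ a b y0 y1) ∪ (EII D a c0).image (pl r)) ∪ UII D r c0 := by
  have g1 := G.r0
  have g2 := G.r1
  have g3 := G.xa
  have g4 := G.aw
  ext e
  have key : ∀ x y : ℤ, lt (x, y) ∈ (D.EJ fun _ => D.w) \ Fs D r x0 ↔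
      lt (x, y) ∈ (E0II D r x0 (ZQ a b y0 y1) ∪ (EII D a c0).image (pl r)) ∪ UII D r c0 := by
    intro x y
    rw [mem_sdiff, mem_union, mem_union, G.mem_E0, GII.mem_img, mem_EII, mem_EII, mem_UII,
      Win.mem_EJ (posw D), mem_Fs (by omega)]
    unfold Win.InE Win.InU Win.RE Win.RW Win.RB Win.RT
    beta_reduce
    have h1 : ∀ y', Pr D c0 x y' → x = D.w - 1 ∧ 0 ≤ y' ∧ y' < D.h - 1 := fun y' h => h.box
    have k1 := h1 y
    have k2 := h1 (y - 1)
    have ha := G.ha y
    constructor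
    · rintro ⟨h2, h3⟩
      have h4 : 0 ≤ y ∧ y < D.h ∧ D.a y - 1 ≤ x ∧ x < D.w := by omega
      by_cases hx : x < a
      · exact Or.inl (Or.inl ⟨h4.1, h4.2.1, h4.2.2.1, hx, by omega⟩)
      · have hy : y ≠ r := by omega
        rcases lt_or_gt_of_ne hy with h5 | h5
        · by_cases h6 : x < D.w - 1
          · exact Or.inl (Or.inr (Or.inl ⟨h5, Or.inl (by omega)⟩))
          · have h7 : x = D.w - 1 := by omega
            subst h7
            by_cases h8 : Pr D c0 (D.w - 1) y
            · exact Or.inl (Or.inr (Or.inl ⟨h5, Or.inr h8⟩))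
            · exact Or.inr ⟨rfl, h4.1, h4.2.1, hy, by rwa [if_pos h5]⟩
        · by_cases h6 : x < D.w - 1
          · exact Or.inl (Or.inr (Or.inr ⟨h5, Or.inl (by omega)⟩))
          · have h7 : x = D.w - 1 := by omega
            subst h7
            by_cases h8 : Pr D c0 (D.w - 1) (y - 1)
            · exact Or.inl (Or.inr (Or.inr ⟨h5, Or.inr h8⟩))
            · exact Or.inr ⟨rfl, h4.1, h4.2.1, hy, by rwa [if_neg (by omega)]⟩
    · rintro ((h2 | ⟨h2, h3 | h3⟩ | ⟨h2, h3 | h3⟩) | ⟨h2, h3, h4, h5, -⟩)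
      · exact ⟨Or.inl ⟨h2.1, h2.2.1, h2.2.2.1, by omega⟩, by omega⟩
      · have := ha (by omega) (by omega)
        exact ⟨Or.inl (by omega), by omega⟩
      · have := k1 h3
        have := ha (by omega) (by omega)
        exact ⟨Or.inl (by omega), by omega⟩
      · have := ha (by omega) (by omega)
        exact ⟨Or.inl (by omega), by omega⟩
      · have := k2 h3
        have := ha (by omega) (by omega)
        exact ⟨Or.inl (by omega), by omega⟩
      · have := ha (by omega) (by omega)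
        exact ⟨Or.inl (by omega), by omega⟩
  by_cases ho : (e.1 + e.2) % 2 = 1
  · obtain ⟨x, y, rfl⟩ := exists_lt ho
    exact key x y
  · constructor
    · intro h
      exact absurd (Win.odd_EJ (mem_sdiff.1 h).1) ho
    · intro h
      exfalso
      apply ho
      rw [mem_union, mem_union] at h
      rcases h with (h | h) | h
      · classical
        unfold E0II at h
        exact Win.odd_EJ (mem_filter.1 h).1
      · obtain ⟨e', h1, rfl⟩ := mem_image.1 h
        obtain ⟨x, y, rfl⟩ := exists_lt (odd_EII h1)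
        rw [pl_lt]
        split_ifs <;> exact lt_odd _
      · exact odd_UII h

lemma disj_UII (G : GII D r x0 a b y0 y1 c0) :
    Disjoint (E0II D r x0 (ZQ a b y0 y1) ∪ (EII D a c0).image (pl r)) (UII D r c0) := by
  have g1 := G.r0
  have g2 := G.r1
  have g3 := G.xa
  have g4 := G.aw
  rw [disjoint_right]
  intro e he
  obtain ⟨x, y, rfl⟩ := exists_lt (odd_UII he)
  obtain ⟨rfl, h0, h1, h2, h3⟩ := mem_UII.1 he
  rw [mem_union, G.mem_E0, GII.mem_img, mem_EII, mem_EII]
  rintro (h | ⟨h4, h | h⟩ | ⟨h4, h | h⟩)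
  · omega
  · omega
  · exact h3 (by rwa [if_pos h4])
  · omega
  · exact h3 (by rwa [if_neg (by omega)])

/-- the open weights of the line at the right wall -/
lemma opw_w (h0 : 0 ≤ y) (h1 : y < D.h) {a1 b1 c1 : ℂ} :
    opw (fun q => D.wA (fun _ => D.w) a1 b1 c1 q.1 q.2) (lt (D.w - 1, y)) = Win.wal (D.w - 1) y a1 := by
  unfold opw
  rw [tt_lt]
  simp only
  unfold Win.wA
  beta_reduce
  rw [if_neg (by omega), if_neg (by omega), if_pos rfl, if_neg (by omega), if_neg (by omega)]

lemma opw_in (h0 : 0 ≤ y) (h1 : y < D.h) (h2 : D.a y - 1 ≤ x) (h3 : x < D.w - 1) {a1 b1 c1 : ℂ} :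
    opw (fun q => D.wA (fun _ => D.w) a1 b1 c1 q.1 q.2) (lt (x, y)) = 1 / 2 := by
  unfold opw
  rw [tt_lt]
  simp only
  unfold Win.wA
  beta_reduce
  rw [if_neg (by omega), if_neg (by omega), if_neg (by omega), if_neg (by omega)]
  unfold Win.wal
  split_ifs
  · rfl
  · norm_num

lemma wal_succ (a1 : ℂ) : Win.wal x y a1 = 1 - Win.wal x (y - 1) a1 := by
  unfold Win.wal
  by_cases h : (x + y) % 2 = 0
  · rw [if_pos h, if_neg (by omega)]; ring
  · rw [if_neg h, if_pos (by omega)]

section main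

variable {ι : Type*} {Λ Dl : Set (ℤ × ℤ)} {X : ι → ℤ × ℤ} {Ψ : (ι → ι → Prop) → ℂ}

/-- the functional does not see the wall tile of the deleted row -/
lemma phi_rcol (h0 : 0 ≤ r) (h1 : r < D.h) (hD : lt (D.w, r) ∈ Dl) {τ : ℤ → ℤ} (ω : Finset (ℤ × ℤ)) :
    PhiG Λ Dl X Ψ (ω ∪ (rcol D r false).WJ τ Wo) = PhiG Λ Dl X Ψ (ω ∪ D.WJ τ Wo) := by
  have hD' : D.WR τ = (rcol D r (D.cr r)).WR τ := by
    have : rcol D r (D.cr r) = D := by
      unfold rcol
      have : (fun y => if y = r then D.cr r else D.cr y) = D.cr := by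
        funext y
        split_ifs with h
        · rw [h]
        · rfl
      rw [this]
    rw [this]
  unfold PhiG
  rw [Pool.Agent.H13.W.SG_congr (D' := Dl) (w' := ω ∪ D.WJ τ Wo) (fun _ _ => Iff.rfl) fun e h2 h3 => ?_]
  unfold Win.WJ
  rw [mem_union, mem_union, mem_union, mem_union, hD']
  have key : e ∈ (rcol D r false).WR τ ↔ e ∈ (rcol D r (D.cr r)).WR τ := by
    by_cases ho : (e.1 + e.2) % 2 = 1
    · obtain ⟨x, y, rfl⟩ := exists_lt ho
      refine other_WR h0 h1 fun h => h3 ?_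
      rw [h.1, h.2]
      exact hD
    · constructor
      · exact fun h => absurd (Win.odd_TS _ h) ho
      · exact fun h => absurd (Win.odd_TS _ h) ho
  rw [key]

/-- **The line on the crossed wall, all weights.** -/
theorem linII (G : GII D r x0 a b y0 y1 c0) (hR : RemZ r Λ Dl (ZQ a b y0 y1))
    (hX : RemZ.Out r (ZQ a b y0 y1) X) (h1 : a + 8 ≤ D.w) (h2 : 9 ≤ D.h) (h3 : D.w + 2 ≤ b)
    (hWo : ∀ x y, lt (x, y) ∈ Wo → ¬ D.InZ x y) (hD : lt (D.w, r) ∈ Dl) (a1 b1 c1 : ℂ) :
    Pool.Agent.H20.W.VS D Wo (PhiG Λ Dl X Ψ) (fun _ => D.w) a1 b1 c1 r x0 =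
      Ec (opw fun q => D.wA (fun _ => D.w) a1 b1 c1 q.1 q.2) (UII D r c0) fun S =>
        TotV (VF (FII D r x0 a c0 (ZQ a b y0 y1) Wo S (PhiG Λ Dl X Ψ)) (G.rb h1 h2 h3).Bb (G.rb h1 h2 h3).Bb
          (G.rb h1 h2 h3).TT RB.fm (G.rb h1 h2 h3).co) (G.rb h1 h2 h3).Bb (G.rb h1 h2 h3).TT
          fun _ => a1 * (1 - a1) := by
  have g1 := G.r0
  have g2 := G.r1
  have g3 := G.xa
  have g4 := G.aw
  unfold Pool.Agent.H20.W.VS
  rw [Ec_congr fun ω _ => phi_rcol (by omega) (by omega) hD ω, EJ_II G, union_comm,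
    Ec_union _ (disj_UII G).symm]
  refine Ec_congr fun S hS => ?_
  have hS1 : ∀ y, lt (D.w, y) ∉ S := fun y h => by
    have := (mem_UII.1 (hS h)).1
    omega
  have hS2 : Disjoint ((EII D a c0).image (pl r)) S :=
    ((disjoint_union_left.1 (disj_UII G)).2).mono_right hS
  rw [totII (q := fun e => if (tt e).1 < D.w - 1 then 1 / 2 else Win.wal (tt e).1 (tt e).2 a1)
    (σ := fun y => Win.wal (D.w - 1) y a1) G hR hX h1 h2 h3 hWo hS1 hS2 (fun x y h => ?_)
    (fun y _ _ => ?_) (fun y _ _ => ?_) fun k hk => ?_]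
  · rw [Ec_congr_q (q' := fun e => if (tt e).1 < D.w - 1 then 1 / 2 else Win.wal (tt e).1 (tt e).2 a1)
      fun e he => ?_]
    · refine Ec_congr fun ω _ => ?_
      congr 1
      unfold WpII
      rw [union_comm S ω, union_assoc, union_comm S]
    · have he' : e ∈ (D.EJ fun _ => D.w) \ Fs D r x0 := by
        rw [EJ_II G]; exact mem_union_left _ he
      have ho := Win.odd_EJ (mem_sdiff.1 he').1
      obtain ⟨x, y, rfl⟩ := exists_lt ho
      have h4 := (Win.mem_EJ (posw D)).1 (mem_sdiff.1 he').1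
      unfold Win.InE Win.InU Win.RE Win.RW Win.RB Win.RT at h4
      beta_reduce at h4
      have h5 : 0 ≤ y ∧ y < D.h ∧ D.a y - 1 ≤ x ∧ x < D.w := by omega
      simp only [tt_lt]
      by_cases hx : x < D.w - 1
      · rw [if_pos hx, opw_in h5.1 h5.2.1 h5.2.2.1 hx]
      · rw [if_neg hx, show x = D.w - 1 by omega, opw_w h5.1 h5.2.1]
  · simp only [tt_lt]
    rw [if_pos h]
  · simp only [tt_lt]
    rw [if_neg (lt_irrefl _)]
  · simp only [tt_lt]
    rw [if_neg (lt_irrefl _)]
    exact wal_succ a1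
  · obtain ⟨t, h4, h5, h6, h7⟩ := KII_rows hk
    rw [h6, h7]
    unfold mg Win.wal
    cases c0
    · simp only [Bool.false_eq_true, if_false, Bool.not_false, if_true] at h5 ⊢
      rw [if_neg (by omega), if_pos (by omega)]
      ring
    · simp only [if_true, Bool.not_true, Bool.false_eq_true, if_false] at h5 ⊢
      rw [if_neg (by omega), if_pos (by omega)]
      ring

end main

end Pool.Agent.H44.W
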