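import Mathlib
import Pool.Agent.H44.W.LinII
import Pool.Agent.H60.W.MemD
import Pool.Agent.H32.W.BdW

set_option autoImplicit false
open Finset

/-! # Uniform bound of the line values on the crossed wall

`hv_FII` : the functional of the chart is bounded by one. `bd_II` : for every class member of `PD` and all weights
with `WOk` the mean `linII` is bounded. -/

namespace Pool.Agent.H44.W

open Pool.Agent.H75.Perc Pool.Agent.H75.TwoArm Pool.Agent.Q1 Pool.Agent.H33.Q1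
open Pool.Agent.Q1.M6e (Ec_norm_le)
open Pool.Agent.Q1.M4 (lat)
open Pool.Agent.H42.W (VF RB)
open Pool.Agent.H15.W (TotV CaseV)
open Pool.Agent.H54.W (Win Pos CD NE)
open Pool.Agent.H74.R45 (exists_lt)
open Pool.Agent.H21.W (DR mem_DR)
open Pool.Agent.H62.W
open Pool.Agent.H20.W (Dz Zz Ph Wz tauP LowC OmC bX1 bX2 bY1 bY2)
open Pool.Agent.H20.Q1 (Nr)
open Pool.Agent.H93.W (rcol Fs)
open Pool.Agent.H34.W (opw)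
open Pool.Agent.H64.Q1 (wa)
open Pool.Agent.H60.W.II (PD bdPD caseD ScD yII mem_Ph remZ_z out_z Ph_eq)
open Pool.Agent.H60.W.BI (BdVP)
open Pool.Agent.H32.W.Bd (WOk wok_rapV)

variable {D : Win} {r x0 a b y0 y1 : ℤ} {c0 : Bool} {Wo S : Finset (ℤ × ℤ)}
variable {ι : Type*} {Λ Dl : Set (ℤ × ℤ)} {X : ι → ℤ × ℤ} {Ψ : (ι → ι → Prop) → ℂ}

/-- a mean with fair labels -/
lemma Ec_half_le {E : Finset (ℤ × ℤ)} {F : Finset (ℤ × ℤ) → ℂ} {M : ℝ} (h : ∀ ω ⊆ E, ‖F ω‖ ≤ M) :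
    ‖Ec (fun _ => (1 / 2 : ℂ)) E F‖ ≤ M := by
  refine (Ec_norm_le (C := 1 / 2) (fun _ _ => by norm_num) (fun _ _ => by norm_num) (by norm_num) h).trans ?_
  norm_num

lemma FII_le (hΨ : ∀ R, ‖Ψ R‖ ≤ 1) (Z w : Finset (ℤ × ℤ)) :
    ‖FII D r x0 a c0 Z Wo S (PhiG Λ Dl X Ψ) w‖ ≤ 1 := by
  unfold FII RemZ.FR
  exact Ec_half_le fun ω _ => hΨ _

lemma VF_le {F : Finset (ℤ × ℤ) → ℂ} {M : ℝ} (hF : ∀ w, ‖F w‖ ≤ M) {Bb B TT : Finset (ℤ × ℤ)} {κ : Type*}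
    [DecidableEq κ] {fm : ℤ × ℤ → κ} {co : κ → Bool} (ω P : Finset (ℤ × ℤ)) :
    ‖VF F Bb B TT fm co ω P‖ ≤ M := by
  unfold VF
  exact Ec_half_le fun ω' _ => hF _

/-- norm of the open weights -/
lemma wal_le {θ : ℝ} {a1 b1 c1 : ℂ} (h : WOk θ a1 b1 c1) (x y : ℤ) :
    ‖Win.wal x y a1‖ ≤ 5 ∧ ‖1 - Win.wal x y a1‖ ≤ 5 := by
  unfold Win.wal
  split_ifs
  · exact ⟨h.a0, h.a1⟩
  · exact ⟨h.a1, by rw [sub_sub_cancel]; exact h.a0⟩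

/-- **The bound for one window.** -/
theorem bd_II {η : ℝ} (hη : 0 < η) {Z1 : ℝ} (hZ : 0 ≤ Z1) : ∃ (K : ℝ) (R0 : ℕ), 0 ≤ K ∧ ∀ R : ℕ, R0 ≤ R →
    ∀ {ι : Type} {Λ Dl : Set (ℤ × ℤ)} {X : ι → ℤ × ℤ} {Ψ : (ι → ι → Prop) → ℂ} {D : Win}
      {r x0 a b y0 y1 : ℤ} {c0 : Bool} {Wo : Finset (ℤ × ℤ)} (_ : ∀ R, ‖Ψ R‖ ≤ 1)
      (G : GII D r x0 a b y0 y1 c0) (_ : RemZ r Λ Dl (ZQ a b y0 y1))
      (_ : RemZ.Out r (ZQ a b y0 y1) X) (h1 : a + 8 ≤ D.w) (h2 : 9 ≤ D.h) (h3 : D.w + 2 ≤ b)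
      (_ : ∀ x y, lt (x, y) ∈ Wo → ¬ D.InZ x y) (_ : lt (D.w, r) ∈ Dl) {a1 b1 c1 : ℂ}
      (_ : WOk (Z1 * (R : ℝ) ^ (-(2 / 3) : ℝ)) a1 b1 c1)
      (_ : ∀ S ⊆ UII D r c0, ∃ Sg, PD η R (caseD (G.rb h1 h2 h3)
        (VF (FII D r x0 a c0 (ZQ a b y0 y1) Wo S (PhiG Λ Dl X Ψ)) (G.rb h1 h2 h3).Bb (G.rb h1 h2 h3).Bb
          (G.rb h1 h2 h3).TT RB.fm (G.rb h1 h2 h3).co) Sg)),
      ‖Pool.Agent.H20.W.VS D Wo (PhiG Λ Dl X Ψ) (fun _ => D.w) a1 b1 c1 r x0‖ ≤ K := by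
  obtain ⟨K, R0, hK, H⟩ := bdPD η hη Z1 hZ
  refine ⟨100 * K, R0, by positivity, ?_⟩
  intro R hR ι Λ Dl X Ψ D r x0 a b y0 y1 c0 Wo hΨ G hRm hX h1 h2 h3 hWo hD a1 b1 c1 hw hP
  rw [linII G hRm hX h1 h2 h3 hWo hD]
  have g1 := G.r0
  have g2 := G.r1
  have key := Ec_norm_le (q := opw fun q => D.wA (fun _ => D.w) a1 b1 c1 q.1 q.2) (E := UII D r c0)
    (C := 5) (M := K * 1)
    (F := fun S => TotV (VF (FII D r x0 a c0 (ZQ a b y0 y1) Wo S (PhiG Λ Dl X Ψ)) (G.rb h1 h2 h3).Bb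
      (G.rb h1 h2 h3).Bb (G.rb h1 h2 h3).TT RB.fm (G.rb h1 h2 h3).co) (G.rb h1 h2 h3).Bb (G.rb h1 h2 h3).TT
          fun _ => a1 * (1 - a1)) ?_ ?_ (by norm_num) ?_
  · refine key.trans ?_
    have hc := card_UII (D := D) (c0 := c0) g1 g2
    have h4 : ((2 * 5 : ℝ)) ^ (UII D r c0).card ≤ (2 * 5) ^ 2 := pow_le_pow_right₀ (by norm_num) hc
    calc (2 * 5 : ℝ) ^ (UII D r c0).card * (K * 1) ≤ (2 * 5) ^ 2 * (K * 1) :=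
          mul_le_mul_of_nonneg_right h4 (by positivity)
      _ = 100 * K := by ring
  · intro e he
    obtain ⟨x, y, rfl⟩ := exists_lt (odd_UII he)
    obtain ⟨rfl, k0, k1, -, -⟩ := mem_UII.1 he
    rw [opw_w k0 k1]
    exact (wal_le hw _ _).1
  · intro e he
    obtain ⟨x, y, rfl⟩ := exists_lt (odd_UII he)
    obtain ⟨rfl, k0, k1, -, -⟩ := mem_UII.1 he
    rw [opw_w k0 k1]
    exact (wal_le hw _ _).2
  · intro S hS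
    obtain ⟨Sg, hx⟩ := hP S hS
    exact H R hR _ hx 1 (fun _ => a1 * (1 - a1)) (fun ω _ P _ => VF_le (FII_le hΨ _) ω P)
      fun e _ => hw.na

/-- the geometry of the chart over a compact set (helper8's `gdII`) -/
def GdII (C : CD) (c0 : Bool) (K : Set ℂ) : Prop := ∃ η0 > (0 : ℝ), ∀ η : ℝ, 0 < η → η ≤ η0 →
  ∃ m1 : ℕ, ∀ m : ℕ, m1 ≤ m → ∀ (he : (2 * (m : ℤ)) % 2 = 0) (h8 : 8 ≤ 2 * (m : ℤ)) (v : ℤ × ℤ),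
  lat v / (((2 * m : ℕ) : ℝ) : ℂ) ∈ K → ∃ (a b : ℤ) (_ : b ≤ 2 * (m : ℤ) * C.W + 2 * (m : ℤ))
    (G : GII (Dz C (2 * m) c0 he h8 v.2) v.2 v.1 a b (-(2 * (m : ℤ))) (yII C (2 * m)) c0)
    (h1 : a + 8 ≤ (Dz C (2 * m) c0 he h8 v.2).w) (h2 : 9 ≤ (Dz C (2 * m) c0 he h8 v.2).h)
    (h3 : (Dz C (2 * m) c0 he h8 v.2).w + 2 ≤ b), ScD η (2 * m) (G.rb h1 h2 h3)

/-- **Uniform bound of the line values on the crossed wall.** -/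
theorem bd_vS2' {C : CD} (c0 : Bool) {Ψ : (NE → NE → Prop) → ℂ} (hΨ : ∀ R, ‖Ψ R‖ ≤ 1) {K : Set ℂ}
    (hg : GdII C c0 K) {B : ℝ} (hB : 0 < B) : ∃ (M : ℝ) (m1 : ℕ), ∀ m : ℕ, m1 ≤ m →
    ∀ (he : (2 * (m : ℤ)) % 2 = 0) (h8 : 8 ≤ 2 * (m : ℤ)) (v : ℤ × ℤ),
    lat v / (((2 * m : ℕ) : ℝ) : ℂ) ∈ K → ∀ u : ℂ, 1 ≤ u.im → ((2 * m : ℕ) : ℝ) ≤ B * Real.exp u.im →
    ‖Pool.Agent.H20.W.VS (Dz C (2 * m) c0 he h8 v.2) (Wz (Dz C (2 * m) c0 he h8 v.2) (Zz C (2 * m) c0 v))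
      (Ph C (2 * m) c0 v Ψ) (tauP (Dz C (2 * m) c0 he h8 v.2) true) (wa (Real.pi - u))
      (wa (Real.pi - u + Real.pi / 2)) (wa (Real.pi - u - Real.pi / 2)) v.2 v.1‖ ≤ M := by
  obtain ⟨η, hη, Hg⟩ := hg
  obtain ⟨m1, Hg⟩ := Hg η hη le_rfl
  obtain ⟨R1, hR1, Hw⟩ := wok_rapV hB
  obtain ⟨M, R0, hM, H⟩ := bd_II hη (Z1 := 16 * B ^ (2 / 3 : ℝ)) (by positivity)
  refine ⟨M, max m1 (max R0 ⌈R1⌉₊), fun m hm he h8 v hv u hu hu' => ?_⟩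
  have k1 : m1 ≤ m := (le_max_left _ _).trans hm
  have k2 : R0 ≤ m := ((le_max_left _ _).trans (le_max_right _ _)).trans hm
  have k3 : ⌈R1⌉₊ ≤ m := ((le_max_right _ _).trans (le_max_right _ _)).trans hm
  obtain ⟨a, b, hb, G, h1, h2, h3, hs⟩ := Hg m k1 he h8 v hv
  have k4 : R1 ≤ ((2 * m : ℕ) : ℝ) := by
    refine (Nat.le_ceil _).trans ?_
    exact_mod_cast k3.trans (by omega)
  have hw := Hw _ k4 u hu hu'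
  have hS : ∀ S ⊆ UII (Dz C (2 * m) c0 he h8 v.2) v.2 c0, ∀ x y, lt (x, y) ∈ S →
      x = 2 * (m : ℤ) * C.W - 1 ∧ 0 ≤ y ∧ y < 2 * (m : ℤ) * C.H := by
    intro S hS x y h
    obtain ⟨e1, e2, e3, -, -⟩ := mem_UII.1 (hS h)
    exact ⟨e1, e2, e3⟩
  have hWo : ∀ x y, lt (x, y) ∈ Wz (Dz C (2 * m) c0 he h8 v.2) (Zz C (2 * m) c0 v) →
      ¬ (Dz C (2 * m) c0 he h8 v.2).InZ x y := by
    classical
    intro x y h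
    unfold Wz at h
    have := (mem_filter.1 h).2.1
    rwa [tt_lt] at this
  have hxw : v.1 ≤ (Dz C (2 * m) c0 he h8 v.2).w := by
    have := G.xa
    omega
  exact H (2 * m) (k2.trans (by omega)) hΨ G (remZ_z G hb le_rfl le_rfl) (out_z G hb) h1 h2 h3 hWo
    (mem_DR.2 ⟨rfl, hxw⟩) hw fun S hS' => ⟨_, mem_Ph G h1 h2 h3 hb (hS S hS')
      (((disjoint_union_left.1 (disj_UII G)).2).mono_right hS') Ψ hs⟩

end Pool.Agent.H44.W
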