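import Mathlib
import Pool.Agent.H44.W.BdAb2
import Pool.Agent.H44.W.StAB
import Pool.Agent.H8.W.GdII

set_option autoImplicit false

/-! # Uniform bound of the line values on the crossed wall: final form -/

namespace Pool.Agent.H44.W

open Pool.Agent.H54.W (CD NE)
open Pool.Agent.H20.W (OmC)

variable {C : CD} {c0 : Bool} {Ψ : (NE → NE → Prop) → ℂ}

/-- the geometry of the chart -/
theorem gdII_K {K : Set ℂ} (hK : K ⊆ OmC C) (hKc : IsCompact K) : GdII C c0 K := by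
  obtain ⟨η0, h0, H⟩ := Pool.Agent.H8.W.gdII (c0 := c0) hK hKc
  refine ⟨η0, h0, fun η e1 e2 => ?_⟩
  obtain ⟨m1, H1⟩ := H η e1 e2
  refine ⟨m1, fun m hm he h8 v hv => ?_⟩
  obtain ⟨G, h1, h2, h3, hs⟩ := H1 m hm he h8 v hv
  exact ⟨_, _, le_rfl, G, h1, h2, h3, hs⟩

/-- **Uniform bound of the line values on the crossed wall.** -/
theorem bdV_true (hΨ : ∀ R, ‖Ψ R‖ ≤ 1) : BdV C c0 Ψ true := by
  intro K hK hKc B hB
  exact bd_vS2' c0 hΨ (gdII_K hK hKc) hB

end Pool.Agent.H44.W
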