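import Mathlib
import Pool.Agent.H44.W.BdAb3
import Pool.Agent.H57.W.KeyZ

set_option autoImplicit false

/-! # W-B: `StAB` from the uniform bound of the world `false` and the Taylor coefficients -/

namespace Pool.Agent.H44.W

open Pool.Agent.H54.W (CD PsT)
open Pool.Agent.H20.W (LowC StAB Th PsT_le)
open Pool.Agent.H57.W (TayZ keyAB_fz be8_pos)

/-- **`StAB`.** -/
theorem stAB_z (hb : ∀ C : CD, LowC C → ∀ (c0 : Bool) (θ : Th C c0), BdV C c0 (PsT θ) false)
    (ht : ∀ C : CD, LowC C → ∀ (c0 : Bool) (θ : Th C c0), TayZ θ) : StAB :=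
  stAB_of hb (fun _ _ _ θ => bdV_true (PsT_le θ)) fun C hC c0 θ =>
    ⟨_, _, be8_pos c0, keyAB_fz θ (ht C hC c0 θ)⟩

end Pool.Agent.H44.W
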