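import Mathlib
import Pool.Agent.H44.W.StABf
import Pool.Agent.H20.W.BdI
import Pool.Agent.H20.W.StFin
import Pool.Agent.H57.W.TayZ

set_option autoImplicit false

/-! # W-B: `StAB` and `StS` from the Taylor coefficients of the rows whose string ends at a corner -/

namespace Pool.Agent.H44.W

open Pool.Agent.H54.W (CD PsT)
open Pool.Agent.H20.W (LowC StAB StS Th PsT_le stS_left)
open Pool.Agent.H57.W (TayP tayZ_zero)

/-- **`StAB`.** -/
theorem stAB_t (ht : ∀ C : CD, LowC C → ∀ (c0 : Bool) (θ : Th C c0), TayP θ (if c0 then 1 else 0)) : StAB :=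
  stAB_z (fun _ hC c0 θ => Pool.Agent.H20.W.BI.bdV_false hC c0 (PsT_le θ))
    fun C hC c0 θ => tayZ_zero θ (ht C hC c0 θ)

/-- **The S-property.** -/
theorem stS_t (ht : ∀ C : CD, LowC C → ∀ (c0 : Bool) (θ : Th C c0), TayP θ (if c0 then 1 else 0)) : StS :=
  stS_left (stAB_t ht)

end Pool.Agent.H44.W
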